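import Pool.Agent.MP_ecfd11_lc.H20.Null

-- part MP_ecfd11_lc.H20.Refl
section

/-!
Simultaneous stationary reflection from strong compactness.
-/

namespace Pool.Agent.MP_ecfd11_lc.H20

universe u

open ZFSet Function Classical Cardinal Filter

/-- Fewer than `d` stationary sets of points of cofinality `< d` reflect simultaneously at
stationarily many points of uncountable cofinality `< d`. -/
def Refl (d l : ZFSet.{u}) : Prop :=
  ∀ (x : ZFSet.{u}) (S : ZFSet.{u} → ZFSet.{u}), card x < card d →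
    (∀ i ∈ x, (∀ y ∈ S i, Sm d y) ∧ ¬ Null l (S i)) →
    ¬ Null l (l.sep fun b => Sm d b ∧ Unc b ∧ ∀ i ∈ x, ¬ Null b (S i))

theorem StronglyCompact.refl {d l : ZFSet.{u}} (h : StronglyCompact d l) (hdl : d ∈ l)
    (hl : Regular Set.univ l) : Refl d l := by
  obtain ⟨hd, U, hU, u1, u2⟩ := h
  have cpl : ∀ (x : ZFSet.{u}) (p : ZFSet.{u} → ZFSet.{u} → Prop), card x < card d →
      (∀ i ∈ x, ∀ᶠ s in (U : Filter ZFSet.{u}), p i s) →
      ∀ᶠ s in (U : Filter ZFSet.{u}), ∀ i ∈ x, p i s := fun x p hx h =>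
    (eventually_cardinal_ball (S := (x : Set ZFSet.{u})) (p := fun s i _ => p i s) (by
      have := cardinalMk_coe_sort (x := x)
      change #x < _
      rw [this]; exact lift_lt.2 hx)).2 h
  have hom : card om < card d := hd.card_lt hd.2.1
  have wf : WellFounded fun f g : ZFSet.{u} → ZFSet.{u} =>
      ∀ᶠ s in (U : Filter ZFSet.{u}), f s ∈ g s := by
    rw [wellFounded_iff_isEmpty_descending_chain]
    refine ⟨fun ⟨F, hF⟩ => ?_⟩
    obtain ⟨s, hs⟩ := (cpl om (fun i s => ∀ n, nat n = i → F (n + 1) s ∈ F n s) hom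
      fun i hi => by
        obtain ⟨o, ho, rfl⟩ := Ordinal.mem_toZFSet_iff.1 hi
        obtain ⟨n, rfl⟩ := Ordinal.lt_omega0.1 ho
        filter_upwards [hF n] with s hs m hm
        rwa [nat_inj.1 hm]).exists
    exact (wellFounded_iff_isEmpty_descending_chain.1 mem_wf).false ⟨fun n => F n s, fun n =>
      hs _ (Ordinal.toZFSet_mem_toZFSet_iff.2 (Ordinal.natCast_lt_omega0 n)) n rfl⟩
  have h0 : ∀ s, ∃ b ∈ l, s ⊆ l ∧ card s < card d → ∀ i ∈ s, i ∈ b := fun s => by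
    by_cases hs : s ⊆ l ∧ card s < card d
    · obtain ⟨b, h1, h2⟩ := hl.bddV (hs.2.trans (hl.card_lt hdl)) (fun i => i) hs.1
      exact ⟨b, h1, fun _ => h2⟩
    · exact ⟨d, hdl, fun h => absurd h hs⟩
  choose g g1 g2 using h0
  obtain ⟨f, ⟨f1, f2⟩, f3⟩ := wf.has_min
    {f | (∀ s, f s ∈ l) ∧ ∀ a ∈ l, ∀ᶠ s in (U : Filter ZFSet.{u}), a ∈ f s}
    ⟨g, g1, fun a ha => by
      filter_upwards [u1, u2 a ha] with s h1 h2 using g2 s h1 a h2⟩
  have fo : ∀ s, (f s).IsOrdinal := fun s => hl.1.mem (f1 s)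
  have key : ∀ p : ZFSet.{u} → ZFSet.{u} → Prop,
      (∀ᶠ s in (U : Filter ZFSet.{u}), ∃ y ∈ f s, p s y) →
      ∃ a ∈ l, ∀ᶠ s in (U : Filter ZFSet.{u}), ∃ y ∈ f s, y ∈ a ∧ p s y := fun p hp => by
    have h1 : ∀ s, ∃ y ∈ l, (∃ y ∈ f s, p s y) → y ∈ f s ∧ p s y := fun s => by
      by_cases hs : ∃ y ∈ f s, p s y
      · obtain ⟨y, h1, h2⟩ := hs
        exact ⟨y, hl.1.mem_trans h1 (f1 s), fun _ => ⟨h1, h2⟩⟩
      · exact ⟨d, hdl, fun h => absurd h hs⟩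
    choose k k1 k2 using h1
    have h2 : ¬ ∀ a ∈ l, ∀ᶠ s in (U : Filter ZFSet.{u}), a ∈ k s := fun h2 =>
      f3 k ⟨k1, h2⟩ (by filter_upwards [hp] with s hs using (k2 s hs).1)
    push Not at h2
    obtain ⟨a, ha, h2⟩ := h2
    refine ⟨_, hl.succ_mem ha, ?_⟩
    filter_upwards [hp, h2] with s h3 h4
    exact ⟨k s, (k2 s h3).1, mem_insert_iff.2 ((hl.1.mem (k1 s)).eq_or_mem_of_subset
      (hl.1.mem ha) (((hl.1.mem ha).notMem_iff_subset (hl.1.mem (k1 s))).1 h4)), (k2 s h3).2⟩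
  have cof : ∀ p : ZFSet.{u} → ZFSet.{u} → Prop,
      (∀ a ∈ l, ∃ z ∈ l, a ∈ z ∧ ∀ᶠ s in (U : Filter ZFSet.{u}), p s z) →
      ∀ᶠ s in (U : Filter ZFSet.{u}), ∀ x ∈ f s, ∃ z ∈ f s, x ∈ z ∧ p s z := fun p hp => by
    by_contra h1
    obtain ⟨a, ha, h2⟩ := key (fun s x => ¬ ∃ z ∈ f s, x ∈ z ∧ p s z) (by
      filter_upwards [Ultrafilter.eventually_not.2 h1] with s hs
      push Not at hs ⊢
      exact hs)
    obtain ⟨z, z1, z2, z3⟩ := hp a ha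
    obtain ⟨s, ⟨y, y1, y2, y3⟩, h3, h4⟩ := (h2.and (z3.and (f2 z z1))).exists
    exact y3 ⟨z, h4, (hl.1.mem z1).mem_trans y2 z2, h3⟩
  intro x S hx hS
  rintro ⟨E, e1, e2⟩
  have a1 : ∀ᶠ s in (U : Filter ZFSet.{u}), Sm d (f s) := by
    filter_upwards [u1, cof (fun s z => z ∈ s) fun a ha => ⟨_, hl.succ_mem ha, mem_insert _ _,
      u2 _ (hl.succ_mem ha)⟩] with s h1 h2
    refine ⟨s ∩ f s, fun z hz => (mem_inter.1 hz).2, not_le.2 ((card_mono fun z hz =>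
      (mem_inter.1 hz).1).trans_lt h1.2), fun y hy => ?_⟩
    obtain ⟨z, z1, z2, z3⟩ := h2 y hy
    exact ⟨z, mem_inter.2 ⟨z3, z1⟩, z2⟩
  have a2 : ∀ᶠ s in (U : Filter ZFSet.{u}), f s ∈ E := by
    filter_upwards [f2 d hdl, cof (fun _ z => z ∈ E) fun a ha => by
      obtain ⟨z, z1, z2⟩ := e1.2.1 a ha
      exact ⟨z, e1.1 z1, z2, Eventually.of_forall fun _ => z1⟩] with s h1 h2
    refine e1.2.2 _ (f1 s) ⟨d, h1⟩ fun y hy => ?_
    obtain ⟨z, z1, z2, z3⟩ := h2 y hy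
    exact ⟨z, z3, z2, z1⟩
  have a3 : ∀ᶠ s in (U : Filter ZFSet.{u}), Unc (f s) := by
    by_contra h1
    have h2 : ∀ s, ∃ G : ZFSet.{u} → ZFSet.{u}, ¬ Unc (f s) →
        ∀ c ∈ f s, ∃ n ∈ om, G n ∈ f s ∧ G n ∉ c := fun s => by
      by_cases hs : Unc (f s)
      · exact ⟨id, fun h => absurd hs h⟩
      · simp only [Unc, fo s, true_and, not_forall, not_exists, not_and] at hs
        obtain ⟨y, y1, y2, y3⟩ := hs
        obtain ⟨G, hG⟩ := exists_surj_of_card_le y2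
        refine ⟨G, fun _ c hc => ?_⟩
        obtain ⟨z, z1, z2⟩ := y3 c hc
        obtain ⟨n, hn, rfl⟩ := hG z z1
        exact ⟨n, hn, y1 z1, z2⟩
    choose G hG using h2
    have h3 : ∀ n, ∃ a ∈ l, ∀ᶠ s in (U : Filter ZFSet.{u}), G s n ∈ f s → G s n ∈ a := fun n => by
      obtain ⟨a, ha, h3⟩ := key (fun s y => G s n ∈ f s → y = G s n) (by
        filter_upwards [f2 d hdl] with s hs
        by_cases h : G s n ∈ f s
        exacts [⟨_, h, fun _ => rfl⟩, ⟨d, hs, fun h' => absurd h' h⟩])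
      refine ⟨a, ha, ?_⟩
      filter_upwards [h3] with s ⟨y, _, y2, y3⟩ h using y3 h ▸ y2
    choose A a1 a2 using h3
    obtain ⟨c, hc, h3⟩ := hl.bddV (hl.card_lt hl.2.1) A fun n _ => a1 n
    obtain ⟨s, h4, h5, h6⟩ := ((Ultrafilter.eventually_not.2 h1).and ((f2 c hc).and
      (cpl om (fun n s => G s n ∈ f s → G s n ∈ A n) hom fun n _ => a2 n))).exists
    obtain ⟨n, hn, h7, h8⟩ := hG s h4 c h5
    exact h8 ((hl.1.mem hc).mem_trans (h6 n hn h7) (h3 n hn))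
  have a4 : ∀ i ∈ x, ∀ᶠ s in (U : Filter ZFSet.{u}), ¬ Null (f s) (S i) := fun i hi => by
    rw [Ultrafilter.eventually_not]
    intro h1
    have h2 : ∀ s, ∃ c, Null (f s) (S i) → Club (f s) c ∧ ∀ y ∈ S i, y ∉ c := fun s => by
      by_cases hs : Null (f s) (S i)
      exacts [hs.imp fun _ h _ => h, ⟨∅, fun h => absurd h hs⟩]
    choose c hc using h2
    have h3 : ∀ b ∈ l, ∃ a ∈ l, ∀ᶠ s in (U : Filter ZFSet.{u}),
        ∃ y ∈ f s, y ∈ a ∧ y ∈ c s ∧ b ∈ y := fun b hb => key _ (by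
      filter_upwards [h1, f2 b hb] with s h3 h4
      obtain ⟨y, y1, y2⟩ := (hc s h3).1.2.1 b h4
      exact ⟨y, (hc s h3).1.1 y1, y1, y2⟩)
    choose! N n1 n2 using h3
    refine (hS i hi).2 ⟨l.sep fun g => (∃ b, b ∈ g) ∧ ∀ b ∈ g, N b ∈ g, ⟨sep_subset,
      fun b hb => ?_, fun g hg hne h3 => mem_sep.2 ⟨hg, hne, fun b hb => ?_⟩⟩, fun g hg h3 => ?_⟩
    · obtain ⟨g, hg, h3, h4⟩ := hl.exists_closed N n1 hb
      exact ⟨g, mem_sep.2 ⟨hg, ⟨b, h3⟩, h4⟩, h3⟩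
    · obtain ⟨z, z1, z2, z3⟩ := h3 b hb
      exact (hl.1.mem hg).mem_trans ((mem_sep.1 z1).2.2 b z2) z3
    · obtain ⟨h4, h5, h6⟩ := mem_sep.1 h3
      obtain ⟨y, y1, y2, y3⟩ := (hS i hi).1 g hg
      obtain ⟨s, h7, h8, h9⟩ := (h1.and ((f2 g h4).and (cpl y _ (not_le.1 y2) fun b hb =>
        n2 b (hl.1.mem_trans (y1 hb) h4)))).exists
      refine (hc s h7).2 g hg ((hc s h7).1.2.2 g h8 h5 fun b hb => ?_)
      obtain ⟨z, z1, z2⟩ := y3 b hb
      obtain ⟨w, w1, w2, w3, w4⟩ := h9 z z1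
      exact ⟨w, w3, ((fo s).mem w1).mem_trans z2 w4,
        (hl.1.mem h4).mem_trans w2 (h6 z (y1 z1))⟩
  obtain ⟨s, h1, h2, h3, h4⟩ := (a1.and (a2.and (a3.and (cpl x _ hx a4)))).exists
  exact e2 _ (mem_sep.2 ⟨f1 s, h1, h3, h4⟩) h2

end Pool.Agent.MP_ecfd11_lc.H20

end

-- part MP_ecfd11_lc.H20.Atom
section

/-!
Saturation and atoms of the club filter on ordinal definable sets.
-/

set_option synthInstance.maxSize 4000

namespace Pool.Agent.MP_ecfd11_lc.H20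

universe u

open ZFSet Function Classical Cardinal

variable {d l : ZFSet.{u}}

theorem stat_cofOmega (hl : Regular Set.univ l) :
    Stat Set.univ l (l.sep (CofOmega Set.univ)) :=
  (stat_cof_om innerModel_univ hl).mono (fun _ hx => mem_sep.2 ⟨(mem_sep.1 hx).1,
    (mem_sep.1 hx).2.1, (mem_sep.1 hx).2.2.1⟩) sep_subset

theorem no_inj_of_sm (h : StronglyMeasurable Set.univ l) {a : ZFSet.{u}} (ha : a ∈ l) :
    ¬ ∃ f, HOD Set.univ f ∧ IsInj l (powerset a) f := by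
  obtain ⟨hl, k, hk, hk', h1, h2⟩ := h
  exact strong_limit (C := Set.univ) hl (fun _ => Iff.rfl) (CofOmega Set.univ)
    (stat_cofOmega hl) hk hk' h1 h2 ha

theorem exists_sat (hd : Regular Set.univ d) (hdl : d ∈ l) (hr : Refl d l)
    (h : StronglyMeasurable Set.univ l) : ∃ a ∈ l, ∀ T : ZFSet.{u} → ZFSet.{u},
      Tm Set.univ On (fun v => T (v 0)) → (∀ i ∈ a, (∀ y ∈ T i, Sm d y) ∧ ¬ Null l (T i)) →
      ¬ ∀ i ∈ a, ∀ j ∈ a, ∀ y ∈ T i, y ∈ T j → i = j := by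
  obtain ⟨hl, m, hm, hm', -, h2⟩ := h
  by_contra h0
  push Not at h0
  refine h2 (solovay hl hdl hm hm' (CofOmega Set.univ) (stat_cofOmega hl) fun a ha ha' => ?_)
  obtain ⟨T, t0, t1, t2⟩ := h0 a ha
  obtain ⟨hao, F, -, f1, f2⟩ := ha'
  have h3 := hr (img (app F) om) T ((card_img_le _ _).trans_lt (hd.card_lt hd.2.1))
    fun i hi => by
      obtain ⟨n, hn, rfl⟩ := mem_img.1 hi
      exact t1 _ (f1.app_mem' hn)
  obtain ⟨b, hb⟩ : ∃ b, b ∈ l.sep fun b => Sm d b ∧ Unc b ∧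
      ∀ i ∈ img (app F) om, ¬ Null b (T i) := by
    by_contra h4
    exact h3 ((unc_of_regular hl).null_empty.mono fun x hx _ => absurd ⟨x, hx⟩ h4)
  obtain ⟨-, b1, b2, b3⟩ := mem_sep.1 hb
  have : Tm Set.univ On (fun _ => a) := Tm.ofOrd hao
  have : Tm Set.univ On (fun _ => b) := Tm.ofOrd b2.1
  have := Tm.one (C := Set.univ) (A := On) T
  have ho := img_colIn_ord (b := a.sep fun i => ¬ Null b (T i))
    fun x hx => hao.mem (mem_sep.1 hx).1
  refine ⟨a.sep fun i => ¬ Null b (T i), od_iff.2 inferInstance, sep_subset, fun x hx => ?_,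
    hd.mem_of_card_lt ho ((card_img_le _ _).trans_lt ?_)⟩
  · obtain ⟨n, y, h4, h5⟩ := f2 x hx
    have hn := (pair_mem_prod.1 (f1.1 h4)).1
    exact ⟨y, mem_sep.2 ⟨(pair_mem_prod.1 (f1.1 h4)).2,
      b3 y (mem_img.2 ⟨n, hn, f1.app_eq h4⟩)⟩, h5⟩
  · obtain ⟨c, c1, c2⟩ := b1.exists_club hd b2.1
    have h4 : ∀ i ∈ a.sep fun i => ¬ Null b (T i), ∃ z ∈ T i, z ∈ c := fun i hi => by
      by_contra h4
      push Not at h4
      exact (mem_sep.1 hi).2 ⟨c, c1, h4⟩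
    choose! Z z1 z2 using h4
    exact (card_le_of_inj Z z2 fun i hi j hj e => t2 i (mem_sep.1 hi).1 j (mem_sep.1 hj).1 _
      (z1 i hi) (e ▸ z1 j hj)).trans_lt c2

/-- `B` is a stationary set of points of small cofinality that no OD set splits. -/
def Atom (d l B : ZFSet.{u}) : Prop :=
  OD Set.univ B ∧ (∀ y, y ∈ B → y ∈ l ∧ Sm d y) ∧ ¬ Null l B ∧
    ∀ X, OD Set.univ X → Null l (B ∩ X) ∨ Null l (B \ X)

instance Df.atom (r s t : (ℕ → ZFSet.{u}) → ZFSet.{u}) [Tm Set.univ On r] [Tm Set.univ On s]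
    [Tm Set.univ On t] : Df Set.univ On (fun v => Atom (r v) (s v) (t v)) := by
  unfold Atom; infer_instance

theorem exists_atom_gen (hl : Regular Set.univ l) {k S : ZFSet.{u}} (hk : k ∈ l)
    (h1 : ¬ ∃ f, HOD Set.univ f ∧ IsInj l (powerset k) f) (s0 : OD Set.univ S) (s1 : S ⊆ l)
    (s2 : ¬ Null l S) (h2 : ∀ T : ZFSet.{u} → ZFSet.{u}, Tm Set.univ On (fun v => T (v 0)) →
      (∀ i ∈ k, T i ⊆ S ∧ ¬ Null l (T i)) → ¬ ∀ i ∈ k, ∀ j ∈ k, ∀ y ∈ T i, y ∈ T j → i = j) :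
    ∃ B, B ⊆ S ∧ OD Set.univ B ∧ ¬ Null l B ∧
      ∀ X, OD Set.univ X → Null l (B ∩ X) ∨ Null l (B \ X) := by
  by_contra h0
  have hko := hl.1.mem hk
  have : Tm Set.univ On (fun _ => S) := od_iff.1 s0
  have : Tm Set.univ On (fun _ => l) := Tm.ofOrd hl.1
  have : Tm Set.univ On (fun _ => k) := Tm.ofOrd hko
  obtain ⟨sp, p0, p1⟩ := od_choice (C := Set.univ)
    ((powerset S).sep fun B => OD Set.univ B ∧ ¬ Null l B)
    (fun B X => ¬ Null l (B ∩ X) ∧ ¬ Null l (B \ X)) fun B hB => by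
      obtain ⟨b1, b2, b3⟩ := mem_sep.1 hB
      rw [mem_powerset] at b1
      by_contra h3
      refine h0 ⟨B, b1, b2, b3, fun X hX => ?_⟩
      by_contra h4
      exact h3 ⟨X, hX, not_or.1 h4⟩
  have := Tm.one (C := Set.univ) (A := On) sp
  have h3 := fun x : ZFSet.{u} => exists_rec (fun x => x) mem_wf fun a g => S.sep fun y =>
    ∀ b, b ∈ a → (y ∈ sp (app g b) ↔ x ∈ sp (app g b))
  choose N hN using h3
  have hN0 : Tm Set.univ On (fun v => N (v 1) (v 0)) :=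
    Tm.recursion (fun _ x => x) (fun v a g => S.sep fun y =>
      ∀ b, b ∈ a → (y ∈ sp (app g b) ↔ v 0 ∈ sp (app g b)))
      (fun v => N (v 0)) (fun _ _ => mem_wf) fun _ _ a _ => hN _ a
  have hN1 : ∀ (s t : (ℕ → ZFSet.{u}) → ZFSet.{u}) [Tm Set.univ On s] [Tm Set.univ On t],
      Tm Set.univ On (fun v => N (s v) (t v)) := fun s t _ _ => Tm.two (fun a b => N b a) t s
  have hN2 : ∀ x a y, y ∈ N x a ↔ y ∈ S ∧
      ∀ b ∈ a, (y ∈ sp (N x b) ↔ x ∈ sp (N x b)) := fun x a y => by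
    rw [hN x a, mem_sep]
    refine and_congr_right fun _ => forall_congr' fun b =>
      forall_congr' fun hb => by rw [app_gr hb]
  by_cases h4 : ∃ x ∈ l, ∀ b ∈ k, ¬ Null l (N x b)
  · obtain ⟨x, hx, h4⟩ := h4
    have : Tm Set.univ On (fun _ => x) := Tm.ofOrd (hl.1.mem hx)
    refine h2 (fun b => (N x b).sep fun y => ¬ (y ∈ sp (N x b) ↔ x ∈ sp (N x b)))
      inferInstance (fun b hb => ⟨fun y hy => ((hN2 _ _ _).1 (mem_sep.1 hy).1).1,
        fun h5 => ?_⟩) fun b hb b' hb' y y1 y2 => ?_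
    · have : Tm Set.univ On (fun _ => b) := Tm.ofOrd (hko.mem hb)
      obtain ⟨h6, h7⟩ := p1 (N x b) (mem_sep.2 ⟨mem_powerset.2 fun y hy =>
        ((hN2 _ _ _).1 hy).1, od_iff.2 inferInstance, h4 b hb⟩) trivial
      by_cases h8 : x ∈ sp (N x b)
      · exact h7 (h5.mono fun y hy _ => mem_sep.2 ⟨(mem_sdiff.1 hy).1,
          fun e => (mem_sdiff.1 hy).2 (e.2 h8)⟩)
      · exact h6 (h5.mono fun y hy _ => mem_sep.2 ⟨(mem_inter.1 hy).1,
          fun e => h8 (e.1 (mem_inter.1 hy).2)⟩)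
    · rw [mem_sep] at y1 y2
      rcases (hko.mem hb).mem_trichotomous (hko.mem hb') with h5 | h5 | h5
      exacts [absurd (((hN2 _ _ _).1 y2.1).2 b h5) y1.2, h5,
        absurd (((hN2 _ _ _).1 y1.1).2 b' h5) y2.2]
  · push Not at h4
    obtain ⟨c, t, c1, c2, c3⟩ := few_values (C := Set.univ) hl.1 hko h1
      (fun x => k.sep fun b => x ∈ sp (N x b)) fun _ _ => sep_subset
    refine s2 (null_iUnion hl (hl.card_lt c1) (fun j => S.sep fun x => c x = j)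
      (fun j _ => ?_) fun x hx hx' => ⟨c x, c2 x hx', mem_sep.2 ⟨hx, rfl⟩⟩)
    by_cases h5 : ∃ x, x ∈ S.sep fun x => c x = j
    swap
    · exact (unc_of_regular hl).null_empty.mono fun x hx _ => absurd ⟨x, hx⟩ h5
    obtain ⟨x, hx⟩ := h5
    obtain ⟨x1, x3⟩ := mem_sep.1 hx
    obtain ⟨b, hb, h6⟩ := h4 x (s1 x1)
    refine h6.mono fun y hy y1 => ?_
    obtain ⟨y2, y3⟩ := mem_sep.1 hy
    have h7 := (c3 x (s1 x1) y y1).1 (x3.trans y3.symm)
    have h8 : ∀ b ∈ k, x ∈ sp (N x b) ↔ y ∈ sp (N y b) := fun b hb => by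
      simpa [hb] using ZFSet.ext_iff.1 h7 b
    have h9 : ∀ a, a ∈ k → N x a = N y a := fun a => by
      induction a using ZFSet.inductionOn with
      | _ a ih =>
        intro ha
        ext z
        rw [hN2, hN2]
        refine and_congr_right fun _ => forall_congr' fun b => forall_congr' fun hb => ?_
        rw [h8 b (hko.mem_trans hb ha), ih b hb (hko.mem_trans hb ha)]
    rw [h9 b hb, hN2]
    exact ⟨y2, fun _ _ => Iff.rfl⟩

theorem exists_atom (hd : Regular Set.univ d) (hdl : d ∈ l) (hr : Refl d l)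
    (h : StronglyMeasurable Set.univ l) {S : ZFSet.{u}} (s0 : OD Set.univ S)
    (s1 : ∀ y ∈ S, y ∈ l ∧ Sm d y) (s2 : ¬ Null l S) : ∃ B, Atom d l B ∧ B ⊆ S := by
  obtain ⟨k, hk, h2⟩ := exists_sat hd hdl hr h
  obtain ⟨B, b1, b2, b3⟩ := exists_atom_gen h.1 hk (no_inj_of_sm h hk) s0
    (fun y hy => (s1 y hy).1) s2 fun T t0 t1 => h2 T t0 fun i hi =>
      ⟨fun y hy => (s1 y ((t1 i hi).1 hy)).2, (t1 i hi).2⟩
  exact ⟨B, ⟨b2, fun y hy => s1 y (b1 hy), b3⟩, b1⟩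

theorem exists_atom_omega (h : StronglyMeasurable Set.univ l) :
    ∃ B, B ⊆ l.sep (CofOmega Set.univ) ∧ OD Set.univ B ∧ ¬ Null l B ∧
      ∀ X, OD Set.univ X → Null l (B ∩ X) ∨ Null l (B \ X) := by
  obtain ⟨hl, k, hk, hk', h1, h2⟩ := h
  have : Tm Set.univ On (fun _ => l) := Tm.ofOrd hl.1
  refine exists_atom_gen hl hk h1 (od_iff.2 (inferInstanceAs
    (Tm Set.univ On (fun _ => l.sep fun x => CofOmega Set.univ x)))) sep_subset
    (stat_iff.1 (stat_cofOmega hl)).2 fun T t0 t1 t2 => h2 ?_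
  have := Tm.one (C := Set.univ) (A := On) T
  exact exists_part hl.1 (hl.1.mem hk) hk' (CofOmega Set.univ) (fun i x => x ∈ T i)
    (fun i hi => stat_iff.2 ⟨sep_subset, fun h3 => (t1 i hi).2 (h3.mono fun x hx hx' =>
      mem_sep.2 ⟨hx', (mem_sep.1 ((t1 i hi).1 hx)).2, hx⟩)⟩)
    fun i hi j hj x _ => t2 i hi j hj x

end Pool.Agent.MP_ecfd11_lc.H20

end
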