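import Pool.Agent.MP_ecfd11_lc.H20.Scale
import Pool.Agent.MP_ecfd11_lc.H46.Defs

-- part MP_ecfd11_lc.H46.Base
section

/-!
Diagonal unions, counting by ordinal definable functions with small fibres, a uniform pairing
function, and the cardinality of an ordinal in HOD.
-/

set_option synthInstance.maxSize 4000

namespace Pool.Agent.MP_ecfd11_lc.H46

universe u

open ZFSet Function Classical Cardinal H20

variable {g k X : ZFSet.{u}}

/-- The standing hypotheses: `k` is a singular cardinal of uncountable cofinality `g`. -/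
structure Sg (g k : ZFSet.{u}) : Prop where
  unc : Unc k
  cnt : ℵ₀ < card g
  bdd : ∀ y, y ⊆ k → card y < card g → ∃ c ∈ k, ∀ z ∈ y, z ∈ c
  cof : ∃ X, X ⊆ k ∧ card X ≤ card g ∧ (∀ b ∈ k, ∃ x ∈ X, b ∈ x) ∧
    ∀ e ∈ k, card (X ∩ e) < card g
  mem : g ∈ k
  crd : ∀ a ∈ k, card a < card k

theorem sg_of_cof (hg : Cof Set.univ g k) (h0 : ℵ₀ < card g) (hm : g ∈ k)
    (hsl : ∀ a ∈ k, card a < card k) : Sg g k := by
  have hk := hg.1
  have hgo := hk.mem hm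
  have h1 : ∀ y, y ⊆ k → card y < card g → ∃ c ∈ k, ∀ z ∈ y, z ∈ c := fun y y1 y2 => by
    obtain ⟨G, hG⟩ := exists_surj_of_card_le (a := (card y).ord.toZFSet) (b := y)
      (by rw [card_ord'])
    obtain ⟨b, hb, h2⟩ := hg.2.2 (card y).ord.toZFSet (((isOrdinal_toZFSet _).mem_or_subset
      hgo).resolve_right fun h => (card_mono h).not_gt (by rwa [card_ord']))
      (gr (fun j => if G j ∈ y then G j else g) _) trivial
      (isFunc_gr fun i _ => by split_ifs with h'; exacts [y1 h', hm])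
    refine ⟨b, hb, fun i hi => ?_⟩
    obtain ⟨j, hj, rfl⟩ := hG i hi
    exact h2 j _ (pair_mem_gr.2 ⟨hj, by simp [hi]⟩)
  obtain ⟨F, f1, f2, f3⟩ := hg.exists_fun innerModel_univ hgo
  have h2 : ∀ i ∈ g, card (insert i i) < card g := fun i hi => by
    refine card_insert_le.trans_lt (add_lt_of_lt h0.le ?_ (one_lt_aleph0.trans h0))
    by_contra h2
    obtain ⟨G, hG⟩ := exists_surj_of_card_le (not_lt.1 h2)
    obtain ⟨b, hb, h3⟩ := hg.2.2 i hi (gr (fun j => if G j ∈ g then F (G j) else g) _) trivial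
      (isFunc_gr fun i _ => by split_ifs with h'; exacts [f1 _ h', hm])
    obtain ⟨j, hj, h4⟩ := f2 b hb
    obtain ⟨j', hj', rfl⟩ := hG j hj
    exact mem_asymm h4 (h3 j' _ (pair_mem_gr.2 ⟨hj', by simp [hj]⟩))
  have h3 : ∀ d ∈ g, (⋃₀ img F (insert d d) : ZFSet.{u}) ∈ k := fun d hd => by
    have h3 : ∀ y ∈ img F (insert d d), y ∈ k := fun y hy => by
      obtain ⟨i, hi, rfl⟩ := mem_img.1 hy
      exact f1 i ((mem_insert_iff.1 hi).elim (fun e => e ▸ hd) fun h => hgo.mem_trans h hd)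
    obtain ⟨c, c1, c2⟩ := h1 _ h3 ((card_img_le _ _).trans_lt (h2 d hd))
    refine (isOrdinal_sUnion fun y hy => hk.mem (h3 y hy)).mem_of_subset_of_mem hk
      (fun z hz => ?_) c1
    obtain ⟨y, hy, hz⟩ := mem_sUnion.1 hz
    exact (hk.mem c1).mem_trans hz (c2 y hy)
  refine ⟨⟨hk, fun y y1 y2 => h1 y y1 (y2.trans_lt (card_om ▸ h0))⟩, h0, h1,
    ⟨img (fun d => ⋃₀ img F (insert d d)) g, fun y hy => ?_, card_img_le _ _, fun b hb => ?_,
      fun e he => ?_⟩, hm, hsl⟩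
  · obtain ⟨d, hd, rfl⟩ := mem_img.1 hy
    exact h3 d hd
  · obtain ⟨i, hi, h4⟩ := f2 b hb
    exact ⟨_, mem_img.2 ⟨i, hi, rfl⟩, mem_sUnion.2 ⟨_, mem_img.2 ⟨i, mem_insert _ _, rfl⟩, h4⟩⟩
  · obtain ⟨i, hi, h4⟩ := f2 e he
    refine lt_of_le_of_lt ((card_mono (y := img (fun d => ⋃₀ img F (insert d d)) (insert i i))
      fun y hy => ?_).trans (card_img_le _ _)) (h2 i hi)
    obtain ⟨d, hd, rfl⟩ := mem_img.1 (mem_inter.1 hy).1
    refine mem_img.2 ⟨d, mem_insert_of_mem _ ?_, rfl⟩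
    by_contra h5
    exact mem_asymm (mem_inter.1 hy).2 (mem_sUnion.2 ⟨_, mem_img.2 ⟨i, mem_insert_iff.2
      ((hgo.mem hi).eq_or_mem_of_subset (hgo.mem hd)
        (((hgo.mem hd).notMem_iff_subset (hgo.mem hi)).1 h5)), rfl⟩, h4⟩)

/-- Diagonal unions of nonstationary sets along a set with small initial segments. -/
theorem null_diag {d : Cardinal.{u}} (hk : Unc k)
    (hb : ∀ y, y ⊆ k → card y < d → ∃ c ∈ k, ∀ z ∈ y, z ∈ c)
    (hX : ∀ e ∈ k, card (X ∩ e) < d) (p : ZFSet.{u} → ZFSet.{u} → Prop)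
    (h1 : ∀ y ∈ X, Null k (k.sep (p y))) :
    Null k (k.sep fun e => ∃ y ∈ X, y ∈ e ∧ p y e) := by
  choose! E e1 e2 using h1
  have h2 : ∀ y ∈ X, ∀ b ∈ k, ∃ x ∈ E y, b ∈ x := fun y hy => (e1 y hy).2.1
  choose! Y y1 y2 using h2
  have h3 : ∀ b ∈ k, ∃ c ∈ k, b ∈ c ∧ ∀ y ∈ X ∩ b, Y y b ∈ c :=
    fun b hb' => by
      obtain ⟨c, c1, c2⟩ := hb (img (fun y => Y y b) (X ∩ b))
        (fun z hz => by
          obtain ⟨y, hy, rfl⟩ := mem_img.1 hz
          exact (e1 y (mem_inter.1 hy).1).1 (y1 y (mem_inter.1 hy).1 b hb'))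
        ((card_img_le _ _).trans_lt (hX b hb'))
      obtain ⟨c', c3, c4, c5⟩ := exists_bound2 hk.1 c1 (hk.succ_mem hb')
      exact ⟨c', c3, c5 (mem_insert _ _), fun y hy => c4 (c2 _ (mem_img.2 ⟨y, hy, rfl⟩))⟩
  choose! N n1 n2 n3 using h3
  refine ⟨k.sep fun e => ∀ y ∈ X, y ∈ e → ∀ b ∈ e, ∃ z ∈ E y, b ∈ z ∧ z ∈ e,
    ⟨sep_subset, fun b hb => ?_, fun e he _ h => mem_sep.2 ⟨he, fun y hy hye b hb => ?_⟩⟩,
    fun e he h => ?_⟩
  · obtain ⟨e, he, h1, h2⟩ := hk.exists_closed N (fun x hx => ⟨n1 x hx, n2 x hx⟩) hb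
    refine ⟨e, mem_sep.2 ⟨he, fun y hy hye c hc => ?_⟩, h1⟩
    have heo := hk.1.mem he
    obtain ⟨w, w1, w2, w3⟩ := exists_bound2 heo hye hc
    obtain ⟨z, z1, z2, z3⟩ := h2 w w1
    have hz := hk.1.mem_trans z1 he
    have hzo := heo.mem z1
    exact ⟨Y y z, y1 y hy z hz, (hk.1.mem ((e1 y hy).1 (y1 y hy z hz))).mem_trans
      ((heo.mem hc).mem_of_subset_of_mem hzo w3 z2) (y2 y hy z hz), heo.mem_trans (n3 z hz y
        (mem_inter.2 ⟨hy, (heo.mem hye).mem_of_subset_of_mem hzo w2 z2⟩)) z3⟩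
  · have heo := hk.1.mem he
    obtain ⟨w, w1, w2, w3⟩ := exists_bound2 heo hye hb
    obtain ⟨z, z1, z2, z3⟩ := h w w1
    have hzo := heo.mem z3
    obtain ⟨x, x1, x2, x3⟩ := (mem_sep.1 z1).2 y hy
      ((heo.mem hye).mem_of_subset_of_mem hzo w2 z2) b
      ((heo.mem hb).mem_of_subset_of_mem hzo w3 z2)
    exact ⟨x, x1, x2, heo.mem_trans x3 z3⟩
  · obtain ⟨h5, y, hy, h6, h7⟩ := mem_sep.1 he
    exact e2 y hy e (mem_sep.2 ⟨h5, h7⟩)
      ((e1 y hy).2.2 e h5 ⟨y, h6⟩ ((mem_sep.1 h).2 y hy h6))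

/-- Pressing down along a set with small initial segments. -/
theorem press {d : Cardinal.{u}} (hk : Unc k)
    (hb : ∀ y, y ⊆ k → card y < d → ∃ c ∈ k, ∀ z ∈ y, z ∈ c)
    (hX : ∀ e ∈ k, card (X ∩ e) < d) {S : ZFSet.{u}} (hS : ¬ Null k S)
    (p : ZFSet.{u} → ZFSet.{u} → Prop) (h1 : ∀ e ∈ S, e ∈ k → ∃ y ∈ X, y ∈ e ∧ p y e) :
    ∃ y ∈ X, ¬ Null k (S.sep (p y)) := by
  by_contra h
  push Not at h
  refine hS ((null_diag hk hb hX (fun y e => e ∈ S ∧ p y e) fun y hy => (h y hy).mono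
    fun x hx _ => mem_sep.2 (mem_sep.1 hx).2).mono fun e he he' => ?_)
  obtain ⟨y, y1, y2, y3⟩ := h1 e he he'
  exact mem_sep.2 ⟨he', y, y1, y2, he, y3⟩

theorem not_null_diff (hk : Unc k) {S T : ZFSet.{u}} (hS : ¬ Null k S) (hT : Null k T) :
    ¬ Null k (S.sep fun x => x ∈ k ∧ x ∉ T) := fun h =>
  hS ((hk.null_union h hT).mono fun x hx hx' => mem_union.2
    (or_iff_not_imp_right.2 fun h1 => mem_sep.2 ⟨hx, hx', h1⟩))

theorem exists_of_not_null (hk : Unc k) {S T : ZFSet.{u}} (hS : ¬ Null k S) (hT : Null k T) :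
    ∃ x ∈ S, x ∈ k ∧ x ∉ T := by
  by_contra h
  exact not_null_diff hk hS hT (hk.null_empty.mono fun x hx _ =>
    absurd ⟨x, (mem_sep.1 hx).1, (mem_sep.1 hx).2⟩ h)

theorem null_compl {c : ZFSet.{u}} (hc : Club k c) : Null k (k.sep fun x => x ∉ c) :=
  ⟨c, hc, fun _ hx => (mem_sep.1 hx).2⟩

theorem null_below (hk : Unc k) {b : ZFSet.{u}} (hb : b ∈ k) :
    Null k (k.sep fun x => b ∉ x) :=
  (hk.null_bdd hb).mono fun x hx hx' => mem_insert_iff.2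
    ((hk.1.mem hx').eq_or_mem_of_subset (hk.1.mem hb)
      (((hk.1.mem hb).notMem_iff_subset (hk.1.mem hx')).1 (mem_sep.1 hx).2))

theorem mem_of_card_lt {a b : ZFSet.{u}} (ha : a.IsOrdinal) (hb : b.IsOrdinal)
    (h : card a < card b) : a ∈ b :=
  (ha.mem_or_subset hb).resolve_right fun h' => (card_mono h').not_gt h

theorem dInj_of_od {a b f : ZFSet.{u}} (h0 : OD Set.univ f) (h : IsInj a b f) :
    DInj Set.univ a b := by
  have : Tm Set.univ On (fun _ => f) := od_iff.1 h0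
  exact ⟨app f, inferInstance, fun x hx => h.1.app_mem' hx,
    fun x hx y hy e => h.2 x y _ (h.1.app_mem hx) (e ▸ h.1.app_mem hy)⟩

theorem hodCard_iff {x : ZFSet.{u}} :
    HODCard x ↔ x.IsOrdinal ∧ ∀ b ∈ x, ¬ DInj Set.univ x b := by
  refine and_congr_right fun hx => forall_congr' fun b => forall_congr' fun hb => not_congr
    ⟨fun ⟨f, h1, h2⟩ => dInj_of_od h1.self h2, ?_⟩
  rintro ⟨F, f0, f1, f2⟩
  exact ⟨gr F x, hod_gr hx F fun i hi _ hy => ((hx.mem hb).mem (f1 i hi)).mem hy, isFunc_gr f1,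
    fun i j y hi hj => by
      rw [pair_mem_gr] at hi hj
      exact f2 i hi.1 j hj.1 (hi.2.trans hj.2.symm)⟩

theorem leastBy_min {D : ZFSet.{u}} {p : ZFSet.{u} → Prop} (hD : D.IsOrdinal)
    (h : ∃ x ∈ D, p x) : leastBy D (fun x => x) p ∈ D ∧ p (leastBy D (fun x => x) p) ∧
      ∀ y ∈ leastBy D (fun x => x) p, ¬ p y := by
  obtain ⟨x0, h⟩ := h
  obtain ⟨x, ⟨hx, hp⟩, h3⟩ := exists_min_mem (p := fun x => x ∈ D ∧ p x) h
  have : (D.sep fun x => p x ∧ ∀ y, y ∈ D → p y → y ∉ x) = {x} := by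
    ext y
    rw [mem_sep, mem_singleton]
    refine ⟨fun ⟨hy, hp', h4⟩ => ?_, fun e => e ▸ ⟨hx, hp, fun y hy hp' h => h3 y h ⟨hy, hp'⟩⟩⟩
    rcases (hD.mem hy).mem_trichotomous (hD.mem hx) with h5 | h5 | h5
    · exact absurd ⟨hy, hp'⟩ (h3 y h5)
    · exact h5
    · exact absurd h5 (h4 x hx hp)
  rw [leastBy, this, sUnion_singleton]
  exact ⟨hx, hp, fun y hy h => h3 y hy ⟨hD.mem_trans hy hx, h⟩⟩

/-- The cardinality of `x` in HOD. -/
noncomputable def rho (x : ZFSet.{u}) : ZFSet.{u} :=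
  leastBy (insert x x) (fun y => y) fun b => ∃ f, OD Set.univ f ∧ IsInj x b f

instance Tm.rho (t : (ℕ → ZFSet.{u}) → ZFSet.{u}) [Tm Set.univ On t] :
    Tm Set.univ On (fun v => rho (t v)) := by
  unfold H46.rho leastBy; infer_instance

theorem rho_spec {x : ZFSet.{u}} (hx : x.IsOrdinal) : rho x ∈ insert x x ∧
    (∃ f, OD Set.univ f ∧ IsInj x (rho x) f) ∧
      ∀ y ∈ rho x, ¬ ∃ f, OD Set.univ f ∧ IsInj x y f :=
  leastBy_min (isOrdinal_succ hx)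
    ⟨x, mem_insert _ _, (DInj.of_subset (C := Set.univ) subset_rfl).exists_od hx⟩

theorem rho_ord {x : ZFSet.{u}} (hx : x.IsOrdinal) : (rho x).IsOrdinal :=
  (isOrdinal_succ hx).mem (rho_spec hx).1

theorem rho_subset {x : ZFSet.{u}} (hx : x.IsOrdinal) : rho x ⊆ x :=
  (mem_insert_iff.1 (rho_spec hx).1).elim (fun e => e.subset) hx.subset_of_mem

theorem hodCard_rho {x : ZFSet.{u}} (hx : x.IsOrdinal) : HODCard (rho x) := by
  obtain ⟨-, ⟨f, f0, f1⟩, h⟩ := rho_spec hx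
  exact hodCard_iff.2 ⟨rho_ord hx, fun b hb h1 =>
    h b hb (((dInj_of_od f0 f1).trans h1).exists_od hx)⟩

theorem exists_E {l : ZFSet.{u}} (hl : l.IsOrdinal) : ∃ E : ZFSet.{u} → ZFSet.{u} → ZFSet.{u},
    Tm Set.univ On (fun v => E (v 0) (v 1)) ∧ (∀ x ∈ l, ∀ y ∈ x, E x y ∈ rho x) ∧
      ∀ x ∈ l, ∀ y ∈ x, ∀ z ∈ x, E x y = E x z → y = z := by
  obtain ⟨F, f0, f1⟩ := od_choice (C := Set.univ) l (fun x f => IsInj x (rho x) f)
    fun x hx => (rho_spec (hl.mem hx)).2.1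
  have := Tm.one (C := Set.univ) (A := On) F
  exact ⟨fun x y => app (F x) y, inferInstance, fun x hx y hy => (f1 x hx trivial).1.app_mem' hy,
    fun x hx y hy z hz e => (f1 x hx trivial).2 y z _ ((f1 x hx trivial).1.app_mem hy)
      ((show app (F x) y = app (F x) z from e) ▸ (f1 x hx trivial).1.app_mem hz)⟩

/-- A definable relation with small fibres gives a definable one-to-one function. -/
theorem count {n a D : ZFSet.{u}} (hn : n.IsOrdinal) (ha : a.IsOrdinal) (hk : k.IsOrdinal)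
    (hka : k ⊆ a) (ha' : om ⊆ a) [Tm Set.univ On (fun _ => D)] (hD : DInj Set.univ D a)
    (R : ZFSet.{u} → ZFSet.{u} → Prop) [Df Set.univ On (fun v => R (v 0) (v 1))]
    (h1 : ∀ x ∈ n, ∃ z ∈ D, R x z) (h2 : ∀ z ∈ D, card (n.sep fun x => R x z) < card k) :
    DInj Set.univ n a := by
  obtain ⟨e, e0, e1, e2⟩ := hD
  have : Tm Set.univ On (fun _ => n) := Tm.ofOrd hn
  have := Tm.one (C := Set.univ) (A := On) e
  have := Df.two (C := Set.univ) (A := On) R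
  let c : ZFSet.{u} → ZFSet.{u} := fun x => leastBy D e fun z => R x z
  have c0 : Tm Set.univ On (fun v => c (v 0)) := Tm.leastBy D e fun x z => R x z
  have := Tm.one (C := Set.univ) (A := On) c
  have c1 : ∀ x ∈ n, c x ∈ D ∧ R x (c x) := fun x hx =>
    leastBy_spec (fun x hx => ha.mem (e1 x hx)) e2 (h1 x hx)
  refine DInj.trans ⟨fun x => pair (e (c x)) (colIn (n.sep fun y => R y (c x)) x), inferInstance,
    fun x hx => pair_mem_prod.2 ⟨e1 _ (c1 x hx).1, hka (mem_of_card_lt (colIn_ord _ _) hk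
      ((card_colIn_le _ _).trans_lt (h2 _ (c1 x hx).1)))⟩, fun x hx y hy h => ?_⟩
    (DInj.pairing ha ha')
  obtain ⟨h3, h4⟩ := pair_inj.1 h
  have h5 := e2 _ (c1 x hx).1 _ (c1 y hy).1 h3
  rw [← h5] at h4
  exact colIn_inj (fun z hz => hn.mem (mem_sep.1 hz).1) (mem_sep.2 ⟨hx, (c1 x hx).2⟩)
    (mem_sep.2 ⟨hy, h5 ▸ (c1 y hy).2⟩) h4

/-- A definable pairing function under which all infinite cardinals of HOD are closed. -/
theorem exists_P {l : ZFSet.{u}} (hl : l.IsOrdinal) : ∃ P : ZFSet.{u} → ZFSet.{u},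
    Tm Set.univ On (fun v => P (v 0)) ∧
      (∀ x ∈ prod l l, ∀ y ∈ prod l l, P x = P y → x = y) ∧
      ∀ a, HODCard a → a ⊆ l → om ⊆ a → ∀ x ∈ a, ∀ y ∈ a, P (pair x y) ∈ a := by
  have : Tm Set.univ On (fun _ => l) := Tm.ofOrd hl
  let f : ZFSet.{u} → Ordinal.{u} ×ₗ Ordinal.{u} ×ₗ Ordinal.{u} := fun z =>
    toLex (rank (fst z ∪ snd z), toLex (rank (fst z), rank (snd z)))
  have hD : ∀ z ∈ ZFSet.prod l l, fst z ∈ l ∧ snd z ∈ l ∧ z = pair (fst z) (snd z) := by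
    intro z hz
    obtain ⟨x, hx, y, hy, rfl⟩ := mem_prod.1 hz
    simp [hx, hy]
  have hc : Tm Set.univ On (fun v => col (ZFSet.prod l l) f (v 0)) :=
    Tm.col (fun _ => ZFSet.prod l l) (fun _ => f)
      (fun _ y x => fst y ∪ snd y ∈ fst x ∪ snd x ∨ fst y ∪ snd y = fst x ∪ snd x ∧
        (fst y ∈ fst x ∨ fst y = fst x ∧ snd y ∈ snd x)) fun _ _ x hx y hy => by
      have x1 := hl.mem (hD x hx).1
      have x2 := hl.mem (hD x hx).2.1
      have y1 := hl.mem (hD y hy).1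
      have y2 := hl.mem (hD y hy).2.1
      simp only [f, Prod.Lex.toLex_lt_toLex]
      rw [(isOrdinal_union y1 y2).rank_lt_iff_mem (isOrdinal_union x1 x2),
        (isOrdinal_union y1 y2).rank_inj (isOrdinal_union x1 x2), y1.rank_lt_iff_mem x1,
        y1.rank_inj x1, y2.rank_lt_iff_mem x2]
  have hinj : ∀ x ∈ ZFSet.prod l l, ∀ y ∈ ZFSet.prod l l,
      col (ZFSet.prod l l) f x = col (ZFSet.prod l l) f y → x = y := by
    intro x hx y hy e
    rw [col_eq_col hx hy] at e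
    simp only [f, toLex_inj, Prod.mk.injEq] at e
    rw [(hD x hx).2.2, (hD y hy).2.2,
      ((hl.mem (hD x hx).1).rank_inj (hl.mem (hD y hy).1)).1 e.2.1,
      ((hl.mem (hD x hx).2.1).rank_inj (hl.mem (hD y hy).2.1)).1 e.2.2]
  refine ⟨_, hc, hinj, fun a ha hal h z1 hz1 z2 hz2 => ?_⟩
  obtain ⟨ha, h1⟩ := hodCard_iff.1 ha
  have hinf := (om_subset_iff ha).1 h
  by_contra h2
  rw [(col_ord _).notMem_iff_subset ha] at h2
  have hm := union_mem ha hz1 hz2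
  obtain ⟨m, hm'⟩ : ∃ m, m = z1 ∪ z2 := ⟨_, rfl⟩
  rw [← hm'] at hm
  have hmo := ha.mem hm
  have hg := isOrdinal_succ hmo
  have hga : insert m m ⊆ l := fun x hx => by
    rcases mem_insert_iff.1 hx with rfl | hx
    exacts [hal hm, hal (ha.mem_trans hx hm)]
  have : Tm Set.univ On (fun _ => m) := Tm.ofOrd hmo
  have h3 : DInj Set.univ a (ZFSet.prod (insert m m) (insert m m)) := by
    have hs : ZFSet.prod (insert m m) (insert m m) ⊆ ZFSet.prod l l := fun w hw => by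
      obtain ⟨x, hx, y, hy, rfl⟩ := mem_prod.1 hw
      exact pair_mem_prod.2 ⟨hga hx, hga hy⟩
    refine DInj.inv _ (fun x hx y hy => hinj x (hs hx) y (hs hy)) fun y hy => ?_
    obtain ⟨-, w, hw, h3, rfl⟩ := mem_col.1 (h2 hy)
    refine ⟨w, ?_, rfl⟩
    obtain ⟨w1, w2, w3⟩ := hD w hw
    have h4 : fst w ∪ snd w ⊆ m := by
      rw [← (isOrdinal_union (hl.mem w1) (hl.mem w2)).rank_le_iff_subset hmo, hm']
      simp only [f, Prod.Lex.toLex_lt_toLex, fst_pair, snd_pair] at h3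
      exact h3.elim le_of_lt fun h => h.1.le
    have h5 : ∀ x : ZFSet.{u}, x.IsOrdinal → x ⊆ m → x ∈ insert m m := fun x hx h =>
      mem_insert_iff.2 (hx.eq_or_mem_of_subset hmo h)
    rw [w3]
    exact pair_mem_prod.2 ⟨h5 _ (hl.mem w1) fun x hx => h4 (mem_union.2 (Or.inl hx)),
      h5 _ (hl.mem w2) fun x hx => h4 (mem_union.2 (Or.inr hx))⟩
  by_cases h4 : om ⊆ m
  · have h5 := DInj.hotel (C := Set.univ) hmo h4
    exact h1 m hm ((h3.trans (h5.prod h5)).trans (DInj.pairing hmo h4))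
  · rw [om_subset_iff hmo, not_le] at h4
    have h5 : card (insert m m) < ℵ₀ := card_insert_le.trans_lt (add_lt_aleph0 h4 one_lt_aleph0)
    exact (hinf.trans (h3.card_le.trans (card_prod_le _ _))).not_gt (mul_lt_aleph0 h5 h5)

end Pool.Agent.MP_ecfd11_lc.H46

end

-- part MP_ecfd11_lc.H46.Clo
section

/-!
The closure of `m ∪ {x}` under a relation.
-/

set_option synthInstance.maxSize 4000

namespace Pool.Agent.MP_ecfd11_lc.H46

universe u

open ZFSet Function Classical Cardinal H20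

/-- `Z` is closed under `Op` inside `l`. -/
def Closed (l : ZFSet.{u}) (Op : ZFSet.{u} → ZFSet.{u} → ZFSet.{u} → Prop) (Z : ZFSet.{u}) :
    Prop := ∀ y, y ∈ l → ∀ a, a ∈ Z → ∀ b, b ∈ Z → Op y a b → y ∈ Z

/-- The closure of `m ∪ {x}`. -/
noncomputable def cl (l : ZFSet.{u}) (Op : ZFSet.{u} → ZFSet.{u} → ZFSet.{u} → Prop)
    (x m : ZFSet.{u}) : ZFSet.{u} :=
  l.sep fun y => ∀ Z, m ⊆ Z → x ∈ Z → Closed l Op Z → y ∈ Z

variable {l : ZFSet.{u}} {Op : ZFSet.{u} → ZFSet.{u} → ZFSet.{u} → Prop} {x y m : ZFSet.{u}}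

theorem tm_cl (hl : l.IsOrdinal) [Df Set.univ On (fun v => Op (v 0) (v 1) (v 2))]
    (s t : (ℕ → ZFSet.{u}) → ZFSet.{u}) [Tm Set.univ On s] [Tm Set.univ On t] :
    Tm Set.univ On (fun v => cl l Op (s v) (t v)) := by
  have : Tm Set.univ On (fun _ => l) := Tm.ofOrd hl
  have := Df.three' (C := Set.univ) Op
  unfold cl Closed
  infer_instance

theorem cl_subset : cl l Op x m ⊆ l := sep_subset

theorem self_mem_cl (hx : x ∈ l) : x ∈ cl l Op x m := mem_sep.2 ⟨hx, fun _ _ h _ => h⟩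

theorem subset_cl (hm : m ⊆ l) : m ⊆ cl l Op x m :=
  fun _ hy => mem_sep.2 ⟨hm hy, fun _ h _ _ => h hy⟩

theorem closed_cl : Closed l Op (cl l Op x m) := fun y hy a ha b hb h =>
  mem_sep.2 ⟨hy, fun Z h1 h2 h3 => h3 y hy a ((mem_sep.1 ha).2 Z h1 h2 h3) b
    ((mem_sep.1 hb).2 Z h1 h2 h3) h⟩

theorem cl_least {Z : ZFSet.{u}} (h1 : m ⊆ Z) (h2 : x ∈ Z) (h3 : Closed l Op Z) :
    cl l Op x m ⊆ Z := fun _ hy => (mem_sep.1 hy).2 Z h1 h2 h3

theorem cl_mono {m' : ZFSet.{u}} (hm : m ⊆ l) (hy : y ∈ cl l Op x m) (h : m' ⊆ m) :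
    cl l Op y m' ⊆ cl l Op x m :=
  cl_least (h.trans (subset_cl hm)) hy closed_cl

theorem cl_cont {X d : ZFSet.{u}} (hd : d.IsOrdinal) (hdl : d ⊆ l) (hx : x ∈ l)
    (h0 : ∃ b, b ∈ d) (h1 : ∀ b ∈ d, ∃ j ∈ X, b ∈ j ∧ j ∈ d) (hy : y ∈ cl l Op x d) :
    ∃ j ∈ X, j ∈ d ∧ y ∈ cl l Op x j := by
  have h2 : ∀ j ∈ d, j ⊆ l := fun j hj => (hd.subset_of_mem hj).trans hdl
  refine (mem_sep.1 (cl_least (Z := l.sep fun y => ∃ j ∈ X, j ∈ d ∧ y ∈ cl l Op x j)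
    (fun b hb => ?_) ?_ (fun z hz a ha b hb h => ?_) hy)).2
  · obtain ⟨j, j1, j2, j3⟩ := h1 b hb
    exact mem_sep.2 ⟨hdl hb, j, j1, j3, subset_cl (h2 j j3) j2⟩
  · obtain ⟨b, hb⟩ := h0
    obtain ⟨j, j1, -, j3⟩ := h1 b hb
    exact mem_sep.2 ⟨hx, j, j1, j3, self_mem_cl hx⟩
  · obtain ⟨-, i, i1, i2, i3⟩ := mem_sep.1 ha
    obtain ⟨-, j, j1, j2, j3⟩ := mem_sep.1 hb
    rcases (hd.mem i2).subset_total (hd.mem j2) with h3 | h3
    · exact mem_sep.2 ⟨hz, j, j1, j2,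
        closed_cl z hz a (cl_mono (h2 j j2) (self_mem_cl hx) h3 i3) b j3 h⟩
    · exact mem_sep.2 ⟨hz, i, i1, i2,
        closed_cl z hz a i3 b (cl_mono (h2 i i2) (self_mem_cl hx) h3 j3) h⟩

theorem card_cl (h : ∀ a b, card (l.sep fun y => Op y a b) ≤ ℵ₀) :
    card (cl l Op x m) ≤ card m + ℵ₀ := by
  have hc : ℵ₀ ≤ card m + ℵ₀ := le_add_self
  let Z : ℕ → ZFSet.{u} := fun n => Nat.rec (insert x m)
    (fun _ z => z ∪ ⋃₀ img (fun p => l.sep fun y => Op y (fst p) (snd p)) (prod z z)) n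
  have z1 : ∀ n, Z (n + 1) =
      Z n ∪ ⋃₀ img (fun p => l.sep fun y => Op y (fst p) (snd p)) (prod (Z n) (Z n)) :=
    fun _ => rfl
  have z2 : ∀ n, card (Z n) ≤ card m + ℵ₀ := fun n => by
    induction n with
    | zero => exact card_insert_le.trans (add_le_add le_rfl one_le_aleph0)
    | succ n ih =>
      rw [z1]
      refine card_union_le.trans ((add_le_add ih ((card_sUnion_img_le fun _ _ => h _ _).trans
        ((mul_le_mul' ((card_prod_le _ _).trans ((mul_le_mul' ih ih).trans (mul_eq_self hc).le))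
          hc).trans (mul_eq_self hc).le))).trans (add_eq_self hc).le)
  have z3 : ∀ n n', n ≤ n' → Z n ⊆ Z n' := fun n n' hn => by
    induction hn with
    | refl => exact subset_rfl
    | step _ ih => exact ih.trans fun y hy => by rw [z1]; exact mem_union.2 (Or.inl hy)
  let F : ZFSet.{u} → ZFSet.{u} := fun i => if h : ∃ n, nat n = i then Z h.choose else ∅
  have f1 : ∀ n, F (nat n) = Z n := fun n => by
    have h : ∃ n', nat.{u} n' = nat n := ⟨n, rfl⟩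
    simp only [F, dif_pos h, nat_inj.1 h.choose_spec]
  have f2 : ∀ y, y ∈ (⋃₀ img F om : ZFSet.{u}) ↔ ∃ n, y ∈ Z n := fun y => by
    constructor
    · intro hy
      obtain ⟨_, h1, h2⟩ := mem_sUnion.1 hy
      obtain ⟨i, hi, rfl⟩ := mem_img.1 h1
      obtain ⟨o, ho, rfl⟩ := Ordinal.mem_toZFSet_iff.1 hi
      obtain ⟨n, rfl⟩ := Ordinal.lt_omega0.1 ho
      exact ⟨n, f1 n ▸ h2⟩
    · rintro ⟨n, hn⟩
      exact mem_sUnion.2 ⟨_, mem_img.2 ⟨nat n,
        Ordinal.toZFSet_mem_toZFSet_iff.2 (Ordinal.natCast_lt_omega0 n), f1 n⟩, hn⟩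
  refine (card_mono (cl_least (Z := ⋃₀ img F om)
    (fun y hy => (f2 y).2 ⟨0, mem_insert_of_mem _ hy⟩) ((f2 x).2 ⟨0, mem_insert _ _⟩)
    fun y hy a ha b hb h1 => ?_)).trans ((card_sUnion_img_le (k := card m + ℵ₀) fun i _ => ?_).trans
      ((mul_le_mul' (card_om.le.trans hc) le_rfl).trans (mul_eq_self hc).le))
  · obtain ⟨n, hn⟩ := (f2 a).1 ha
    obtain ⟨n', hn'⟩ := (f2 b).1 hb
    refine (f2 y).2 ⟨max n n' + 1, ?_⟩
    rw [z1]
    exact mem_union.2 (Or.inr (mem_sUnion.2 ⟨_, mem_img.2 ⟨pair a b, pair_mem_prod.2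
      ⟨z3 _ _ (le_max_left _ _) hn, z3 _ _ (le_max_right _ _) hn'⟩, rfl⟩,
      mem_sep.2 ⟨hy, by rwa [fst_pair, snd_pair]⟩⟩))
  · simp only [F]
    split_ifs
    exacts [z2 _, by rw [card_empty]; exact zero_le]

/-- A definable system of small closed sets. -/
structure Sys (l : ZFSet.{u}) (E K : ZFSet.{u} → ZFSet.{u} → ZFSet.{u})
    (P : ZFSet.{u} → ZFSet.{u}) : Prop where
  tmE : Tm Set.univ On (fun v => E (v 0) (v 1))
  tmK : Tm Set.univ On (fun v => K (v 0) (v 1))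
  memE : ∀ x ∈ l, ∀ y ∈ x, E x y ∈ rho x
  injE : ∀ x ∈ l, ∀ y ∈ x, ∀ z ∈ x, E x y = E x z → y = z
  memP : ∀ a, HODCard a → a ⊆ l → om ⊆ a → ∀ x ∈ a, ∀ y ∈ a, P (pair x y) ∈ a
  self : ∀ x ∈ l, ∀ m, x ∈ K x m
  base : ∀ x m, m ⊆ l → m ⊆ K x m
  mono : ∀ x m y m', m ⊆ l → y ∈ K x m → m' ⊆ m → K y m' ⊆ K x m
  cont : ∀ X d x y : ZFSet.{u}, d.IsOrdinal → d ⊆ l → x ∈ l → (∃ b, b ∈ d) →
    (∀ b ∈ d, ∃ j ∈ X, b ∈ j ∧ j ∈ d) → y ∈ K x d → ∃ j ∈ X, j ∈ d ∧ y ∈ K x j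
  size : ∀ x m, card (K x m) ≤ card m + ℵ₀
  inv : ∀ x m, ∀ a ∈ K x m, a ∈ l → ∀ y ∈ a, E a y ∈ K x m → y ∈ K x m
  dec : ∀ x m, ∀ a ∈ l, ∀ b ∈ l, P (pair a b) ∈ K x m → a ∈ K x m ∧ b ∈ K x m

theorem exists_sys (hl : l.IsOrdinal) : ∃ E K P, Sys l E K P := by
  obtain ⟨E, e0, e1, e2⟩ := exists_E hl
  obtain ⟨P, p0, p1, p2⟩ := exists_P hl
  have : Tm Set.univ On (fun _ => l) := Tm.ofOrd hl
  have := Tm.two (C := Set.univ) (A := On) E
  have := Tm.one (C := Set.univ) (A := On) P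
  let Op : ZFSet.{u} → ZFSet.{u} → ZFSet.{u} → Prop := fun y a w =>
    (a ∈ l ∧ y ∈ a ∧ E a y = w) ∨ (∃ b, b ∈ l ∧ P (pair y b) = w) ∨ ∃ b, b ∈ l ∧ P (pair b y) = w
  have : Df Set.univ On (fun v => Op (v 0) (v 1) (v 2)) := by simp only [Op]; infer_instance
  have h1 : ∀ (p : ZFSet.{u} → Prop), (∀ y ∈ l, ∀ z ∈ l, p y → p z → y = z) →
      card (l.sep p) ≤ ℵ₀ := fun p hp =>
    (card_le_of_inj (b := om) (fun _ => ∅) (fun _ _ => empty_mem_om) fun y hy z hz _ =>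
      hp y (mem_sep.1 hy).1 z (mem_sep.1 hz).1 (mem_sep.1 hy).2 (mem_sep.1 hz).2).trans card_om.le
  refine ⟨E, cl l Op, P, e0, tm_cl hl _ _, e1, e2, p2, fun x hx m => self_mem_cl hx,
    fun x m => subset_cl, fun x m y m' => cl_mono, fun X d x y => cl_cont,
    fun x m => card_cl fun a w => ?_,
    fun x m a ha hal y hy h => closed_cl y (hl.mem_trans hy hal) a ha _ h (Or.inl ⟨hal, hy, rfl⟩),
    fun x m a ha b hb h => ⟨closed_cl a ha _ h _ h (Or.inr (Or.inl ⟨b, hb, rfl⟩)),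
      closed_cl b hb _ h _ h (Or.inr (Or.inr ⟨a, ha, rfl⟩))⟩⟩
  refine (card_mono (y := (l.sep fun y => a ∈ l ∧ y ∈ a ∧ E a y = w) ∪
    ((l.sep fun y => ∃ b, b ∈ l ∧ P (pair y b) = w) ∪
      l.sep fun y => ∃ b, b ∈ l ∧ P (pair b y) = w)) fun y hy => ?_).trans
    (card_union_le.trans ((add_le_add (h1 _ ?_) (card_union_le.trans
      ((add_le_add (h1 _ ?_) (h1 _ ?_)).trans aleph0_add_aleph0.le))).trans aleph0_add_aleph0.le))
  · obtain ⟨h2, h3⟩ := mem_sep.1 hy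
    simp only [mem_union, mem_sep, h2, true_and]
    exact h3
  · rintro y - z - ⟨h2, h3, h4⟩ ⟨-, h5, h6⟩
    exact e2 a h2 y h3 z h5 (h4.trans h6.symm)
  · rintro y hy z hz ⟨b, h2, h3⟩ ⟨c, h4, h5⟩
    exact (pair_inj.1 (p1 _ (pair_mem_prod.2 ⟨hy, h2⟩) _ (pair_mem_prod.2 ⟨hz, h4⟩)
      (h3.trans h5.symm))).1
  · rintro y hy z hz ⟨b, h2, h3⟩ ⟨c, h4, h5⟩
    exact (pair_inj.1 (p1 _ (pair_mem_prod.2 ⟨h2, hy⟩) _ (pair_mem_prod.2 ⟨h4, hz⟩)
      (h3.trans h5.symm))).2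

end Pool.Agent.MP_ecfd11_lc.H46

end

-- part MP_ecfd11_lc.H46.Gen
section

/-!
The first cardinals of HOD above a singular cardinal `k` are generated by few points over `k`.
-/

set_option synthInstance.maxSize 4000

namespace Pool.Agent.MP_ecfd11_lc.H46

universe u

open ZFSet Function Classical Cardinal H20

variable {g k n : ZFSet.{u}} {E K : ZFSet.{u} → ZFSet.{u} → ZFSet.{u}} {P : ZFSet.{u} → ZFSet.{u}}

theorem Sg.inf (hs : Sg g k) : ℵ₀ < card k := hs.cnt.trans (hs.crd g hs.mem)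

theorem Sg.om_subset (hs : Sg g k) : om ⊆ k := hs.unc.1.subset_of_mem hs.unc.omega_mem

theorem Sg.mem_succ (hs : Sg g k) : k ∈ succCard k := mem_succCard.2 ⟨hs.unc.1, le_rfl⟩

theorem Sg.sub_succ (hs : Sg g k) : k ⊆ succCard k := (succCard_ord k).subset_of_mem hs.mem_succ

theorem Sg.small (hs : Sg g k) {a : Cardinal.{u}} (ha : a < card k) {m : ZFSet.{u}} (hm : m ∈ k) :
    a * (card m + ℵ₀) < card k :=
  mul_lt_of_lt hs.inf.le ha (add_lt_of_lt hs.inf.le (hs.crd m hm) hs.inf)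

/-- `n` is generated over `k` by at most `g` points. -/
def Gen (g k : ZFSet.{u}) (K : ZFSet.{u} → ZFSet.{u} → ZFSet.{u}) (n : ZFSet.{u}) : Prop :=
  ∃ a, a ⊆ n ∧ card a ≤ card g ∧ ∀ y ∈ n, ∃ x ∈ a, ∃ m ∈ k, y ∈ K x m

theorem gen_base (hs : Sg g k) (hy : Sys (succCard k) E K P) : Gen g k K k :=
  ⟨{∅}, fun x hx => by rw [mem_singleton.1 hx]; exact hs.unc.empty_mem,
    by rw [card_singleton]; exact (one_lt_aleph0.trans hs.cnt).le, fun y hy' =>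
      ⟨∅, mem_singleton.2 rfl, _, hs.unc.succ_mem hy', hy.base _ _
        ((hs.unc.1.subset_of_mem (hs.unc.succ_mem hy')).trans hs.sub_succ) (mem_insert _ _)⟩⟩

/-- The cofinality of the next cardinal of HOD is small. -/
theorem cof_small (hs : Sg g k) (hy : Sys (succCard k) E K P) {U : ZFSet.{u}}
    (hU : Gen g k K U) (hkU : k ⊆ U) (hUn : U ∈ n) (hn : HODCard n) (hnl : n ∈ succCard k)
    (hr : ∀ x ∈ n, rho x ⊆ U) :
    ∃ c, c ⊆ n ∧ card c ≤ card g ∧ ∀ y ∈ n, ∃ x ∈ c, y ⊆ x := by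
  by_contra h
  obtain ⟨hno, hn'⟩ := hodCard_iff.1 hn
  have hl := succCard_ord k
  have hk := hs.unc
  have hUo := hno.mem hUn
  have h1 : ∀ y, y ⊆ n → card y < Order.succ (card g) → ∃ c ∈ n, ∀ z ∈ y, z ∈ c :=
    fun y y1 y2 => by
      by_contra h1
      refine h ⟨y, y1, Order.lt_succ_iff.1 y2, fun b hb => ?_⟩
      by_contra h2
      refine h1 ⟨b, hb, fun z hz => ?_⟩
      by_contra h3
      exact h2 ⟨z, hz, ((hno.mem (y1 hz)).notMem_iff_subset (hno.mem hb)).1 h3⟩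
  have hu : Unc n := ⟨hno, fun y y1 y2 => h1 y y1
    (Order.lt_succ_iff.2 (y2.trans (card_om.le.trans hs.cnt.le)))⟩
  obtain ⟨X, x1, x2, x3, -⟩ := hs.cof
  obtain ⟨s, hs'⟩ := exists_surj_of_card_le (mem_succCard.1 hnl).2
  have h2 : ∃ j ∈ X, ∀ b ∈ n, ∃ z ∈ img s j ∩ n, b ∈ z := by
    by_contra h2
    push Not at h2
    choose! B b1 b2 using h2
    obtain ⟨c, c1, c2⟩ := h1 (img B X)
      (fun z hz => by obtain ⟨j, hj, rfl⟩ := mem_img.1 hz; exact b1 j hj)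
      (Order.lt_succ_iff.2 ((card_img_le _ _).trans x2))
    obtain ⟨i, hi, rfl⟩ := hs' c c1
    obtain ⟨j, hj, h3⟩ := x3 i hi
    exact b2 j hj _ (mem_inter.2 ⟨mem_img.2 ⟨i, h3, rfl⟩, c1⟩) (c2 _ (mem_img.2 ⟨j, hj, rfl⟩))
  obtain ⟨j0, hj0, h2⟩ := h2
  have h3 : img s j0 ∩ n ⊆ n := fun z hz => (mem_inter.1 hz).2
  have hL := hu.club_lim h3 h2
  have hL' : card (lim n (img s j0 ∩ n)) < card k :=
    ((card_lim_le hno h3 h2).trans ((card_mono fun z hz => (mem_inter.1 hz).1).trans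
      (card_img_le _ _))).trans_lt (hs.crd _ (x1 hj0))
  obtain ⟨a, a1, a2, a3⟩ := hU
  have hX : card a ≤ card X := a2.trans (not_lt.1 fun h4 => by
    obtain ⟨c, c1, c2⟩ := hs.bdd X x1 h4
    obtain ⟨x, hx, h5⟩ := x3 c c1
    exact mem_asymm h5 (c2 x hx))
  obtain ⟨A, hA⟩ := exists_surj_of_card_le hX
  have hX' : ∀ e ∈ n, card (X ∩ e) < Order.succ (card g) := fun e _ =>
    Order.lt_succ_iff.2 ((card_mono fun z hz => (mem_inter.1 hz).1).trans x2)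
  have : Tm Set.univ On (fun _ => n) := Tm.ofOrd hno
  have : Tm Set.univ On (fun _ => U) := Tm.ofOrd hUo
  have : Tm Set.univ On (fun _ => k) := Tm.ofOrd hk.1
  have := hy.tmE
  have := hy.tmK
  have := Tm.two (C := Set.univ) (A := On) E
  have := Tm.two (C := Set.univ) (A := On) K
  refine hn' U hUn (count hno hUo hk.1 hkU (hs.om_subset.trans hkU) (D := prod U k)
    (((DInj.of_subset subset_rfl).prod (DInj.of_subset hkU)).trans
      (DInj.pairing hUo (hs.om_subset.trans hkU)))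
    (fun x z => ¬ Null n (n.sep fun e => x ∈ e ∧ E e x ∈ K (fst z) (snd z)))
    (fun x hx => ?_) fun z hz => ?_)
  · have h4 : ¬ Null n (n.sep fun e => x ∈ e ∧ U ∈ e) := fun h4 => by
      obtain ⟨c, c1, c2⟩ := hu.null_union h4
        (hu.null_union (null_below hu hx) (null_below hu hUn))
      obtain ⟨y, y1, -⟩ := c1.2.1 x hx
      refine c2 y ?_ y1
      simp only [mem_union, mem_sep, c1.1 y1, true_and]
      tauto
    have h5 : ∀ e ∈ n, U ∈ e → ∀ i ∈ X, i ∈ e := fun e he h i hi =>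
      (hno.mem he).mem_trans (hkU (x1 hi)) h
    obtain ⟨i, hi, h6⟩ := press hu h1 hX' h4
      (fun i e => A i ∈ U ∧ ∃ m ∈ k, E e x ∈ K (A i) m) fun e he _ => by
        obtain ⟨e1, e2, e3⟩ := mem_sep.1 he
        obtain ⟨w, hw, h6⟩ := a3 _ (hr e e1 (hy.memE e (hl.mem_trans e1 hnl) x e2))
        obtain ⟨i, hi, rfl⟩ := hA w hw
        exact ⟨i, hi, h5 e e1 e3 i hi, a1 hw, h6⟩
    obtain ⟨j, hj, h7⟩ := press hu h1 hX' h6 (fun j e => E e x ∈ K (A i) j) fun e he _ => by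
      obtain ⟨e0, e4, m, hm, e5⟩ := mem_sep.1 he
      obtain ⟨e1, e2, e3⟩ := mem_sep.1 e0
      obtain ⟨j, hj, h7⟩ := x3 m hm
      exact ⟨j, hj, h5 e e1 e3 j hj, hy.mono _ _ _ _
        ((hk.1.subset_of_mem (x1 hj)).trans hs.sub_succ)
        (hy.self _ (hl.mem_trans (hno.mem_trans e4 hUn) hnl) _)
        ((hk.1.mem (x1 hj)).subset_of_mem h7) e5⟩
    obtain ⟨e, he, -⟩ := exists_of_not_null hu h6 hu.null_empty
    refine ⟨pair (A i) j, pair_mem_prod.2 ⟨(mem_sep.1 he).2.1, x1 hj⟩, fun h8 => h7 (h8.mono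
      fun e he he' => mem_sep.2 ⟨he', (mem_sep.1 (mem_sep.1 (mem_sep.1 he).1).1).2.1, ?_⟩)⟩
    rw [fst_pair, snd_pair]
    exact (mem_sep.1 he).2
  · obtain ⟨w, -, m, hm, rfl⟩ := mem_prod.1 hz
    simp only [fst_pair, snd_pair]
    have h4 : ∀ x ∈ n.sep fun x => ¬ Null n (n.sep fun e => x ∈ e ∧ E e x ∈ K w m),
        ∃ e ∈ lim n (img s j0 ∩ n), x ∈ e ∧ E e x ∈ K w m := fun x hx => by
      obtain ⟨e, e1, e2, e3⟩ := exists_of_not_null hu (mem_sep.1 hx).2 (null_compl hL)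
      exact ⟨e, not_not.1 fun h => e3 (mem_sep.2 ⟨e2, h⟩), (mem_sep.1 e1).2⟩
    choose! T t1 t2 t3 using h4
    refine (card_le_of_inj (b := prod (lim n (img s j0 ∩ n)) (K w m))
      (fun x => pair (T x) (E (T x) x)) (fun x hx => pair_mem_prod.2 ⟨t1 x hx, t3 x hx⟩)
      fun x hx y hy' e => ?_).trans_lt (((card_prod_le _ _).trans
        (mul_le_mul' le_rfl (hy.size _ _))).trans_lt (hs.small hL' hm))
    obtain ⟨e1, e2⟩ := pair_inj.1 e
    rw [← e1] at e2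
    exact hy.injE _ (hl.mem_trans (hL.1 (t1 x hx)) hnl) x (t2 x hx) y (e1 ▸ t2 y hy') e2

theorem gen_next (hs : Sg g k) (hy : Sys (succCard k) E K P) {U : ZFSet.{u}}
    (hU : Gen g k K U) (hkU : k ⊆ U) (hUn : U ∈ n) (hn : HODCard n) (hnl : n ∈ succCard k)
    (hr : ∀ x ∈ n, rho x ⊆ U) : Gen g k K n := by
  obtain ⟨c, c1, c2, c3⟩ := cof_small hs hy hU hkU hUn hn hnl hr
  obtain ⟨a, a1, a2, a3⟩ := hU
  have hl := succCard_ord k
  have hno := hn.1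
  have hnl' := hl.subset_of_mem hnl
  have hUn' := hno.subset_of_mem hUn
  have hP := hy.memP n hn hnl' (hs.om_subset.trans (hkU.trans hUn'))
  have h0 : ∀ y ∈ n, insert y y ∈ n := fun y hy' => by
    refine ((isOrdinal_succ (hno.mem hy')).eq_or_mem_of_subset hno fun z hz => ?_).resolve_left
      fun e => ?_
    · rcases mem_insert_iff.1 hz with rfl | hz
      exacts [hy', hno.mem_trans hz hy']
    · refine (hodCard_iff.1 hn).2 y hy' (e ▸ DInj.hotel (hno.mem hy') ?_)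
      have h1 : U ∈ insert y y := e ▸ hUn
      exact (hs.om_subset.trans hkU).trans ((mem_insert_iff.1 h1).elim (fun e => e.subset)
        (hno.mem hy').subset_of_mem)
  refine ⟨img P (prod c a), fun z hz => ?_, (card_img_le _ _).trans ((card_prod_le _ _).trans
    ((mul_le_mul' c2 a2).trans (mul_eq_self hs.cnt.le).le)), fun y hy' => ?_⟩
  · obtain ⟨_, h1, rfl⟩ := mem_img.1 hz
    obtain ⟨x, hx, w, hw, rfl⟩ := mem_prod.1 h1
    exact hP x (c1 hx) w (hUn' (a1 hw))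
  · obtain ⟨x, hx, h1⟩ := c3 _ (h0 y hy')
    have h2 := h1 (mem_insert y y)
    obtain ⟨w, hw, m, hm, h3⟩ := a3 _ (hr x (c1 hx) (hy.memE x (hnl' (c1 hx)) y h2))
    have h4 := hy.dec _ m x (hnl' (c1 hx)) w (hnl' (hUn' (a1 hw)))
      (hy.self _ (hnl' (hP x (c1 hx) w (hUn' (a1 hw)))) m)
    exact ⟨_, mem_img.2 ⟨_, pair_mem_prod.2 ⟨hx, hw⟩, rfl⟩, m, hm,
      hy.inv _ _ x h4.1 (hnl' (c1 hx)) y h2 (hy.mono _ _ _ _
        ((hs.unc.1.subset_of_mem hm).trans hs.sub_succ) h4.2 subset_rfl h3)⟩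

theorem gen_of_few (hs : Sg g k) (hy : Sys (succCard k) E K P) (hn : Between k n)
    (h : card (n.sep fun t => Between k t) ≤ card g) : Gen g k K n := by
  induction n using ZFSet.inductionOn with
  | _ n ih =>
  obtain ⟨hkn, hnl, hn⟩ := hn
  have hno := hn.1
  have hk := hs.unc.1
  have h1 : ∀ t ∈ insert k (n.sep fun t => Between k t), t ∈ n ∧ Gen g k K t := fun t ht => by
    rcases mem_insert_iff.1 ht with rfl | ht
    · exact ⟨hkn, gen_base hs hy⟩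
    · obtain ⟨t1, t2⟩ := mem_sep.1 ht
      exact ⟨t1, ih t t1 t2 ((card_mono fun z hz =>
        mem_sep.2 ⟨hno.mem_trans (mem_sep.1 hz).1 t1, (mem_sep.1 hz).2⟩).trans h)⟩
  obtain ⟨U, hU⟩ : ∃ U : ZFSet.{u}, U = ⋃₀ insert k (n.sep fun t => Between k t) := ⟨_, rfl⟩
  have h2 : ∀ t ∈ insert k (n.sep fun t => Between k t), t ⊆ U := fun t ht z hz =>
    hU ▸ mem_sUnion.2 ⟨t, ht, hz⟩
  have hUo : U.IsOrdinal := hU ▸ isOrdinal_sUnion fun t ht => hno.mem (h1 t ht).1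
  have hUn : U ⊆ n := fun z hz => by
    obtain ⟨t, ht, hz⟩ := mem_sUnion.1 (hU ▸ hz)
    exact hno.mem_trans hz (h1 t ht).1
  have h3 : Gen g k K U := by
    choose! A a1 a2 a3 using fun t ht => (h1 t ht).2
    refine ⟨⋃₀ img A (insert k (n.sep fun t => Between k t)), fun z hz => ?_,
      (card_sUnion_img_le a2).trans ((mul_le_mul' (card_insert_le.trans ((add_le_add h
        (one_lt_aleph0.trans hs.cnt).le).trans (add_eq_self hs.cnt.le).le)) le_rfl).trans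
          (mul_eq_self hs.cnt.le).le), fun y hy' => ?_⟩
    · obtain ⟨_, h3, hz⟩ := mem_sUnion.1 hz
      obtain ⟨t, ht, rfl⟩ := mem_img.1 h3
      exact h2 t ht (a1 t ht hz)
    · obtain ⟨t, ht, h3⟩ := mem_sUnion.1 (hU ▸ hy')
      obtain ⟨x, hx, h4⟩ := a3 t ht y h3
      exact ⟨x, mem_sUnion.2 ⟨_, mem_img.2 ⟨t, ht, rfl⟩, hx⟩, h4⟩
  rcases hUo.eq_or_mem_of_subset hno hUn with e | e
  · exact e ▸ h3
  refine gen_next hs hy h3 (h2 k (mem_insert _ _)) e hn hnl fun x hx => ?_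
  have hxo := hno.mem hx
  have h4 := (rho_ord hxo).mem_of_subset_of_mem hno (rho_subset hxo) hx
  rcases hk.mem_or_subset (rho_ord hxo) with h5 | h5
  · exact h2 _ (mem_insert_of_mem _ (mem_sep.2
      ⟨h4, h5, (succCard_ord k).mem_trans h4 hnl, hodCard_rho hxo⟩))
  · exact h5.trans (h2 k (mem_insert _ _))

end Pool.Agent.MP_ecfd11_lc.H46

end

-- part MP_ecfd11_lc.H46.Main
section

/-!
The canonical filtration of a generated ordinal and the reflection of cardinals of HOD.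
-/

set_option synthInstance.maxSize 4000

namespace Pool.Agent.MP_ecfd11_lc.H46

universe u

open ZFSet Function Classical Cardinal H20

variable {g k n n' : ZFSet.{u}} {E K : ZFSet.{u} → ZFSet.{u} → ZFSet.{u}}
  {P : ZFSet.{u} → ZFSet.{u}}

/-- `s` bounds the system below `n` almost everywhere. -/
def Ub (k : ZFSet.{u}) (K : ZFSet.{u} → ZFSet.{u} → ZFSet.{u}) (n s : ZFSet.{u}) : Prop :=
  ∀ x, x ∈ n → Null k (k.sep fun d => ¬ K x d ∩ n ⊆ app s d)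

/-- `s` is a least bound. -/
def Lub (k : ZFSet.{u}) (K : ZFSet.{u} → ZFSet.{u} → ZFSet.{u}) (n s : ZFSet.{u}) : Prop :=
  Ub k K n s ∧ ∀ t, Ub k K n t → Null k (k.sep fun d => ¬ app s d ⊆ app t d)

theorem Lub.unique (hk : Unc k) {s t : ZFSet.{u}} (h1 : Lub k K n s) (h2 : Lub k K n t) :
    Null k (k.sep fun d => app s d ≠ app t d) :=
  (hk.null_union (h1.2 t h2.1) (h2.2 s h1.1)).mono fun d hd hd' => by
    simp only [mem_union, mem_sep, hd', true_and]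
    by_contra h
    push Not at h
    exact (mem_sep.1 hd).2 (subset_antisymm h.1 h.2)

/-- The order type of a set of ordinals. -/
noncomputable def ot (b : ZFSet.{u}) : ZFSet.{u} := img (fun x => colIn b x) b

/-- A canonical filtration. -/
structure Filt (k : ZFSet.{u}) (K : ZFSet.{u} → ZFSet.{u} → ZFSet.{u}) (n s : ZFSet.{u}) :
    Prop where
  sub : ∀ d, app s d ⊆ n
  lub : Lub k K n s
  size : ∀ d ∈ k, card (app s d) ≤ card d + ℵ₀
  cap : ∀ (S : ZFSet.{u}) (Y : ZFSet.{u} → ZFSet.{u}), ¬ Null k S →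
    (∀ d ∈ S, d ∈ k → Y d ∈ app s d) → ∃ w ∈ n, ∃ m ∈ k, ¬ Null k (S.sep fun d => Y d ∈ K w m)

theorem app_eq_empty {s d : ZFSet.{u}} (h : ∀ y, pair d y ∉ s) : app s d = ∅ := by
  have : ((img snd s).sep fun y => pair d y ∈ s) = ∅ := by
    ext z; simp [h z]
  rw [app, this, sUnion_empty]

theorem exists_filt (hs : Sg g k) (hy : Sys (succCard k) E K P) (hnl : n ⊆ succCard k)
    (h : Gen g k K n) : ∃ s, Filt k K n s := by
  obtain ⟨a, a1, a2, a3⟩ := h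
  obtain ⟨X, x1, x2, x3, x4⟩ := hs.cof
  have hk := hs.unc
  have hX : card a ≤ card X := a2.trans (not_lt.1 fun h4 => by
    obtain ⟨c, c1, c2⟩ := hs.bdd X x1 h4
    obtain ⟨x, hx, h5⟩ := x3 c c1
    exact mem_asymm h5 (c2 x hx))
  obtain ⟨A, hA⟩ := exists_surj_of_card_le hX
  have hkl : ∀ d ∈ k, d ⊆ succCard k := fun d hd => (hk.1.subset_of_mem hd).trans hs.sub_succ
  let F : ZFSet.{u} → ZFSet.{u} := fun d =>
    n.sep fun y => ∃ i ∈ X, i ∈ d ∧ A i ∈ n ∧ y ∈ K (A i) d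
  have f1 : ∀ d ∈ k, ∀ y, y ∈ app (gr F k) d ↔
      y ∈ n ∧ ∃ i ∈ X, i ∈ d ∧ A i ∈ n ∧ y ∈ K (A i) d := fun d hd y => by
    rw [app_gr hd, mem_sep]
  refine ⟨gr F k, fun d y hy' => ?_, ⟨fun x hx => ?_, fun t ht => ?_⟩, fun d hd => ?_,
    fun S Y hS hY => ?_⟩
  · by_cases hd : d ∈ k
    · exact ((f1 d hd y).1 hy').1
    · rw [app_eq_empty fun z hz => hd (pair_mem_gr.1 hz).1] at hy'
      exact absurd hy' (notMem_empty y)
  · obtain ⟨w, hw, m, hm, h1⟩ := a3 x hx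
    obtain ⟨i, hi, rfl⟩ := hA w hw
    refine (hk.null_union (null_below hk (x1 hi)) (null_below hk hm)).mono fun d hd hd' => ?_
    simp only [mem_union, mem_sep, hd', true_and]
    by_contra h2
    push Not at h2
    refine (mem_sep.1 hd).2 fun y hy' => (f1 d hd' y).2
      ⟨(mem_inter.1 hy').2, i, hi, h2.1, a1 hw, ?_⟩
    exact hy.mono _ _ _ _ (hkl d hd') (hy.mono _ _ _ _ (hkl d hd') (hy.self _ (hnl (a1 hw)) _)
      ((hk.1.mem hd').subset_of_mem h2.2) h1) subset_rfl (mem_inter.1 hy').1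
  · refine (null_diag hk hs.bdd x4 (fun i d => A i ∈ n ∧ ¬ K (A i) d ∩ n ⊆ app t d)
      fun i _ => ?_).mono fun d hd hd' => ?_
    · by_cases e : A i ∈ n
      · exact (ht _ e).mono fun d hd hd' => mem_sep.2 ⟨hd', (mem_sep.1 hd).2.2⟩
      · exact hk.null_empty.mono fun d hd _ => absurd (mem_sep.1 hd).2.1 e
    · by_contra h1
      refine (mem_sep.1 hd).2 fun y hy' => ?_
      obtain ⟨y1, i, i1, i2, i3, i4⟩ := (f1 d hd' y).1 hy'
      by_contra h2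
      exact h1 (mem_sep.2 ⟨hd', i, i1, i2, i3, fun h3 => h2 (h3 (mem_inter.2 ⟨i4, y1⟩))⟩)
  · refine (card_mono (y := ⋃₀ img (fun i => K (A i) d) d) fun y hy' => ?_).trans
      ((card_sUnion_img_le fun i _ => hy.size _ _).trans
        ((mul_le_mul' le_self_add le_rfl).trans (mul_eq_self le_add_self).le))
    obtain ⟨-, i, -, i2, -, i4⟩ := (f1 d hd y).1 hy'
    exact mem_sUnion.2 ⟨_, mem_img.2 ⟨i, i2, rfl⟩, i4⟩
  · obtain ⟨i, hi, h1⟩ := press hk hs.bdd x4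
      (not_null_diff hk hS (null_compl (hk.club_lim x1 x3)))
      (fun i d => A i ∈ n ∧ Y d ∈ K (A i) d) fun d hd hd' =>
        ((f1 d hd' _).1 (hY d (mem_sep.1 hd).1 hd')).2
    obtain ⟨j, hj, h2⟩ := press hk hs.bdd x4 h1 (fun j d => Y d ∈ K (A i) j) fun d hd hd' => by
      obtain ⟨d1, d2, d3⟩ := mem_sep.1 hd
      obtain ⟨-, d4, d5⟩ := mem_sep.1 (not_not.1 fun h => (mem_sep.1 d1).2.2 (mem_sep.2 ⟨hd', h⟩) :
        d ∈ lim k X)
      exact hy.cont X d _ _ (hk.1.mem hd') (hkl d hd') (hnl d2) d4 d5 d3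
    obtain ⟨d, hd, -⟩ := exists_of_not_null hk h1 hk.null_empty
    exact ⟨A i, (mem_sep.1 hd).2.1, j, x1 hj, fun h3 => h2 (h3.mono fun d hd _ =>
      mem_sep.2 ⟨(mem_sep.1 (mem_sep.1 (mem_sep.1 hd).1).1).1, (mem_sep.1 hd).2⟩)⟩

theorem Filt.mem (hs : Sg g k) (hy : Sys (succCard k) E K P) (hnl : n ⊆ succCard k)
    {s x : ZFSet.{u}} (h : Filt k K n s) (hx : x ∈ n) :
    Null k (k.sep fun d => x ∉ app s d) :=
  (h.lub.1 x hx).mono fun _ hd hd' => mem_sep.2 ⟨hd', fun h1 =>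
    (mem_sep.1 hd).2 (h1 (mem_inter.2 ⟨hy.self x (hnl hx) _, hx⟩))⟩

theorem Filt.ot_ord (hn : n.IsOrdinal) {s : ZFSet.{u}} (h : Filt k K n s) (d : ZFSet.{u}) :
    (ot (app s d)).IsOrdinal :=
  img_colIn_ord fun _ hz => hn.mem (h.sub d hz)

theorem Filt.card_ot {s d : ZFSet.{u}} (h : Filt k K n s) (hd : d ∈ k) :
    card (ot (app s d)) ≤ card d + ℵ₀ := (card_img_le _ _).trans (h.size d hd)

/-- The order type of the filtration of a larger cardinal of HOD has larger size in HOD. -/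
theorem step (hs : Sg g k) (hy : Sys (succCard k) E K P) (hkn : k ⊆ n) (hnn : n ∈ n')
    (hn' : HODCard n') (hnl : n' ∈ succCard k) {s s' : ZFSet.{u}} (h : Filt k K n s)
    (h' : Filt k K n' s') :
    Null k (k.sep fun d => ot (app s d) ∉ rho (ot (app s' d))) := by
  by_contra h0
  obtain ⟨hno', hc⟩ := hodCard_iff.1 hn'
  have hno := hno'.mem hnn
  have hl := succCard_ord k
  have hk := hs.unc
  have hnl' := hl.subset_of_mem hnl
  obtain ⟨X, x1, x2, x3, -⟩ := hs.cof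
  have hL := hk.club_lim x1 x3
  have hL' : card (lim k X) < card k :=
    ((card_lim_le hk.1 x1 x3).trans x2).trans_lt (hs.crd g hs.mem)
  have h1 : ∀ d ∈ k, ot (app s' d) ∈ succCard k := fun d hd => mem_succCard.2
    ⟨h'.ot_ord hno' d, (h'.card_ot hd).trans
      (add_le_of_le hs.inf.le (hs.crd d hd).le hs.inf.le)⟩
  have : Tm Set.univ On (fun _ => n) := Tm.ofOrd hno
  have : Tm Set.univ On (fun _ => n') := Tm.ofOrd hno'
  have : Tm Set.univ On (fun _ => k) := Tm.ofOrd hk.1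
  have := hy.tmE
  have := hy.tmK
  have := Tm.two (C := Set.univ) (A := On) E
  have := Tm.two (C := Set.univ) (A := On) K
  have : Df Set.univ On (fun v => Lub k K (v 0) (v 1)) := by unfold Lub Ub; infer_instance
  have := Df.two (C := Set.univ) (A := On) (Lub k K)
  have : Tm Set.univ On (fun v => ot (v 0)) := by unfold ot; infer_instance
  have := Tm.one (C := Set.univ) (A := On) ot
  refine hc n hnn (count hno' hno hk.1 hkn (hs.om_subset.trans hkn) (D := prod n k)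
    (((DInj.of_subset subset_rfl).prod (DInj.of_subset hkn)).trans
      (DInj.pairing hno (hs.om_subset.trans hkn)))
    (fun x z => ∃ t t', Lub k K n t ∧ Lub k K n' t' ∧ ¬ Null k (k.sep fun d => x ∈ app t' d ∧
      ∃ y, y ∈ app t d ∧ y ∈ K (fst z) (snd z) ∧
        colIn (app t d) y = E (ot (app t' d)) (colIn (app t' d) x)))
    (fun x hx => ?_) fun z hz => ?_)
  · have h2 := not_null_diff hk h0 (h'.mem hs hy hnl' hx)
    have h3 : ∀ d ∈ (k.sep fun d => ot (app s d) ∉ rho (ot (app s' d))).sep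
        fun d => d ∈ k ∧ d ∉ k.sep fun d => x ∉ app s' d, x ∈ app s' d ∧
          ∃ y ∈ app s d, colIn (app s d) y = E (ot (app s' d)) (colIn (app s' d) x) :=
      fun d hd => by
        obtain ⟨d1, d2, d3⟩ := mem_sep.1 hd
        have h3 : x ∈ app s' d := not_not.1 fun h => d3 (mem_sep.2 ⟨d2, h⟩)
        exact ⟨h3, mem_img.1 (((h.ot_ord hno d).notMem_iff_subset
          (rho_ord (h'.ot_ord hno' d))).1 (mem_sep.1 d1).2
            (hy.memE _ (h1 d d2) _ (mem_img.2 ⟨x, h3, rfl⟩)))⟩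
    have h4 := fun d hd => (h3 d hd).2
    choose! Y y1 y2 using h4
    obtain ⟨w, hw, m, hm, h4⟩ := h.cap _ Y h2 fun d hd _ => y1 d hd
    refine ⟨pair w m, pair_mem_prod.2 ⟨hw, hm⟩, s, s', h.lub, h'.lub, fun h5 => h4 (h5.mono
      fun d hd hd' => mem_sep.2 ⟨hd', (h3 d (mem_sep.1 hd).1).1, Y d, y1 d (mem_sep.1 hd).1, ?_,
        y2 d (mem_sep.1 hd).1⟩)⟩
    rw [fst_pair, snd_pair]
    exact (mem_sep.1 hd).2
  · obtain ⟨w, -, m, hm, rfl⟩ := mem_prod.1 hz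
    simp only [fst_pair, snd_pair]
    have h2 : ∀ x ∈ n'.sep fun x => ∃ t t', Lub k K n t ∧ Lub k K n' t' ∧
        ¬ Null k (k.sep fun d => x ∈ app t' d ∧ ∃ y, y ∈ app t d ∧ y ∈ K w m ∧
          colIn (app t d) y = E (ot (app t' d)) (colIn (app t' d) x)),
        ∃ d y, d ∈ lim k X ∧ x ∈ app s' d ∧ y ∈ K w m ∧
          colIn (app s d) y = E (ot (app s' d)) (colIn (app s' d) x) := fun x hx => by
      obtain ⟨-, t, t', t1, t2, t3⟩ := mem_sep.1 hx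
      obtain ⟨d, d1, d2, d3⟩ := exists_of_not_null hk t3 (hk.null_union (null_compl hL)
        (hk.null_union (t1.unique hk h.lub) (t2.unique hk h'.lub)))
      simp only [mem_union, mem_sep, d2, true_and, not_or, not_not] at d3
      obtain ⟨-, d4, y, -, d5, d6⟩ := mem_sep.1 d1
      rw [d3.2.1, d3.2.2] at d6
      exact ⟨d, y, d3.1, d3.2.2 ▸ d4, d5, d6⟩
    choose! T Y t1 t2 t3 t4 using h2
    refine (card_le_of_inj (b := prod (lim k X) (K w m))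
      (fun x => pair (T x) (Y x)) (fun x hx => pair_mem_prod.2 ⟨t1 x hx, t3 x hx⟩)
      fun x hx y hy' e => ?_).trans_lt (((card_prod_le _ _).trans
        (mul_le_mul' le_rfl (hy.size _ _))).trans_lt (hs.small hL' hm))
    obtain ⟨e1, e2⟩ := pair_inj.1 e
    have h2 := t4 y hy'
    have h3 := t2 y hy'
    rw [← e1] at h2 h3
    rw [← e2, t4 x hx] at h2
    exact colIn_inj (fun z hz => hno'.mem (h'.sub _ hz)) (t2 x hx) h3
      (hy.injE _ (h1 _ (hL.1 (t1 x hx))) _ (mem_img.2 ⟨x, t2 x hx, rfl⟩) _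
        (mem_img.2 ⟨y, h3, rfl⟩) h2)

theorem mem_colIn {b x z : ZFSet.{u}} (hb : ∀ y ∈ b, y.IsOrdinal) (hx : x ∈ b) :
    z ∈ colIn b x ↔ ∃ y ∈ b, y ∈ x ∧ colIn b y = z := by
  rw [colIn, mem_col]
  constructor
  · rintro ⟨-, y, h1, h2, h3⟩
    exact ⟨y, (mem_sep.1 h1).1, ((mem_sep.1 h1).2.rank_lt_iff_mem (hb x hx)).1 h2, h3⟩
  · rintro ⟨y, h1, h2, h3⟩
    exact ⟨mem_sep.2 ⟨hx, hb x hx⟩, y, mem_sep.2 ⟨h1, hb y h1⟩,
      ((hb y h1).rank_lt_iff_mem (hb x hx)).2 h2, h3⟩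

theorem colIn_mono {a b x : ZFSet.{u}} (hb : ∀ y ∈ b, y.IsOrdinal) (h : a ⊆ b) (hx : x ∈ a) :
    colIn a x ⊆ colIn b x := by
  induction x using ZFSet.inductionOn with
  | _ x ih =>
    intro z hz
    obtain ⟨y, h1, h2, rfl⟩ := (mem_colIn (fun y hy => hb y (h hy)) hx).1 hz
    exact (colIn_ord _ _).mem_of_subset_of_mem (colIn_ord _ _) (ih y h2 h1)
      ((mem_colIn hb (h hx)).2 ⟨y, h h1, h2, rfl⟩)

theorem subset_ot {b d : ZFSet.{u}} (hb : ∀ y ∈ b, y.IsOrdinal) (hd : d.IsOrdinal) (h : d ⊆ b) :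
    d ⊆ ot b := fun x hx => by
  have h1 : ∀ x, x ∈ d → x ⊆ colIn b x := fun x => by
    induction x using ZFSet.inductionOn with
    | _ x ih =>
      intro hx y hy
      have h1 := hd.mem_trans hy hx
      exact (hd.mem h1).mem_of_subset_of_mem (colIn_ord _ _) (ih y hy h1)
        ((mem_colIn hb (h hx)).2 ⟨y, h h1, hy, rfl⟩)
  exact (hd.mem hx).mem_of_subset_of_mem (img_colIn_ord hb) (h1 x hx) (mem_img.2 ⟨x, h hx, rfl⟩)

/-- Few cardinals of HOD can be moved down to the first ones. -/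
theorem exists_down {Q : ZFSet.{u}} (hQ : ∀ x ∈ Q, Between k x) :
    ∃ r : ZFSet.{u} → ZFSet.{u}, (∀ x ∈ Q, Between k (r x) ∧
      card ((r x).sep fun t => Between k t) ≤ card Q) ∧
      ∀ x ∈ Q, ∀ y ∈ Q, x ∈ y → r x ∈ r y := by
  obtain ⟨T, hT⟩ : ∃ T, T = (succCard k).sep fun t => Between k t := ⟨_, rfl⟩
  have t1 : ∀ x, x ∈ T ↔ Between k x := fun x => by
    rw [hT, mem_sep]; exact and_iff_right_of_imp fun h => h.2.1
  have t2 : ∀ x ∈ T, x.IsOrdinal := fun x hx => ((t1 x).1 hx).2.2.1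
  have t3 : Q ⊆ T := fun x hx => (t1 x).2 (hQ x hx)
  have h1 : ∀ x ∈ Q, ∃ y ∈ T, colIn T y = colIn Q x := fun x hx =>
    mem_img.1 ((colIn_ord _ _).mem_of_subset_of_mem (img_colIn_ord t2) (colIn_mono t2 t3 hx)
      (mem_img.2 ⟨x, t3 hx, rfl⟩))
  choose! r r1 r2 using h1
  refine ⟨r, fun x hx => ⟨(t1 _).1 (r1 x hx), le_trans (card_le_of_inj (b := colIn Q x) (colIn T)
    (fun z hz => ?_) fun z hz w hw => colIn_inj t2 ((t1 z).2 (mem_sep.1 hz).2)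
      ((t1 w).2 (mem_sep.1 hw).2)) (card_colIn_le _ _)⟩, fun x hx y hy h => ?_⟩
  · rw [← r2 x hx]
    exact (mem_colIn t2 (r1 x hx)).2 ⟨z, (t1 z).2 (mem_sep.1 hz).2, (mem_sep.1 hz).1, rfl⟩
  · have h1 : colIn T (r x) ∈ colIn T (r y) := by
      rw [r2 x hx, r2 y hy]
      exact (mem_colIn (fun z hz => t2 z (t3 hz)) hy).2 ⟨x, hx, h, rfl⟩
    obtain ⟨z, z1, z2, z3⟩ := (mem_colIn t2 (r1 y hy)).1 h1
    exact colIn_inj t2 z1 (r1 x hx) z3 ▸ z2

/-- At most `g` cardinals of HOD between `k` and its successor reflect. -/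
theorem exists_fun (hs : Sg g k) {Q : ZFSet.{u}} (hQ : ∀ x ∈ Q, Between k x)
    (hQ' : card Q ≤ card g) : ∃ G : ZFSet.{u} → ZFSet.{u} → ZFSet.{u},
      (∀ x ∈ Q, Null k (k.sep fun d => ¬ Between d (G x d))) ∧
      ∀ x ∈ Q, ∀ y ∈ Q, x ∈ y → Null k (k.sep fun d => G x d ∉ G y d) := by
  have hl := succCard_ord k
  have hk := hs.unc
  obtain ⟨E, K, P, hy⟩ := exists_sys hl
  obtain ⟨r, r1, r2⟩ := exists_down hQ
  obtain ⟨s0, h0⟩ := exists_filt hs hy hs.sub_succ (gen_base hs hy)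
  choose! s h using fun x hx => exists_filt hs hy (hl.subset_of_mem (r1 x hx).1.2.1)
    (gen_of_few hs hy (r1 x hx).1 ((r1 x hx).2.trans hQ'))
  have h1 : ∀ x ∈ Q, ∀ d, (ot (app (s x) d)).IsOrdinal := fun x hx =>
    (h x hx).ot_ord (r1 x hx).1.2.2.1
  refine ⟨fun x d => rho (ot (app (s x) d)), fun x hx => ?_, fun x hx y hy' hxy => ?_⟩
  · obtain ⟨⟨a1, a2, a3⟩, -⟩ := r1 x hx
    refine (hk.null_union (step hs hy subset_rfl a1 a3 a2 h0 (h x hx)) (hk.null_union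
      (h0.lub.1 _ hk.empty_mem) (null_below hk hk.omega_mem))).mono fun d hd hd' => ?_
    simp only [mem_union, mem_sep, hd', true_and]
    by_contra h2
    push Not at h2
    have hdo := hk.1.mem hd'
    have h3 := hk.1.subset_of_mem hd'
    refine (mem_sep.1 hd).2 ⟨hdo.mem_of_subset_of_mem (rho_ord (h1 x hx d))
      (subset_ot (fun y hy => hk.1.mem (h0.sub d hy)) hdo fun y hy' => h2.2.1
        (mem_inter.2 ⟨hy.base _ _ (h3.trans hs.sub_succ) hy', h3 hy'⟩)) h2.1,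
      mem_succCard.2 ⟨rho_ord (h1 x hx d), (card_mono (rho_subset (h1 x hx d))).trans
        (((h x hx).card_ot hd').trans ?_)⟩, hodCard_rho (h1 x hx d)⟩
    have h4 := (om_subset_iff hdo).1 (hdo.subset_of_mem h2.2.2)
    exact add_le_of_le h4 le_rfl h4
  · obtain ⟨⟨a1, -, a3⟩, -⟩ := r1 x hx
    obtain ⟨⟨-, b2, b3⟩, -⟩ := r1 y hy'
    refine (step hs hy (a3.1.subset_of_mem a1) (r2 x hx y hy' hxy) b3 b2 (h x hx)
      (h y hy')).mono fun d hd hd' => mem_sep.2 ⟨hd', fun h2 => (mem_sep.1 hd).2 ?_⟩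
    exact (rho_ord (h1 x hx d)).mem_of_subset_of_mem (rho_ord (h1 y hy' d))
      (rho_subset (h1 x hx d)) h2

theorem main (hs : Sg g k) {X : ZFSet.{u}} (hX : X ⊆ k) (hX' : ∀ d ∈ k, card (X ∩ d) < card g)
    (e : ZFSet.{u} → ZFSet.{u}) (he : ∀ x ∈ X, Between k (e x)) :
    ∃ c, Club k c ∧ ∀ d ∈ c, ∃ F : ZFSet.{u} → ZFSet.{u}, (∀ x ∈ X ∩ d, Between d (F (e x))) ∧
      ∀ x ∈ X ∩ d, ∀ y ∈ X ∩ d, e x ∈ e y → F (e x) ∈ F (e y) := by
  have hk := hs.unc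
  have h1 : card X ≤ card g := by
    obtain ⟨Y, y1, y2, y3, -⟩ := hs.cof
    refine (card_mono (y := ⋃₀ img (fun d => X ∩ d) Y) fun x hx => ?_).trans
      ((card_sUnion_img_le fun d hd => (hX' d (y1 hd)).le).trans
        ((mul_le_mul' y2 le_rfl).trans (mul_eq_self hs.cnt.le).le))
    obtain ⟨d, hd, h1⟩ := y3 x (hX hx)
    exact mem_sUnion.2 ⟨_, mem_img.2 ⟨d, hd, rfl⟩, mem_inter.2 ⟨hx, h1⟩⟩
  obtain ⟨G, g1, g2⟩ := exists_fun hs (Q := img e X)
    (fun z hz => by obtain ⟨x, hx, rfl⟩ := mem_img.1 hz; exact he x hx)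
    ((card_img_le _ _).trans h1)
  have h2 : ∀ x ∈ X, e x ∈ img e X := fun x hx => mem_img.2 ⟨x, hx, rfl⟩
  obtain ⟨c, c1, c2⟩ := hk.null_union
    (null_diag hk hs.bdd hX' (fun x d => ¬ Between d (G (e x) d)) fun x hx => g1 _ (h2 x hx))
    (null_diag hk hs.bdd hX' (fun x d => ∃ y ∈ X, y ∈ d ∧ e x ∈ e y ∧ G (e x) d ∉ G (e y) d)
      fun x hx => null_diag hk hs.bdd hX' (fun y d => e x ∈ e y ∧ G (e x) d ∉ G (e y) d)
        fun y hy => by
          by_cases h : e x ∈ e y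
          · exact (g2 _ (h2 x hx) _ (h2 y hy) h).mono fun d hd hd' =>
              mem_sep.2 ⟨hd', (mem_sep.1 hd).2.2⟩
          · exact hk.null_empty.mono fun d hd _ => absurd (mem_sep.1 hd).2.1 h)
  refine ⟨c, c1, fun d hd => ⟨fun z => G z d, fun x hx => ?_, fun x hx y hy h => ?_⟩⟩
  · by_contra h3
    exact c2 d (mem_union.2 (Or.inl (mem_sep.2
      ⟨c1.1 hd, x, (mem_inter.1 hx).1, (mem_inter.1 hx).2, h3⟩))) hd
  · by_contra h3
    exact c2 d (mem_union.2 (Or.inr (mem_sep.2 ⟨c1.1 hd, x, (mem_inter.1 hx).1,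
      (mem_inter.1 hx).2, y, (mem_inter.1 hy).1, (mem_inter.1 hy).2, h, h3⟩))) hd

end Pool.Agent.MP_ecfd11_lc.H46

end
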