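import Pool.Agent.MP_ecfd11_lc.Mg.H20_Atom

-- part MP_ecfd11_lc.H20.Meas
section

/-!
Normal measures of HOD given by club filters.
-/

set_option synthInstance.maxSize 4000

namespace Pool.Agent.MP_ecfd11_lc.H20

universe u

open ZFSet Function Classical Cardinal

variable {d l b B : ZFSet.{u}}

/-- Every OD regressive function on `b` is constant almost everywhere on `B`. -/
def NA (B b : ZFSet.{u}) : Prop :=
  ∀ f, OD Set.univ f → (∀ x, x ∈ b → x ≠ ∅ → app f x ∈ x) →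
    ∃ y, Null b (B.sep fun x => app f x ≠ y)

/-- The club filter of `b` restricted to `B`, on OD sets. -/
noncomputable def Um (B b : ZFSet.{u}) : ZFSet.{u} :=
  (powerset b).sep fun X => OD Set.univ X ∧ Null b (B \ X)

instance Df.na (s t : (ℕ → ZFSet.{u}) → ZFSet.{u}) [Tm Set.univ On s] [Tm Set.univ On t] :
    Df Set.univ On (fun v => NA (s v) (t v)) := by unfold NA; infer_instance

instance Tm.um (s t : (ℕ → ZFSet.{u}) → ZFSet.{u}) [Tm Set.univ On s] [Tm Set.univ On t] :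
    Tm Set.univ On (fun v => Um (s v) (t v)) := by unfold Um; infer_instance

theorem mem_Um {X : ZFSet.{u}} : X ∈ Um B b ↔ X ⊆ b ∧ OD Set.univ X ∧ Null b (B \ X) := by
  rw [Um, mem_sep, mem_powerset]

theorem hod_Um (hb : b.IsOrdinal) (hB : OD Set.univ B) : HOD Set.univ (Um B b) := by
  have : Tm Set.univ On (fun _ => B) := od_iff.1 hB
  have : Tm Set.univ On (fun _ => b) := Tm.ofOrd hb
  exact hereditarily_iff.2 ⟨od_iff.2 inferInstance, fun X hX =>
    hod_of_subset hb (mem_Um.1 hX).1 (mem_Um.1 hX).2.1⟩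

theorem NA.fn (h : NA B b) (hb : b.IsOrdinal) (F : ZFSet.{u} → ZFSet.{u})
    [hF : Tm Set.univ On (fun v => F (v 0))] :
    ∃ y, Null b (B.sep fun x => F x ∈ x ∧ F x ≠ y) := by
  have : Tm Set.univ On (fun _ => b) := Tm.ofOrd hb
  have := Tm.one (C := Set.univ) (A := On) F
  obtain ⟨y, hy⟩ := h (gr (fun x => if F x ∈ x then F x else ∅) b) (od_iff.2 inferInstance)
    fun x hx hx' => by
      rw [app_gr hx]
      split_ifs with h1
      exacts [h1, empty_mem_of_ne (hb.mem hx) hx']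
  refine ⟨y, hy.mono fun x hx hx' => mem_sep.2 ⟨(mem_sep.1 hx).1, ?_⟩⟩
  rw [app_gr hx', if_pos (mem_sep.1 hx).2.1]
  exact (mem_sep.1 hx).2.2

theorem NA.ultra (h : NA B b) (hb : Unc b) {X : ZFSet.{u}} (hX : OD Set.univ X) :
    Null b (B ∩ X) ∨ Null b (B \ X) := by
  have : Tm Set.univ On (fun _ => X) := od_iff.1 hX
  obtain ⟨y, hy⟩ := h.fn hb.1 fun x => if x ∈ X then {∅} else ∅
  have h1 : ({∅} : ZFSet.{u}) ∈ b := hb.succ_mem hb.empty_mem
  have h1o := hb.1.mem h1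
  have h2 := hb.null_union hy (hb.null_bdd h1)
  have h3 : ∀ x ∈ b, x ∉ insert ({∅} : ZFSet.{u}) {∅} → ({∅} : ZFSet.{u}) ∈ x := fun x hx h3 => by
    by_contra h4
    exact h3 (mem_insert_iff.2 ((hb.1.mem hx).eq_or_mem_of_subset h1o
      ((h1o.notMem_iff_subset (hb.1.mem hx)).1 h4)))
  by_cases e : y = ∅
  · refine Or.inl (h2.mono fun x hx hx' => mem_union.2 (or_iff_not_imp_right.2 fun h4 => ?_))
    rw [mem_sep, if_pos (mem_inter.1 hx).2, e]
    exact ⟨(mem_inter.1 hx).1, h3 x hx' h4, sing_ne⟩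
  · refine Or.inr (h2.mono fun x hx hx' => mem_union.2 (or_iff_not_imp_right.2 fun h4 => ?_))
    rw [mem_sep, if_neg (mem_sdiff.1 hx).2]
    exact ⟨(mem_sdiff.1 hx).1, (hb.1.mem hx').mem_trans (mem_singleton.2 rfl) (h3 x hx' h4),
      Ne.symm e⟩

theorem NA.normalMeasure (h : NA B b) (hb : Unc b) (hB : OD Set.univ B) (hs : ¬ Null b B) :
    NormalMeasure b (Um B b) := by
  have : Tm Set.univ On (fun _ => B) := od_iff.1 hB
  have : Tm Set.univ On (fun _ => b) := Tm.ofOrd hb.1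
  refine ⟨hb.1, hb.omega_mem, hod_Um hb.1 hB, fun X hX => (mem_Um.1 hX).1,
    fun X hX Y hY h1 h2 => mem_Um.2 ⟨h2, hY.self, (mem_Um.1 hX).2.2.mono fun x hx _ =>
      mem_sdiff.2 ⟨(mem_sdiff.1 hx).1, fun h3 => (mem_sdiff.1 hx).2 (h1 h3)⟩⟩,
    fun X hX h1 => ⟨fun h2 h3 => ?_, fun h2 => ?_⟩, fun x hx => ?_, fun a ha f f0 f1 => ?_,
    fun f f0 f1 f2 => ?_⟩
  · refine hs ((hb.null_union (mem_Um.1 h2).2.2 (mem_Um.1 h3).2.2).mono fun x hx hx' => ?_)
    simp only [mem_union, mem_sdiff]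
    tauto
  · have : Tm Set.univ On (fun _ => X) := od_iff.1 hX.self
    refine mem_Um.2 ⟨h1, hX.self, (h.ultra hb hX.self).resolve_left fun h3 => h2 (mem_Um.2
      ⟨fun x hx => (mem_sdiff.1 hx).1, od_iff.2 inferInstance, h3.mono fun x hx hx' => ?_⟩)⟩
    simp only [mem_inter, mem_sdiff] at hx ⊢
    tauto
  · refine hs ((hb.null_union (mem_Um.1 hx).2.2 (hb.null_bdd ((mem_Um.1 hx).1
      (mem_singleton.2 rfl)))).mono fun y hy hy' => ?_)
    simp only [mem_union, mem_sdiff, mem_singleton, mem_insert_iff]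
    tauto
  · have : Tm Set.univ On (fun _ => f) := od_iff.1 f0.self
    have hao := hb.1.mem ha
    have : Tm Set.univ On (fun _ => a) := Tm.ofOrd hao
    have := Tm.leastBy (C := Set.univ) a (fun x => x) fun x i => x ∉ app f i
    obtain ⟨y, hy⟩ := h.fn hb.1 fun x => leastBy a (fun x => x) fun i => x ∉ app f i
    have h1 : Null b (B.sep fun x => y ∈ a ∧ x ∉ app f y) := by
      by_cases e : y ∈ a
      · exact (mem_Um.1 (f1.app_mem' e)).2.2.mono fun x hx _ =>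
          mem_sdiff.2 ⟨(mem_sep.1 hx).1, (mem_sep.1 hx).2.2⟩
      · exact hb.null_empty.mono fun x hx _ => absurd (mem_sep.1 hx).2.1 e
    refine mem_Um.2 ⟨sep_subset, od_iff.2 inferInstance,
      (hb.null_union (hb.null_union hy h1) (hb.null_bdd ha)).mono fun x hx hx' => ?_⟩
    obtain ⟨x1, x2⟩ := mem_sdiff.1 hx
    simp only [mem_sep, hx', true_and, not_forall] at x2
    obtain ⟨i, X, x2, x3⟩ := x2
    obtain ⟨h2, h3⟩ := leastBy_id (p := fun i => x ∉ app f i) hao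
      ⟨i, (pair_mem_prod.1 (f1.1 x2)).1, by rwa [f1.app_eq x2]⟩
    refine mem_union.2 (or_iff_not_imp_right.2 fun h4 => mem_union.2 ?_)
    have h5 : a ∈ x := by
      by_contra h5
      exact h4 (mem_insert_iff.2 ((hb.1.mem hx').eq_or_mem_of_subset hao
        ((hao.notMem_iff_subset (hb.1.mem hx')).1 h5)))
    by_cases e : (leastBy a (fun x => x) fun i => x ∉ app f i) = y
    · exact Or.inr (mem_sep.2 ⟨x1, e ▸ h2, e ▸ h3⟩)
    · exact Or.inl (mem_sep.2 ⟨x1, (hb.1.mem hx').mem_trans h2 h5, e⟩)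
  · have : Tm Set.univ On (fun _ => f) := od_iff.1 f0.self
    obtain ⟨y, hy⟩ := h.fn hb.1 fun x => app f x
    by_cases e : y ∈ b
    · have : Tm Set.univ On (fun _ => y) := Tm.ofOrd (hb.1.mem e)
      refine ⟨y, mem_Um.2 ⟨sep_subset, od_iff.2 inferInstance,
        (hb.null_union hy (mem_Um.1 f2).2.2).mono fun x hx hx' => ?_⟩⟩
      obtain ⟨x1, x2⟩ := mem_sdiff.1 hx
      refine mem_union.2 (or_iff_not_imp_right.2 fun h4 => mem_sep.2 ⟨x1, ?_, fun e' =>
        x2 (mem_sep.2 ⟨hx', e' ▸ f1.app_mem hx'⟩)⟩)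
      obtain ⟨z, z1, z2⟩ := (mem_sep.1 (not_not.1 fun h5 => h4 (mem_sdiff.2 ⟨x1, h5⟩))).2
      rwa [f1.app_eq z2]
    · refine absurd ((hb.null_union hy (mem_Um.1 f2).2.2).mono fun x hx hx' => ?_) hs
      refine mem_union.2 (or_iff_not_imp_right.2 fun h4 => mem_sep.2 ⟨hx, ?_, fun e' =>
        e (e' ▸ f1.app_mem' hx')⟩)
      obtain ⟨z, z1, z2⟩ := (mem_sep.1 (not_not.1 fun h5 => h4 (mem_sdiff.2 ⟨hx, h5⟩))).2
      rwa [f1.app_eq z2]

theorem Atom.fn (h : Atom d l B) (hl : Regular Set.univ l) (F : ZFSet.{u} → ZFSet.{u})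
    [hF : Tm Set.univ On (fun v => F (v 0))] (hF' : ∀ x ∈ l, x ≠ ∅ → F x ∈ x) :
    ∃ y, Null l (B.sep fun x => F x ≠ y) := by
  obtain ⟨y, hy, h1⟩ := fodor hl h.2.2.1 F fun x _ => hF' x
  have : Tm Set.univ On (fun _ => y) := Tm.ofOrd (hl.1.mem hy)
  have : Tm Set.univ On (fun _ => l) := Tm.ofOrd hl.1
  have := Tm.one (C := Set.univ) (A := On) F
  refine ⟨y, ((h.2.2.2 (l.sep fun x => F x = y) (od_iff.2 inferInstance)).resolve_left
    fun h2 => h1 (h2.mono fun x hx hx' => ?_)).mono fun x hx _ => ?_⟩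
  · exact mem_inter.2 ⟨(mem_sep.1 hx).1, mem_sep.2 ⟨hx', (mem_sep.1 hx).2⟩⟩
  · exact mem_sdiff.2 ⟨(mem_sep.1 hx).1, fun h2 => (mem_sep.1 hx).2 (mem_sep.1 h2).2⟩

theorem Atom.na (h : Atom d l B) (hl : Regular Set.univ l) : NA B l := fun f f0 f1 => by
  have : Tm Set.univ On (fun _ => f) := od_iff.1 f0
  exact h.fn hl (fun x => app f x) f1

/-- An atom stays a normal atom at almost every point of small cofinality. -/
theorem Atom.glue (h : Atom d l B) (hd : Regular Set.univ d) (hdl : d ∈ l) (hr : Refl d l)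
    (hsm : StronglyMeasurable Set.univ l) : Null l (l.sep fun b => Sm d b ∧ ¬ NA B b) := by
  have hl := hsm.1
  have hu := unc_of_regular hl
  have : Tm Set.univ On (fun _ => B) := od_iff.1 h.1
  have : Tm Set.univ On (fun _ => l) := Tm.ofOrd hl.1
  have : Tm Set.univ On (fun _ => d) := Tm.ofOrd hd.1
  by_contra h0
  obtain ⟨A, a1, a2⟩ := exists_atom hd hdl hr hsm (od_iff.2 inferInstance)
    (fun y hy => ⟨(mem_sep.1 hy).1, (mem_sep.1 hy).2.1⟩) h0
  have : Tm Set.univ On (fun _ => A) := od_iff.1 a1.1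
  obtain ⟨F, f0, f1⟩ := od_choice (C := Set.univ) A (fun b f =>
    (∀ x, x ∈ b → x ≠ ∅ → app f x ∈ x) ∧ ∀ y, ¬ Null b (B.sep fun x => app f x ≠ y))
    fun b hb => by
      have := (mem_sep.1 (a2 hb)).2.2
      simp only [NA, not_forall, not_exists] at this
      obtain ⟨f, h1, h2, h3⟩ := this
      exact ⟨f, h1, h2, h3⟩
  replace f1 := fun b hb => f1 b hb trivial
  have := Tm.one (C := Set.univ) (A := On) F
  let p : ZFSet.{u} → ZFSet.{u} → Prop := fun x y =>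
    y ∈ x ∧ Null l (A.sep fun b => app (F b) x ≠ y)
  have : Df Set.univ On (fun v => p (v 0) (v 1)) := by simp only [p]; infer_instance
  have := Tm.leastBy (C := Set.univ) l (fun x => x) p
  have h1 : ∀ x ∈ l, x ≠ ∅ → p x (leastBy l (fun x => x) (p x)) := fun x hx hx' => by
    refine (leastBy_id hl.1 ?_).2
    by_contra h1
    refine a1.2.2.1 (null_iUnion hl (hl.card_lt (hl.succ_mem hx))
      (fun y => if y = x then insert x x else A.sep fun b => app (F b) x = y) (fun y hy => ?_)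
      fun b hb hb' => ?_)
    · split_ifs with e
      · exact hu.null_bdd hx
      · have hy' := (mem_insert_iff.1 hy).resolve_left e
        have : Tm Set.univ On (fun _ => x) := Tm.ofOrd (hl.1.mem hx)
        have : Tm Set.univ On (fun _ => y) := Tm.ofOrd ((hl.1.mem hx).mem hy')
        rcases a1.2.2.2 (l.sep fun b => app (F b) x = y) (od_iff.2 inferInstance) with h2 | h2
        · exact h2.mono fun b hb hb' =>
            mem_inter.2 ⟨(mem_sep.1 hb).1, mem_sep.2 ⟨hb', (mem_sep.1 hb).2⟩⟩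
        · exact absurd ⟨y, hl.1.mem_trans hy' hx, hy', h2.mono fun b hb _ => mem_sdiff.2
            ⟨(mem_sep.1 hb).1, fun h3 => (mem_sep.1 hb).2 (mem_sep.1 h3).2⟩⟩ h1
    · by_cases e : x ∈ b
      · have h2 := (f1 b hb).1 x e hx'
        exact ⟨_, mem_insert_of_mem _ h2, by
          rw [if_neg fun e' : app (F b) x = x => mem_irrefl x (by rwa [e'] at h2)]
          exact mem_sep.2 ⟨hb, rfl⟩⟩
      · exact ⟨x, mem_insert _ _, by
          rw [if_pos rfl]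
          exact mem_insert_iff.2 ((hl.1.mem hb').eq_or_mem_of_subset (hl.1.mem hx)
            (((hl.1.mem hx).notMem_iff_subset (hl.1.mem hb')).1 e))⟩
  obtain ⟨y, hy⟩ := h.fn hl (fun x => leastBy l (fun x => x) (p x)) fun x hx hx' =>
    (h1 x hx hx').1
  have h2 := (hu.null_union hy (hu.null_bdd hu.empty_mem)).reflect hl
  have h3 : ∀ b ∈ A, ∃ x, Null b ((B.sep fun x => leastBy l (fun x => x) (p x) ≠ y) ∪ insert ∅ ∅) →
      x ∈ b ∧ x ≠ ∅ ∧ app (F b) x ≠ leastBy l (fun x => x) (p x) := fun b hb => by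
    by_contra h3
    push Not at h3
    refine (f1 b hb).2 y ((h3 ∅).1.mono fun x hx hx' => mem_union.2 ?_)
    by_cases e : x = ∅
    · exact Or.inr (e ▸ mem_insert _ _)
    · exact Or.inl (mem_sep.2 ⟨(mem_sep.1 hx).1, (h3 x).2 hx' e ▸ (mem_sep.1 hx).2⟩)
  choose! G hG using h3
  obtain ⟨x, hx, h3⟩ := fodor hl (S := A.sep fun b => Null b
    ((B.sep fun x => leastBy l (fun x => x) (p x) ≠ y) ∪ insert ∅ ∅))
    (fun h3 => a1.2.2.1 ((hu.null_union h3 h2).mono fun b hb hb' => mem_union.2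
      (or_iff_not_imp_right.2 fun h4 => mem_sep.2 ⟨hb, not_not.1 fun h5 =>
        h4 (mem_sep.2 ⟨hb', h5⟩)⟩))) G
    fun b hb _ _ => (hG b (mem_sep.1 hb).1 (mem_sep.1 hb).2).1
  by_cases e : x = ∅
  · exact h3 (hu.null_empty.mono fun b hb _ => absurd ((mem_sep.1 hb).2.trans e)
      (hG b (mem_sep.1 (mem_sep.1 hb).1).1 (mem_sep.1 (mem_sep.1 hb).1).2).2.1)
  · refine h3 ((h1 x hx e).2.mono fun b hb _ => mem_sep.2 ⟨(mem_sep.1 (mem_sep.1 hb).1).1, ?_⟩)
    have := (hG b (mem_sep.1 (mem_sep.1 hb).1).1 (mem_sep.1 (mem_sep.1 hb).1).2).2.2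
    rwa [(mem_sep.1 hb).2] at this

end Pool.Agent.MP_ecfd11_lc.H20

end

-- part MP_ecfd11_lc.H20.Main
section

/-!
A Mitchell-increasing sequence of normal measures of HOD.
-/

set_option synthInstance.maxSize 4000

namespace Pool.Agent.MP_ecfd11_lc.H20

universe u

open ZFSet Function Classical Cardinal

variable {d l A B : ZFSet.{u}}

theorem mitchell (hl : Regular Set.univ l) (hA : Atom d l A) (hB : Atom d l B)
    (h : ∀ b ∈ B, Unc b ∧ ¬ Null b A ∧ NA A b) : Mitchell l (Um A l) (Um B l) := by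
  have hu := unc_of_regular hl
  have : Tm Set.univ On (fun _ => A) := od_iff.1 hA.1
  have : Tm Set.univ On (fun _ => l) := Tm.ofOrd hl.1
  have h1 : ∀ b ∈ B, NormalMeasure b (Um A b) := fun b hb =>
    (h b hb).2.2.normalMeasure (h b hb).1 hA.1 (h b hb).2.1
  have h2 : ∀ X, HOD Set.univ X → X ∈ Um A l →
      Null l (B.sep fun b => X ∩ b ∉ Um A b) := fun X hX h2 => by
    have : Tm Set.univ On (fun _ => X) := od_iff.1 hX.self
    refine ((mem_Um.1 h2).2.2.reflect hl).mono fun b hb hb' => mem_sep.2 ⟨hb', fun h3 =>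
      (mem_sep.1 hb).2 (mem_Um.2 ⟨fun x hx => (mem_inter.1 hx).2, ?_, h3.mono fun x hx hx' =>
        mem_sdiff.2 ⟨(mem_sdiff.1 hx).1, fun h4 => (mem_sdiff.1 hx).2 (mem_inter.2 ⟨h4, hx'⟩)⟩⟩)⟩
    have : Tm Set.univ On (fun _ => b) := Tm.ofOrd (hl.1.mem hb')
    exact od_iff.2 inferInstance
  refine ⟨gr (fun b => Um A b) l, hod_gr' hl.1 _ fun b hb => hod_Um (hl.1.mem hb) hA.1,
    ⟨_, isFunc_gr fun b hb => mem_img.2 ⟨b, hb, rfl⟩⟩, mem_Um.2 ⟨sep_subset,
      od_iff.2 inferInstance, hu.null_empty.mono fun b hb hb' => absurd (mem_sep.2 ⟨hb', _,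
        pair_mem_gr.2 ⟨hb', rfl⟩, h1 b (mem_sdiff.1 hb).1⟩) (mem_sdiff.1 hb).2⟩,
    fun X hX hXl => ⟨fun h3 => ?_, fun h3 => ?_⟩⟩
  · have : Tm Set.univ On (fun _ => X) := od_iff.1 hX.self
    exact mem_Um.2 ⟨sep_subset, od_iff.2 inferInstance, (h2 X hX h3).mono fun b hb hb' =>
      mem_sep.2 ⟨(mem_sdiff.1 hb).1, fun h4 => (mem_sdiff.1 hb).2
        (mem_sep.2 ⟨hb', _, pair_mem_gr.2 ⟨hb', rfl⟩, h4⟩)⟩⟩
  · have : Tm Set.univ On (fun _ => X) := od_iff.1 hX.self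
    refine (((hA.na hl).normalMeasure hu hA.1 hA.2.2.1).ultra X hX hXl).2 fun h4 => ?_
    refine hB.2.2.1 ((hu.null_union (mem_Um.1 h3).2.2 (h2 _ (hod_of_subset hl.1
      (fun x hx => (mem_sdiff.1 hx).1) (od_iff.2 inferInstance)) h4)).mono fun b hb hb' => ?_)
    refine mem_union.2 (or_iff_not_imp_left.2 fun h5 => mem_sep.2 ⟨hb, fun h6 => ?_⟩)
    obtain ⟨m, m1, m2⟩ := (mem_sep.1 (not_not.1 fun h7 => h5 (mem_sdiff.2 ⟨hb, h7⟩))).2
    rw [← (pair_mem_gr.1 m1).2] at m2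
    have : Tm Set.univ On (fun _ => b) := Tm.ofOrd (hl.1.mem hb')
    refine ((h1 b hb).ultra _ (hod_of_subset (hl.1.mem hb') (fun x hx => (mem_inter.1 hx).2)
      (od_iff.2 inferInstance)) fun x hx => (mem_inter.1 hx).2).1 m2 ?_
    have : b \ (X ∩ b) = (l \ X) ∩ b := by
      ext x
      simp only [mem_sdiff, mem_inter]
      exact ⟨fun h => ⟨⟨hl.1.mem_trans h.1 hb', fun h' => h.2 ⟨h', h.1⟩⟩, h.1⟩,
        fun h => ⟨h.2, fun h' => h.1.2 h'.1⟩⟩
    rwa [this]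

theorem exists_chain (hd : Regular Set.univ d) (hdl : d ∈ l) (hr : Refl d l)
    (hsm : StronglyMeasurable Set.univ l) : ∃ H : ZFSet.{u} → ZFSet.{u},
      Tm Set.univ On (fun v => H (v 0)) ∧ (∀ i ∈ d, Atom d l (H i)) ∧
      ∀ k ∈ d, ∀ i ∈ k, ∀ b ∈ H k, Unc b ∧ ¬ Null b (H i) ∧ NA (H i) b := by
  have hl := hsm.1
  have hu := unc_of_regular hl
  have : Tm Set.univ On (fun _ => l) := Tm.ofOrd hl.1
  have : Tm Set.univ On (fun _ => d) := Tm.ofOrd hd.1
  obtain ⟨F, f0, f1⟩ := od_choice (C := Set.univ)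
    ((powerset l).sep fun S => ∃ B, Atom d l B ∧ B ⊆ S) (fun S B => Atom d l B ∧ B ⊆ S)
    fun S hS => by
      obtain ⟨B, hB⟩ := (mem_sep.1 hS).2
      exact ⟨B, hB.1.1, hB⟩
  have := Tm.one (C := Set.univ) (A := On) F
  obtain ⟨H, hH⟩ := exists_rec (fun x => x) mem_wf fun k g => F (l.sep fun b =>
    Sm d b ∧ Unc b ∧ ∀ i, i ∈ k → ¬ Null b (app g i) ∧ NA (app g i) b)
  have h0 : Tm Set.univ On (fun v => H (v 0)) :=
    Tm.recursion (fun _ x => x) (fun _ k g => F (l.sep fun b =>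
      Sm d b ∧ Unc b ∧ ∀ i, i ∈ k → ¬ Null b (app g i) ∧ NA (app g i) b)) (fun _ => H)
      (fun _ _ => mem_wf) fun _ _ x _ => hH x
  have := Tm.one (C := Set.univ) (A := On) H
  have h1 : ∀ k, H k = F (l.sep fun b =>
      Sm d b ∧ Unc b ∧ ∀ i, i ∈ k → ¬ Null b (H i) ∧ NA (H i) b) := fun k => by
    rw [hH k]
    congr 1
    ext b
    simp only [mem_sep]
    exact and_congr_right fun _ => and_congr_right fun _ => and_congr_right fun _ =>
      forall_congr' fun i => forall_congr' fun hi => by rw [app_gr hi]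
  have h2 : ∀ k, k ∈ d → Atom d l (H k) ∧ H k ⊆ l.sep fun b =>
      Sm d b ∧ Unc b ∧ ∀ i, i ∈ k → ¬ Null b (H i) ∧ NA (H i) b := fun k => by
    induction k using ZFSet.inductionOn with
    | _ k ih =>
      intro hk
      have : Tm Set.univ On (fun _ => k) := Tm.ofOrd (hd.1.mem hk)
      have h2 : ∀ i ∈ k, Atom d l (H i) := fun i hi => (ih i hi (hd.1.mem_trans hi hk)).1
      rw [h1 k]
      refine f1 _ (mem_sep.2 ⟨mem_powerset.2 sep_subset, exists_atom hd hdl hr hsm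
        (od_iff.2 inferInstance) (fun y hy => ⟨(mem_sep.1 hy).1, (mem_sep.1 hy).2.1⟩)
        fun h3 => ?_⟩) trivial
      have h4 : Null l (l.sep fun b => ∃ i ∈ k, Sm d b ∧ ¬ NA (H i) b) :=
        null_iUnion hl (hl.card_lt (hl.1.mem_trans hk hdl)) _
          (fun i hi => (h2 i hi).glue hd hdl hr hsm) fun b hb hb' => by
            obtain ⟨i, hi, h4⟩ := (mem_sep.1 hb).2
            exact ⟨i, hi, mem_sep.2 ⟨hb', h4⟩⟩
      refine hr k H (hd.card_lt hk) (fun i hi => ⟨fun y hy => ((h2 i hi).2.1 y hy).2,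
        (h2 i hi).2.2.1⟩) ((hu.null_union h3 h4).mono fun b hb hb' => mem_union.2
          (or_iff_not_imp_right.2 fun h5 => ?_))
      obtain ⟨-, b1, b2, b3⟩ := mem_sep.1 hb
      exact mem_sep.2 ⟨hb', b1, b2, fun i hi => ⟨b3 i hi, not_not.1 fun h6 =>
        h5 (mem_sep.2 ⟨hb', i, hi, b1, h6⟩)⟩⟩
  exact ⟨H, h0, fun i hi => (h2 i hi).1, fun k hk i hi b hb =>
    ⟨(mem_sep.1 ((h2 k hk).2 hb)).2.2.1, (mem_sep.1 ((h2 k hk).2 hb)).2.2.2 i hi⟩⟩

theorem main (hd : StronglyCompact d l) (hdl : d ∈ l) (hsm : StronglyMeasurable Set.univ l) :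
    ∃ s, HOD Set.univ s ∧ (∃ r, IsFunc d r s) ∧ (∀ i U, pair i U ∈ s → NormalMeasure l U) ∧
      ∀ i U k W, pair i U ∈ s → pair k W ∈ s → i ∈ k → Mitchell l U W := by
  have hl := hsm.1
  obtain ⟨H, h0, h1, h2⟩ := exists_chain hd.1 hdl (hd.refl hdl hl) hsm
  have : Tm Set.univ On (fun _ => l) := Tm.ofOrd hl.1
  have := Tm.one (C := Set.univ) (A := On) H
  refine ⟨gr (fun i => Um (H i) l) d, hod_gr' hd.1.1 _ fun i hi => hod_Um hl.1 (h1 i hi).1,
    ⟨_, isFunc_gr fun b hb => mem_img.2 ⟨b, hb, rfl⟩⟩, fun i U h => ?_, fun i U k W h h' hik => ?_⟩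
  · obtain ⟨hi, rfl⟩ := pair_mem_gr.1 h
    exact ((h1 i hi).na hl).normalMeasure (unc_of_regular hl) (h1 i hi).1 (h1 i hi).2.2.1
  · obtain ⟨hi, rfl⟩ := pair_mem_gr.1 h
    obtain ⟨hk, rfl⟩ := pair_mem_gr.1 h'
    exact mitchell hl (h1 i hi) (h1 k hk) (h2 k hk i hik)

end Pool.Agent.MP_ecfd11_lc.H20

end
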