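import Pool.Agent.MP_ecfd11_lc.H20.Scale
import Pool.Agent.MP_ecfd11_lc.Mg.H20_Atom

/-!
Strong measurability in HOD at the successor of a singular strong limit cardinal reflects.
-/

set_option synthInstance.maxSize 4000

namespace Pool.Agent.MP_ecfd11_lc.H20

universe u

open ZFSet Function Classical Cardinal

variable {g k : ZFSet.{u}}

/-- The sequence `s` has no coherent pair on a club of the successor of `d`. -/
def Bad (d s : ZFSet.{u}) : Prop :=
  IsFunc (succCard d) (powerset (succCard d)) s ∧ ∃ c, Club (succCard d) c ∧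
    ∀ a, a ∈ c → ∀ b, b ∈ c → a ∈ b → CofOmega Set.univ a → CofOmega Set.univ b →
      ¬ app s a ∩ a = app s b ∩ a

instance Df.bad (s t : (ℕ → ZFSet.{u}) → ZFSet.{u}) [Tm Set.univ On s] [Tm Set.univ On t] :
    Df Set.univ On (fun v => Bad (s v) (t v)) := by
  unfold Bad; infer_instance

theorem subtle_of_not_bad {d : ZFSet.{u}} (h : ¬ ∃ s, OD Set.univ s ∧ Bad d s) :
    Subtle (succCard d) := fun c hc s hs hf => by
  by_contra h1
  refine h ⟨s, hs.self, hf, c, hc, fun a ha b hb hab h2 h3 h4 =>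
    h1 ⟨a, ha, b, hb, hab, h2, h3, fun A B hA hB => ?_⟩⟩
  rwa [hf.app_eq hA, hf.app_eq hB] at h4

theorem Sing.df_can (hs : Sing g k) (r s t w : (ℕ → ZFSet.{u}) → ZFSet.{u}) [Tm Set.univ On r]
    [Tm Set.univ On s] [Tm Set.univ On t] [Tm Set.univ On w] :
    Df Set.univ On (fun v => Can g k (r v) (s v) (t v) (w v)) := by
  have : Tm Set.univ On (fun _ => k) := Tm.ofOrd hs.unc.1
  have := hs.tm_rk
  unfold Can; infer_instance

/-- The canonical function of `z` belongs to the set indexed by the canonical function of `a`. -/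
def Ph (g k I : ZFSet.{u}) (F : ZFSet.{u} → ZFSet.{u}) (b z a : ZFSet.{u}) : Prop :=
  ∃ h f, Can g k I I a h ∧ Can g k (fst b) (snd b) z f ∧
    (k.sep fun x => app f x ∉ app (F x) (app h x)) ∈ snd b

theorem not_pos (hs : Sing g k) {I a a1 a2 h h1 h2 f : ZFSet.{u}} (hI : Good g k I)
    (F : ZFSet.{u} → ZFSet.{u}) (c0 : Can g k I I a h) (c1 : Can g k I I a1 h1)
    (c2 : Can g k I I a2 h2) (hf : IsFunc k k f)
    (hp : ∀ z ∈ a, ∀ b ∈ prod (ideals g k) (ideals g k), Ph g k I F b z a1 → Ph g k I F b z a2) :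
    (k.sep fun x => app f x ∈ app h x ∧ app f x ∈ app (F x) (app h1 x) ∧
      app f x ∉ app (F x) (app h2 x)) ∈ I := by
  by_contra h0
  have hI' := hI.rs sep_subset h0
  obtain ⟨J, j1, j2, j3⟩ := exists_can hs hI' hf
  have h3 := rk_lt hs (mem_below.2 ⟨hf, hI', mem_rs.2 ⟨sep_subset, hI.empty hs fun x hx =>
    (mem_sep.1 (mem_inter.1 hx).1).2 (mem_sep.1 (mem_inter.1 hx).2).2.1⟩⟩ : f ∈ below g k _ h)
  rw [c0.2 _ sep_subset h0] at h3
  obtain ⟨h', f', p1, p2, p3⟩ := hp _ h3 _ (pair_mem_prod.2 ⟨mem_ideals.2 hI', mem_ideals.2 j1⟩)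
    ⟨h1, f, c1, by rwa [fst_pair, snd_pair], by
      rw [snd_pair]
      exact j2 (mem_rs.2 ⟨sep_subset, hI.empty hs fun x hx =>
        (mem_sep.1 (mem_inter.1 hx).1).2 (mem_sep.1 (mem_inter.1 hx).2).2.2.1⟩)⟩
  rw [fst_pair, snd_pair] at p2
  rw [snd_pair] at p3
  have q1 := Can.unique hs hI' j1 j2 j3 p2
  have q2 := j2 (hI.subset_rs (Can.unique hs hI hI subset_rfl c2 p1))
  have q3 := j1.union hs q1 q2 (X := k.sep fun x => app f x ≠ app f' x ∨ app h2 x ≠ app h' x)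
    sep_subset fun x hx h4 => mem_sep.2 ⟨(mem_sep.1 hx).1, (mem_sep.1 hx).2.resolve_left
      fun h5 => h4 (mem_sep.2 ⟨(mem_sep.1 hx).1, h5⟩)⟩
  have q4 := j1.union hs q3 p3 (X := k.sep fun x => app f x ∉ app (F x) (app h2 x))
    sep_subset fun x hx h4 => mem_sep.2 ⟨(mem_sep.1 hx).1, by
      obtain ⟨x1, x2⟩ := mem_sep.1 hx
      simp only [mem_sep, x1, true_and, not_or, not_not] at h4
      rwa [← h4.1, ← h4.2]⟩
  refine j1.2.2.2.2 (j1.union hs q4 (j2 (mem_rs.2 ⟨sep_subset (p := fun x =>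
    app f x ∈ app (F x) (app h2 x)), hI.empty hs fun x hx =>
      (mem_sep.1 (mem_inter.1 hx).2).2.2.2 (mem_sep.1 (mem_inter.1 hx).1).2⟩)) subset_rfl
    fun x hx h4 => mem_sep.2 ⟨hx, not_not.1 fun h5 => h4 (mem_sep.2 ⟨hx, h5⟩)⟩)

theorem exists_pair {l n D : ZFSet.{u}} (h : StronglyMeasurable Set.univ l) (hD : Club l D)
    (c : ZFSet.{u} → ZFSet.{u} → ZFSet.{u}) (c0 : Tm Set.univ On (fun v => c (v 0) (v 1)))
    (hn : n.IsOrdinal) (hn' : card n < card l) (c1 : ∀ x ∈ l, ∀ y ∈ l, c x y ∈ n) :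
    ∃ a ∈ D, ∃ b ∈ D, a ∈ b ∧ CofOmega Set.univ a ∧ CofOmega Set.univ b ∧
      ∀ z ∈ a, c z a = c z b := by
  have hl := h.1
  have hu := unc_of_regular hl
  obtain ⟨B, b1, b2, b3, b4⟩ := exists_atom_omega h
  have : Tm Set.univ On (fun _ => l) := Tm.ofOrd hl.1
  have := Tm.two (C := Set.univ) (A := On) c
  have h1 : ∀ z ∈ l, ∃ j, Null l (B \ l.sep fun a => c z a = j) := fun z hz => by
    by_contra h1
    push Not at h1
    refine b3 (null_iUnion hl hn' (fun j => B ∩ l.sep fun a => c z a = j) (fun j hj => ?_)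
      fun y hy hy' => ⟨c z y, c1 z hz y hy', mem_inter.2 ⟨hy, mem_sep.2 ⟨hy', rfl⟩⟩⟩)
    have : Tm Set.univ On (fun _ => z) := Tm.ofOrd (hl.1.mem hz)
    have : Tm Set.univ On (fun _ => j) := Tm.ofOrd (hn.mem hj)
    exact (b4 _ (od_iff.2 inferInstance)).resolve_right (h1 j)
  choose! V hV using h1
  have h2 : Null l (B.sep fun a => ∃ z ∈ a, c z a ≠ V z) := by
    by_contra h2
    have h3 : ∀ a ∈ B.sep fun a => ∃ z ∈ a, c z a ≠ V z, ∃ z ∈ a, c z a ≠ V z :=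
      fun a ha => (mem_sep.1 ha).2
    choose! Z z1 z2 using h3
    obtain ⟨z, hz, h3⟩ := fodor hl h2 Z fun x hx _ _ => z1 x hx
    refine h3 ((hV z hz).mono fun x hx _ => ?_)
    obtain ⟨x1, rfl⟩ := mem_sep.1 hx
    exact mem_sdiff.2 ⟨(mem_sep.1 x1).1, fun h4 => z2 x x1 (mem_sep.1 h4).2⟩
  have h3 : ∀ e ∈ l, ∃ a ∈ D, e ∈ a ∧ CofOmega Set.univ a ∧ ∀ z ∈ a, c z a = V z := fun e he => by
    by_contra h3
    refine b3 ((hu.null_union (hu.null_union h2 (hu.null_bdd he))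
      (⟨D, hD, fun x hx => (mem_sdiff.1 hx).2⟩ : Null l (l \ D))).mono fun x hx hx' => ?_)
    simp only [mem_union, mem_sep, mem_sdiff]
    by_contra h4
    push Not at h4
    refine h3 ⟨x, h4.2 hx', ?_, (mem_sep.1 (b1 hx)).2, h4.1.1 hx⟩
    by_contra h5
    exact h4.1.2 (mem_insert_iff.2 ((hl.1.mem hx').eq_or_mem_of_subset (hl.1.mem he)
      (((hl.1.mem he).notMem_iff_subset (hl.1.mem hx')).1 h5)))
  obtain ⟨a, a1, -, a2, a3⟩ := h3 _ hu.empty_mem
  obtain ⟨b, b1, b2, b3, b4⟩ := h3 a (hD.1 a1)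
  exact ⟨a, a1, b, b1, b2, a2, b3, fun z hz => (a3 z hz).trans (b4 z (b3.1.mem_trans hz b2)).symm⟩

theorem silver (hs : Sing g k) (h : StronglyMeasurable Set.univ (succCard k)) :
    ∃ c, Club k c ∧ ∀ d ∈ c, Subtle (succCard d) := by
  have hk := hs.unc
  have : Tm Set.univ On (fun _ => k) := Tm.ofOrd hk.1
  have : Tm Set.univ On (fun _ => g) := Tm.ofOrd (hk.1.mem hs.mem)
  obtain ⟨T, hT⟩ : ∃ T, T = k.sep fun d => om ⊆ d ∧ ∃ s, OD Set.univ s ∧ Bad d s := ⟨_, rfl⟩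
  have t0 : Tm Set.univ On (fun _ => T) := by rw [hT]; infer_instance
  have t1 : ∀ x, x ∈ T ↔ x ∈ k ∧ om ⊆ x ∧ ∃ s, OD Set.univ s ∧ Bad x s := fun x => by
    rw [hT, mem_sep]
  have t2 : T ⊆ k := fun x hx => ((t1 x).1 hx).1
  by_cases t3 : Null k T
  · obtain ⟨c, c1, c2⟩ := hk.null_union t3 (hk.null_bdd hk.omega_mem)
    refine ⟨c, c1, fun d hd => subtle_of_not_bad fun h1 => c2 d (mem_union.2
      (or_iff_not_imp_right.2 fun h2 => (t1 d).2 ⟨c1.1 hd, ?_, h1⟩)) hd⟩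
    exact ((hk.1.mem (c1.1 hd)).notMem_iff_subset (isOrdinal_toZFSet _)).1
      fun h3 => h2 (mem_insert_of_mem _ h3)
  exfalso
  obtain ⟨F, f0, f1⟩ := od_choice (C := Set.univ) T Bad fun x hx => ((t1 x).1 hx).2.2
  have := Tm.one (C := Set.univ) (A := On) F
  have f2 := fun x hx => (f1 x hx trivial).2
  choose! E e1 e2 using f2
  have hI : Good g k (ns k T) := good_ns hs t3
  obtain ⟨D, H, d1, d2⟩ := exists_canonical hs t2 (fun x hx => ((t1 x).1 hx).2.1) E e1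
  have : Tm Set.univ On (fun _ => ns k T) := by unfold ns; infer_instance
  have : Tm Set.univ On (fun _ => ideals g k) := by unfold ideals; infer_instance
  have : Df Set.univ On (fun v => Ph g k (ns k T) F (v 0) (v 1) (v 2)) := by
    have := hs.df_can
    unfold Ph; infer_instance
  obtain ⟨c, n, c0, c1, c2, c3, c4⟩ := exists_idx (C := Set.univ)
    (X := prod (ideals g k) (ideals g k)) h.1.1 (h.1.1.subset_of_mem h.1.2.1) (Ph g k (ns k T) F)
  have c5 : card n < card (succCard k) := by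
    have h1 := (card_ideals hs).trans_lt (hs.pow_lt (hs.pow_lt (hs.card_lt hs.mem)))
    refine c2.trans_lt ((hs.pow_lt ?_).trans (by rw [card_succCard]; exact Order.lt_succ _))
    exact (card_prod_le _ _).trans_lt (mul_lt_of_lt (hs.inf.trans (hs.card_lt hs.mem).le) h1 h1)
  obtain ⟨a, a1, b, b1, hab, a2, b2, h1⟩ := exists_pair h d1 c c0 c1 c5 c3
  obtain ⟨p1, p2, p3, p4⟩ := d2 a a1 a2
  obtain ⟨q1, q2, q3, -⟩ := d2 b b1 b2
  have p5 : Can g k (ns k T) (ns k T) a (H a) :=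
    ⟨p1, fun A hA hA' => p2 _ (hI.rs hA hA') hI.subset_rs⟩
  have q5 : Can g k (ns k T) (ns k T) b (H b) :=
    ⟨q1, fun A hA hA' => q2 _ (hI.rs hA hA') hI.subset_rs⟩
  have h2 : ∀ x, ∃ y, (x ∈ k → y ∈ k) ∧ (¬ app (F x) (app (H a) x) ∩ app (H a) x =
      app (F x) (app (H b) x) ∩ app (H a) x → y ∈ app (H a) x ∧
        ¬ (y ∈ app (F x) (app (H a) x) ↔ y ∈ app (F x) (app (H b) x))) := fun x => by
    by_cases e : app (F x) (app (H a) x) ∩ app (H a) x = app (F x) (app (H b) x) ∩ app (H a) x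
    · exact ⟨x, id, fun h => absurd e h⟩
    · by_contra h2
      refine e (ZFSet.ext fun y => ?_)
      simp only [mem_inter]
      refine and_congr_left fun hy => not_not.1 fun h3 =>
        h2 ⟨y, fun hx => hk.1.mem_trans hy (p1.app_mem' hx), fun _ => ⟨hy, h3⟩⟩
  choose Y y1 y2 using h2
  have hf : IsFunc k k (gr Y k) := isFunc_gr fun x hx => y1 x hx
  have h3 := fun z hz => (c4 z (h.1.1.mem_trans hz (d1.1 a1)) a (d1.1 a1) z
    (h.1.1.mem_trans hz (d1.1 a1)) b (d1.1 b1)).1 (h1 z hz)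
  have r1 := not_pos hs hI F p5 p5 q5 hf fun z hz w hw => (h3 z hz w hw).1
  have r2 := not_pos hs hI F p5 q5 p5 hf fun z hz w hw => (h3 z hz w hw).2
  have r3 := hI.union hs r1 r2 (X := k.sep fun x => ¬ app (F x) (app (H a) x) ∩ app (H a) x =
    app (F x) (app (H b) x) ∩ app (H a) x) sep_subset fun x hx h4 => by
      obtain ⟨x1, x2⟩ := mem_sep.1 hx
      obtain ⟨x3, x4⟩ := y2 x x2
      simp only [mem_sep, app_gr x1, x1, x3, true_and] at h4 ⊢
      tauto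
  have r4 := ((p3.and hk.1 t2 (q3.and hk.1 t2 (p4 b b1 b2 hab))).mono fun x hx h4 =>
    e2 x hx _ h4.1.1 _ h4.2.1.1 h4.2.2 h4.1.2 h4.2.1.2).mem hk (A := k.sep fun x =>
      app (F x) (app (H a) x) ∩ app (H a) x = app (F x) (app (H b) x) ∩ app (H a) x) sep_subset
        fun x hx => not_not.2 (mem_sep.1 hx).2
  exact hI.2.2.2.2 (hI.union hs r3 r4 subset_rfl fun x hx h4 =>
    mem_sep.2 ⟨hx, not_not.1 fun h5 => h4 (mem_sep.2 ⟨hx, h5⟩)⟩)

end Pool.Agent.MP_ecfd11_lc.H20
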