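import Pool.Agent.MP_ecfd11_lc.Small
import Pool.Agent.MP_ecfd11_lc.Core
import Pool.Agent.MP_ecfd11_lc.Limit

-- part MP_ecfd11_lc.Ground
section

/-!
A ground model is definable in its extension from one small parameter.
-/

set_option synthInstance.maxSize 4000

namespace Pool.Agent.MP_ecfd11_lc

universe u

open ZFSet Function Classical Cardinal

/-- `Q` looks like the family of ground model relations on `g`. -/
def Good (K D r g Q : ZFSet.{u}) : Prop :=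
  (∀ E, E ∈ Q → E ⊆ prod g g) ∧
  (∀ E, E ∈ Q → ∀ E', E' ∈ Q → E ∩ E' ∈ Q) ∧
  (∀ a, a ⊆ g → card a ≤ card K → ∃ b, a ⊆ b ∧ b ⊆ g ∧ card b ≤ card K ∧ prod b b ∈ Q) ∧
  (∀ a, a ⊆ prod g g → (∀ E, E ∈ Q → card E ≤ card K → a ∩ E ∈ Q) → a ∈ Q) ∧
  ∀ b, b ⊆ g → card b ≤ card D → prod b b ∈ Q → ∀ E, E ⊆ prod b b →
    (E ∈ Q ↔ img (fun z => pair (colIn b (fst z)) (colIn b (snd z))) E ∈ r)

/-- The formula defining the ground model. -/
def InM (K D r x : ZFSet.{u}) : Prop :=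
  ∃ g : ZFSet.{u}, g.IsOrdinal ∧ ∃ Q, Good K D r g Q ∧ ∃ E, E ∈ Q ∧ ∃ f,
    (∀ j, j ∈ g → ∀ z, z ∈ app f j ↔ ∃ i, i ∈ g ∧ pair i j ∈ E ∧ app f i = z) ∧
    ∃ j, j ∈ g ∧ app f j = x

instance Df.inM {A : Set ZFSet.{u}} [Ctx Set.univ A] (K D r x : (ℕ → ZFSet.{u}) → ZFSet.{u})
    [Tm Set.univ A K] [Tm Set.univ A D] [Tm Set.univ A r] [Tm Set.univ A x] :
    Df Set.univ A (fun v => InM (K v) (D v) (r v) (x v)) := by
  have : Df Set.univ A (fun v => InM (v 0) (v 1) (v 2) (v 3)) := by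
    unfold InM Good; infer_instance
  exact Df.substAll (fun v => InM (v 0) (v 1) (v 2) (v 3))
    (tcons K (tcons D (tcons r fun _ => x)))
    (Tm.tcons inferInstance (Tm.tcons inferInstance (Tm.tcons inferInstance
      fun _ => inferInstance)))

theorem prod_mono {a b c d : ZFSet.{u}} (h1 : a ⊆ c) (h2 : b ⊆ d) : prod a b ⊆ prod c d := by
  intro z hz
  obtain ⟨x, hx, y, hy, rfl⟩ := mem_prod.1 hz
  exact pair_mem_prod.2 ⟨h1 hx, h2 hy⟩

section unique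

variable {k : Cardinal.{u}} (hk : ℵ₀ ≤ k) {r g Q Q' : ZFSet.{u}}
include hk

theorem card_field_le {E : ZFSet.{u}} (h : card E ≤ k) : card (img fst E ∪ img snd E) ≤ k :=
  card_union_le.trans ((add_le_add ((card_img_le _ _).trans h) ((card_img_le _ _).trans h)).trans
    (add_eq_self hk).le)

variable (h : Good k.ord.toZFSet (Order.succ k).ord.toZFSet r g Q)
  (h' : Good k.ord.toZFSet (Order.succ k).ord.toZFSet r g Q')
include h h'

theorem Good.common {a : ZFSet.{u}} (ha : a ⊆ g) (ha' : card a ≤ k) :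
    ∃ b, a ⊆ b ∧ b ⊆ g ∧ card b ≤ Order.succ k ∧ prod b b ∈ Q ∧ prod b b ∈ Q' := by
  have h3 := h.2.2.1
  have h3' := h'.2.2.1
  rw [card_ord'] at h3 h3'
  choose! c c1 c2 c3 c4 using h3
  choose! d d1 d2 d3 d4 using h3'
  obtain ⟨H, hH⟩ := exists_rec (fun x => x) mem_wf fun _ f => d (c (a ∪ ⋃₀ img snd f))
  simp only [snd_gr] at hH
  set D := (Order.succ k).ord.toZFSet with hD
  have hDo : D.IsOrdinal := isOrdinal_toZFSet _
  have hDr : Regular Set.univ D :=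
    regular_ord (isRegular_succ hk) (hk.trans_lt (Order.lt_succ k))
  let U : ZFSet.{u} → ZFSet.{u} := fun i => a ∪ ⋃₀ img H i
  have hU : ∀ i, i ∈ D → U i ⊆ g ∧ card (U i) ≤ k := by
    intro i
    induction i using ZFSet.inductionOn with
    | _ i ih =>
      intro hi
      have h1 : ∀ j ∈ i, H j ⊆ g ∧ card (H j) ≤ k := fun j hj => by
        obtain ⟨u1, u2⟩ := ih j hj (hDo.mem_trans hj hi)
        rw [hH j]
        exact ⟨d2 _ (c2 _ u1 u2) (c3 _ u1 u2), d3 _ (c2 _ u1 u2) (c3 _ u1 u2)⟩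
      refine ⟨fun x hx => ?_, card_union_le.trans ?_⟩
      · rcases mem_union.1 hx with hx | hx
        · exact ha hx
        · obtain ⟨_, h2, hx⟩ := mem_sUnion.1 hx
          obtain ⟨j, hj, rfl⟩ := mem_img.1 h2
          exact (h1 j hj).1 hx
      · refine (add_le_add ha' ((card_sUnion_img_le fun j hj => (h1 j hj).2).trans
          ((mul_le_mul_left (Order.lt_succ_iff.1 ((mem_ord_iff (hDo.mem hi)).1 hi)) k).trans
            (mul_eq_self hk).le))).trans (add_eq_self hk).le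
  have h1 : ∀ j ∈ D, U j ⊆ c (U j) ∧ c (U j) ⊆ H j ∧ H j ⊆ U D ∧ H j ⊆ g ∧ card (H j) ≤ k ∧
      prod (c (U j)) (c (U j)) ∈ Q ∧ prod (H j) (H j) ∈ Q' := fun j hj => by
    obtain ⟨u1, u2⟩ := hU j hj
    refine ⟨c1 _ u1 u2, ?_, fun x hx => mem_union.2 (Or.inr
      (mem_sUnion.2 ⟨_, mem_img.2 ⟨j, hj, rfl⟩, hx⟩)), ?_, ?_, c4 _ u1 u2, ?_⟩ <;> rw [hH j]
    exacts [d1 _ (c2 _ u1 u2) (c3 _ u1 u2), d2 _ (c2 _ u1 u2) (c3 _ u1 u2),
      d3 _ (c2 _ u1 u2) (c3 _ u1 u2), d4 _ (c2 _ u1 u2) (c3 _ u1 u2)]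
  have hUg : U D ⊆ g := fun x hx => by
    rcases mem_union.1 hx with hx | hx
    · exact ha hx
    · obtain ⟨_, h2, hx⟩ := mem_sUnion.1 hx
      obtain ⟨j, hj, rfl⟩ := mem_img.1 h2
      exact (h1 j hj).2.2.2.1 hx
  have key : ∀ R, Good k.ord.toZFSet D r g R →
      (∀ j ∈ D, ∃ e, U j ⊆ e ∧ e ⊆ U D ∧ prod e e ∈ R) → prod (U D) (U D) ∈ R := by
    intro R hR h2
    refine hR.2.2.2.1 _ (prod_mono hUg hUg) fun E hE hE' => ?_
    rw [card_ord'] at hE'
    have h3 : ∀ x ∈ U D ∩ (img fst E ∪ img snd E), ∃ i ∈ D, x ∈ a ∨ x ∈ H i := fun x hx => by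
      rcases mem_union.1 (mem_inter.1 hx).1 with hx | hx
      · exact ⟨∅, hDr.empty_mem, Or.inl hx⟩
      · obtain ⟨_, h2, hx⟩ := mem_sUnion.1 hx
        obtain ⟨j, hj, rfl⟩ := mem_img.1 h2
        exact ⟨j, hj, Or.inr hx⟩
    choose! I I1 I2 using h3
    obtain ⟨j, hj, h4⟩ := hDr.bddV (by
      rw [card_ord']
      exact Order.lt_succ_of_le ((card_mono fun x hx => (mem_inter.1 hx).2).trans
        (card_field_le hk hE'))) I I1
    obtain ⟨e, e1, e2, e3⟩ := h2 j hj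
    have h5 : ∀ x ∈ U D ∩ (img fst E ∪ img snd E), x ∈ e := fun x hx => e1 (mem_union.2
      ((I2 x hx).imp_right fun h5 => mem_sUnion.2 ⟨_, mem_img.2 ⟨_, h4 x hx, rfl⟩, h5⟩))
    have : prod (U D) (U D) ∩ E = prod e e ∩ E := by
      ext z
      simp only [mem_inter]
      refine and_congr_left fun hz => ⟨fun h6 => ?_, fun h6 => prod_mono e2 e2 h6⟩
      obtain ⟨x, hx, y, hy, rfl⟩ := mem_prod.1 h6
      exact pair_mem_prod.2 ⟨h5 x (mem_inter.2 ⟨hx, mem_union.2 (Or.inl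
        (mem_img.2 ⟨_, hz, fst_pair _ _⟩))⟩), h5 y (mem_inter.2 ⟨hy, mem_union.2 (Or.inr
        (mem_img.2 ⟨_, hz, snd_pair _ _⟩))⟩)⟩
    rw [this]
    exact hR.2.1 _ e3 _ hE
  refine ⟨U D, fun x hx => mem_union.2 (Or.inl hx), hUg, card_union_le.trans ?_,
    key Q h fun j hj => ?_, key Q' h' fun j hj => ?_⟩
  · have hk' : ℵ₀ ≤ Order.succ k := hk.trans (Order.le_succ k)
    refine (add_le_add (ha'.trans (Order.le_succ k)) ((card_sUnion_img_le
      fun j hj => (h1 j hj).2.2.2.2.1.trans (Order.le_succ k)).trans ?_)).trans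
      (add_eq_self hk').le
    rw [card_ord', mul_eq_self hk']
  · obtain ⟨u1, u2, u3, -, -, u4, -⟩ := h1 j hj
    exact ⟨_, u1, u2.trans u3, u4⟩
  · obtain ⟨u1, u2, u3, -, -, -, u4⟩ := h1 j hj
    exact ⟨_, u1.trans u2, u3, u4⟩

theorem Good.small {E : ZFSet.{u}} (hE : E ∈ Q) (hE' : card E ≤ k) : E ∈ Q' := by
  have h1 := h.1 E hE
  obtain ⟨b, b1, b2, b3, b4, b5⟩ := h.common hk h' (a := img fst E ∪ img snd E) (fun x hx => by
    rcases mem_union.1 hx with hx | hx <;> obtain ⟨z, hz, rfl⟩ := mem_img.1 hx <;>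
      obtain ⟨x, hx, y, hy, rfl⟩ := mem_prod.1 (h1 hz) <;> simpa) (card_field_le hk hE')
  have h2 : E ⊆ prod b b := fun z hz => by
    obtain ⟨x, hx, y, hy, rfl⟩ := mem_prod.1 (h1 hz)
    exact pair_mem_prod.2 ⟨b1 (mem_union.2 (Or.inl (mem_img.2 ⟨_, hz, fst_pair _ _⟩))),
      b1 (mem_union.2 (Or.inr (mem_img.2 ⟨_, hz, snd_pair _ _⟩)))⟩
  rw [← card_ord' (Order.succ k)] at b3
  exact (h'.2.2.2.2 b b2 b3 b5 E h2).2 ((h.2.2.2.2 b b2 b3 b4 E h2).1 hE)

theorem Good.subset : Q ⊆ Q' := fun E hE =>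
  h'.2.2.2.1 E (h.1 E hE) fun E' h1 h2 => by
    rw [card_ord'] at h2
    exact h.small hk h' (h.2.1 E hE E' (h'.small hk h h1 h2))
      ((card_mono fun x hx => (mem_inter.1 hx).2).trans h2)

end unique

namespace FC

variable {M : Set ZFSet.{u}} {P le G : ZFSet.{u}} {val : ZFSet.{u} → ZFSet.{u}}
  (h : FC M P le G val) {k : Cardinal.{u}} (hk : ℵ₀ ≤ k) (hPk : card P ≤ k)
include h hk hPk

theorem good {g : ZFSet.{u}} (hg : g.IsOrdinal) :
    Good k.ord.toZFSet (Order.succ k).ord.toZFSet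
      (pw M (prod (Order.succ (Order.succ k)).ord.toZFSet (Order.succ (Order.succ k)).ord.toZFSet))
      g (pw M (prod g g)) := by
  have := h.ctx
  have : Tm M M (fun _ => g) := Tm.ofOrd hg
  have hgg : prod g g ∈ M := Tm.val_mem (A := M) inferInstance
  have hint : ∀ x ∈ M, ∀ y ∈ M, x ∩ y ∈ M := fun x hx y hy =>
    haveI : Tm M M (fun _ => x) := Tm.ofMem hx
    haveI : Tm M M (fun _ => y) := Tm.ofMem hy
    Tm.val_mem (A := M) inferInstance
  refine ⟨fun E hE => (mem_pw.1 hE).1, fun E hE E' hE' => mem_pw.2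
    ⟨fun x hx => (mem_pw.1 hE).1 (mem_inter.1 hx).1, hint _ (mem_pw.1 hE).2 _ (mem_pw.1 hE').2⟩,
    fun a ha ha' => ?_, fun a ha ha' => ?_, fun b hb hb' hbb E hE => ?_⟩
  · rw [card_ord'] at ha' ⊢
    obtain ⟨c, hc, h1, h2, h3⟩ := h.cover hk hPk (h.im.ord _ hg) ha ha'
    have : Tm M M (fun _ => c) := Tm.ofMem hc
    exact ⟨c, h1, h2, h3, mem_pw.2 ⟨prod_mono h2 h2, Tm.val_mem (A := M) inferInstance⟩⟩
  · rw [card_ord'] at ha'
    exact mem_pw.2 ⟨ha, h.approx hk hPk hgg ha fun c hc h1 h2 =>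
      (mem_pw.1 (ha' c (mem_pw.2 ⟨h1, hc⟩) h2)).2⟩
  · have : Tm M M (fun _ => prod b b) := Tm.ofMem (mem_pw.1 hbb).2
    have hb1 : Tm M M (fun _ => b) :=
      Tm.of (fun _ => g.sep fun x => pair x x ∈ prod b b) inferInstance fun _ _ => by
        ext x; simpa using fun hx => hb hx
    have hbo : ∀ x ∈ b, x.IsOrdinal := fun x hx => hg.mem (hb hx)
    constructor
    · intro hE'
      have : Tm M M (fun _ => E) := Tm.ofMem (mem_pw.1 hE').2
      refine mem_pw.2 ⟨fun z hz => ?_, Tm.val_mem (A := M) inferInstance⟩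
      obtain ⟨z, -, rfl⟩ := mem_img.1 hz
      rw [card_ord'] at hb'
      exact pair_mem_prod.2 ⟨(mem_ord_iff (colIn_ord _ _)).2
          (Order.lt_succ_of_le ((card_colIn_le _ _).trans hb')),
        (mem_ord_iff (colIn_ord _ _)).2 (Order.lt_succ_of_le ((card_colIn_le _ _).trans hb'))⟩
    · intro hE'
      obtain ⟨E', e⟩ : ∃ E', E' = img (fun z => pair (colIn b (fst z)) (colIn b (snd z))) E :=
        ⟨_, rfl⟩
      rw [← e] at hE'
      have : Tm M M (fun _ => E') := Tm.ofMem (mem_pw.1 hE').2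
      refine mem_pw.2 ⟨hE.trans (prod_mono hb hb), Tm.val_mem (A := M) (Tm.of
        (fun _ => (prod b b).sep fun z => pair (colIn b (fst z)) (colIn b (snd z)) ∈ E')
        inferInstance fun _ _ => ?_)⟩
      ext z
      rw [mem_sep, e, mem_img]
      refine ⟨fun ⟨hz, z', hz', e'⟩ => ?_, fun hz => ⟨hE hz, z, hz, rfl⟩⟩
      obtain ⟨x, hx, y, hy, rfl⟩ := mem_prod.1 hz
      obtain ⟨x', hx', y', hy', rfl⟩ := mem_prod.1 (hE hz')
      simp only [fst_pair, snd_pair, pair_inj] at e'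
      rwa [← colIn_inj hbo hx' hx e'.1, ← colIn_inj hbo hy' hy e'.2]

/-- Definability of the ground model. -/
theorem mem_iff_inM (x : ZFSet.{u}) : x ∈ M ↔ InM k.ord.toZFSet (Order.succ k).ord.toZFSet
    (pw M (prod (Order.succ (Order.succ k)).ord.toZFSet (Order.succ (Order.succ k)).ord.toZFSet))
    x := by
  have := h.ctx
  constructor
  · intro hx
    have : Tm M M (fun _ => x) := Tm.ofMem hx
    obtain ⟨g, e, hg, he, e1, e2, -⟩ :=
      h.im.exists_enum (T := tc {x}) (Tm.val_mem (A := M) inferInstance)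
    have := Tm.one (C := M) (A := M) e
    have : Tm M M (fun _ => g) := Tm.ofOrd hg
    refine ⟨g, hg, _, h.good hk hPk hg, (prod g g).sep fun z => e (fst z) ∈ e (snd z),
      mem_pw.2 ⟨sep_subset, Tm.val_mem (A := M) inferInstance⟩, gr e g, fun j hj z => ?_, ?_⟩
    · rw [app_gr hj]
      constructor
      · intro hz
        obtain ⟨i, hi, rfl⟩ := e2 z ((isTransitive_tc _).mem_trans hz (e1 j hj))
        exact ⟨i, hi, mem_sep.2 ⟨pair_mem_prod.2 ⟨hi, hj⟩, by simpa using hz⟩, app_gr hi⟩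
      · rintro ⟨i, hi, h1, rfl⟩
        rw [app_gr hi]
        simpa using (mem_sep.1 h1).2
    · obtain ⟨j, hj, e⟩ := e2 x (subset_tc _ (by simp))
      exact ⟨j, hj, (app_gr hj).trans e⟩
  · rintro ⟨g, hg, Q, hQ, E, hE, f, hf, j, hj, rfl⟩
    have : Tm M M (fun _ => E) := Tm.ofMem (mem_pw.1 (hQ.subset hk (h.good hk hPk hg) hE)).2
    have : Tm M M (fun _ => g) := Tm.ofOrd hg
    have h1 : Tm M M (fun v => if v 0 ∈ g then app f (v 0) else ∅) :=
      Tm.recursion (fun _ j => g.sep fun i => j ∈ g ∧ pair i j ∈ E)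
        (fun _ _ s => img (fun z => snd z) s) (fun _ j => if j ∈ g then app f j else ∅)
        (fun _ _ => Subrelation.wf (fun {i j} hi => by
          obtain ⟨h1, h2, h3⟩ := mem_sep.1 hi
          exact (hf j h2 _).2 ⟨i, h1, h3, rfl⟩) (InvImage.wf (app f) mem_wf))
        fun _ _ j _ => by
          ext z
          rw [snd_gr, mem_img]
          split_ifs with hj
          · rw [hf j hj]
            exact ⟨fun ⟨i, h1, h2, h3⟩ => ⟨i, mem_sep.2 ⟨h1, hj, h2⟩, by simp [h1, h3]⟩,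
              fun ⟨i, h1, h2⟩ => ⟨i, (mem_sep.1 h1).1, (mem_sep.1 h1).2.2,
                by simpa [(mem_sep.1 h1).1] using h2⟩⟩
          · simp [hj]
    simpa [hj] using h1.mem (fun _ => j) fun _ => h.im.ord _ (hg.mem hj)

end FC

end Pool.Agent.MP_ecfd11_lc

end

-- part MP_ecfd11_lc.Up
section

/-!
A large cardinal that is omega-strongly measurable in HOD in `V` is so in every ground.
-/

set_option synthInstance.maxSize 4000

namespace Pool.Agent.MP_ecfd11_lc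

universe u

open ZFSet Function Classical Cardinal

theorem no_inj_union {C : Set ZFSet.{u}} {l k n : ZFSet.{u}} (hk : k.IsOrdinal) (hn : n.IsOrdinal)
    (h1 : ¬ ∃ f, HOD C f ∧ IsInj l (powerset k) f) (h2 : 2 ^ card n < card l) :
    ¬ ∃ f, HOD C f ∧ IsInj l (powerset (k ∪ n)) f := by
  rcases hk.subset_total hn with h | h
  · have : k ∪ n = n := by ext z; simpa using fun hz => h hz
    rintro ⟨f, -, f1, f2⟩
    rw [this] at f1
    rw [← card_powerset] at h2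
    exact h2.not_ge (card_le_of_inj (app f)
      (fun x hx => (pair_mem_prod.1 (f1.1 (f1.app_mem hx))).2)
      fun x hx y hy e => f2 x y _ (f1.app_mem hx) (e ▸ f1.app_mem hy))
  · have : k ∪ n = k := by ext z; simpa using fun hz => h hz
    rwa [this]

theorem subset_ord_succ {n : ZFSet.{u}} (hn : n.IsOrdinal) {m : Cardinal.{u}} (h : card n ≤ m) :
    n ⊆ (Order.succ m).ord.toZFSet :=
  (isOrdinal_toZFSet _).subset_of_mem ((mem_ord_iff hn).2 (Order.lt_succ_of_le h))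

theorem CofOmega.up {M : Set ZFSet.{u}} {a : ZFSet.{u}} (h : CofOmega M a) :
    CofOmega Set.univ a :=
  ⟨h.1, h.2.imp fun _ hf => ⟨trivial, hf.2⟩⟩

theorem Regular.down {M : Set ZFSet.{u}} {l : ZFSet.{u}} (h : Regular Set.univ l) :
    Regular M l :=
  ⟨h.1, h.2.1, fun a ha f _ => h.2.2 a ha f trivial⟩

theorem IsGround.fc {M : Set ZFSet.{u}} (h : IsGround M) :
    ∃ P le G val, FC M P le G val := by
  obtain ⟨h1, P, hP, le, hle, G, val, h2, h3, h4⟩ := h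
  exact ⟨P, le, G, val, h1, hP, hle, h2, h3, h4⟩

namespace FC

variable {M : Set ZFSet.{u}} {P le G : ZFSet.{u}} {val : ZFSet.{u} → ZFSet.{u}}
  (h : FC M P le G val)
include h

/-- Sets ordinal definable in the ground are ordinal definable from one small parameter. -/
theorem exists_param : ∃ X r : ZFSet.{u}, Tm Set.univ On (fun _ => X) ∧ r ∈ X ∧
    ∀ s, OD M s → ∃ Φ : ZFSet.{u} → ZFSet.{u} → Prop,
      Df Set.univ On (fun v => Φ (v 0) (v 1)) ∧ ∀ z, Φ r z ↔ z ∈ s := by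
  obtain ⟨k, hk, hPk⟩ : ∃ k, ℵ₀ ≤ k ∧ card P ≤ k := ⟨_, le_max_left _ _, le_max_right _ _⟩
  have key := h.mem_iff_inM hk hPk
  refine ⟨powerset (powerset (prod (Order.succ (Order.succ k)).ord.toZFSet
    (Order.succ (Order.succ k)).ord.toZFSet)), _, inferInstance,
    mem_powerset.2 (fun x hx => mem_powerset.2 (mem_pw (C := M).1 hx).1), ?_⟩
  rintro s ⟨hs, φ, w, hw, h1⟩
  let N : ZFSet.{u} → Set ZFSet.{u} := fun b =>
    {x | InM k.ord.toZFSet (Order.succ k).ord.toZFSet b x}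
  have hN : ∀ (s t : (ℕ → ZFSet.{u}) → ZFSet.{u}) [Tm Set.univ On s] [Tm Set.univ On t],
      Df Set.univ On (fun v => s v ∈ N (t v)) := fun s t _ _ => Df.inM _ _ t s
  have h2 : Df Set.univ On (fun v => Sat (N (v (0 + 1))) φ (cons (v 0) w)) := by
    refine Df.of _ (Df.sat (C := Set.univ) (A := On) φ (fun v => N (v (0 + 1)))
      (hN (fun v => v 0) fun v => v 2)
      (fun _ _ => Set.subset_univ _)
      (tcons (fun v => v 0) fun i _ => w i)
      (Tm.tcons inferInstance fun i => Tm.ofOrd (hw i))) fun v _ => ?_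
    have : (fun i => tcons (fun v => v 0) (fun i _ => w i) i v) = cons (v 0) w := by
      funext i; cases i <;> rfl
    rw [this]
  refine ⟨fun b z => ∃ y, y ∈ N b ∧ Sat (N b) φ (cons y w) ∧ z ∈ y,
    Df.exV _ (h := Df.and _ _ (h2 := Df.and _ _ (h1 := h2))), fun z => ?_⟩
  have e : N (pw M (prod (Order.succ (Order.succ k)).ord.toZFSet
      (Order.succ (Order.succ k)).ord.toZFSet)) = M := Set.ext fun x => (key x).symm
  simp only [e]
  exact ⟨fun ⟨y, h2, h3, h4⟩ => (h1 y h2).1 h3 ▸ h4, fun hz => ⟨s, hs, (h1 s hs).2 rfl, hz⟩⟩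

theorem large (m : Cardinal.{u}) : ∃ θ : ZFSet.{u}, θ.IsOrdinal ∧ ∀ l, θ ∈ l → Regular M l →
    Regular Set.univ l ∧ m < card l ∧ ∀ S, Stat M l S ↔ Stat Set.univ l S := by
  refine ⟨(max m (Order.succ (card P))).ord.toZFSet, isOrdinal_toZFSet _, fun l h1 h2 => ?_⟩
  have h3 := h.regular le_rfl h2 ((Ordinal.toZFSet_subset_toZFSet_iff.2
    (ord_le_ord.2 (le_max_right _ _))).trans (h2.1.subset_of_mem h1))
  have h4 := h3.card_lt h1
  rw [card_ord', max_lt_iff] at h4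
  exact ⟨h3, h4.1, fun S => h.stat_iff h3 ((Order.lt_succ _).trans h4.2)⟩

theorem up : ∃ θ : ZFSet.{u}, θ.IsOrdinal ∧ ∀ l, θ ∈ l → Regular M l →
    Regular Set.univ l ∧ (StronglyMeasurable Set.univ l → StronglyMeasurable M l) := by
  obtain ⟨X, r, hX, hr, H⟩ := h.exists_param
  obtain ⟨m, hm⟩ : ∃ m, m = max ℵ₀ (2 ^ card X) := ⟨_, rfl⟩
  obtain ⟨θ, hθ, h1⟩ := h.large (2 ^ Order.succ m)
  refine ⟨θ, hθ, fun l h2 hl => ?_⟩
  obtain ⟨hl', h3, hst⟩ := h1 l h2 hl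
  refine ⟨hl', fun ⟨_, k, hk, hk', s1, s2⟩ => ?_⟩
  have hno := isOrdinal_toZFSet (Order.succ m).ord
  have hko := hl.1.mem hk
  have hnl : (Order.succ m).ord.toZFSet ∈ l :=
    hl'.mem_of_card_lt hno (by rw [card_ord']; exact (cantor _).trans h3)
  have s3 := no_inj_union hko hno s1 (by rwa [card_ord'])
  have hkn := union_mem hl.1 hk hnl
  obtain ⟨k', e⟩ : ∃ k', k' = k ∪ (Order.succ m).ord.toZFSet := ⟨_, rfl⟩
  have k1 : k ⊆ k' := fun x hx => e ▸ mem_union.2 (Or.inl hx)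
  have k2 : (Order.succ m).ord.toZFSet ⊆ k' := fun x hx => e ▸ mem_union.2 (Or.inr hx)
  rw [← e] at s3 hkn
  have k3 : ∀ n : ZFSet.{u}, n.IsOrdinal → card n ≤ 2 ^ card X → n ⊆ k' := fun n n1 n2 =>
    (subset_ord_succ n1 (n2.trans (hm ▸ le_max_right _ _))).trans k2
  have k4 : om ⊆ k' :=
    (subset_ord_succ (isOrdinal_toZFSet _) (card_om.le.trans (hm ▸ le_max_left _ _))).trans k2
  refine ⟨hl, k', hkn, fun e' => hk' (subset_antisymm (e' ▸ k1) (empty_subset _)), ?_, ?_⟩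
  · rintro ⟨f, f0, f1, f2⟩
    obtain ⟨Φ, Φ0, Φ1⟩ := H f f0.self
    have := Df.two (C := Set.univ) (A := On) Φ
    refine core_inj (C := Set.univ) (X := X) hl' hkn k3 k4 s3
      (fun b i x => ∃ S, Φ b (pair x S) ∧ i ∈ S) fun x hx y hy h4 => ?_
    have h5 : ∀ x ∈ l, ∀ i, (∃ S, Φ r (pair x S) ∧ i ∈ S) ↔ i ∈ app f x := fun x hx i =>
      ⟨fun ⟨S, h5, h6⟩ => f1.app_eq ((Φ1 _).1 h5) ▸ h6,
        fun h5 => ⟨_, (Φ1 _).2 (f1.app_mem hx), h5⟩⟩
    have h6 : ∀ x ∈ l, app f x ⊆ k' := fun x hx =>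
      mem_powerset.1 (pair_mem_prod.1 (f1.1 (f1.app_mem hx))).2
    refine f2 x y _ (f1.app_mem hx) ((?_ : app f y = app f x) ▸ f1.app_mem hy)
    ext i
    exact ⟨fun hi => (h5 x hx i).1 ((h4 i (h6 y hy hi) r hr).2 ((h5 y hy i).2 hi)),
      fun hi => (h5 y hy i).1 ((h4 i (h6 x hx hi) r hr).1 ((h5 x hx i).2 hi))⟩
  · rintro ⟨s, f0, f1, f2, f3, -⟩
    obtain ⟨Φ, Φ0, Φ1⟩ := H s f0.self
    have := Df.two (C := Set.univ) (A := On) Φ
    refine s2 (core_part (C := Set.univ) (X := X) hl' (fun _ => Iff.rfl) hkn k3 k4 s3 hko hk'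
      subset_rfl (DInj.of_subset k1) ?_ (CofOmega Set.univ)
      (fun b i x => ∃ S, Φ b (pair i S) ∧ x ∈ S) fun i hi => ⟨r, hr, ?_, ?_⟩)
    · rw [← hm]
      exact (Order.lt_succ m).trans_le ((card_ord' _).symm.trans_le (card_mono k2))
    · rintro j - j' - x - ⟨S, h4, h5⟩ ⟨S', h6, h7⟩
      by_contra h8
      exact f3 j S j' S' ((Φ1 _).1 h4) ((Φ1 _).1 h6) h8 x h5 h7
    · obtain ⟨h4, h5⟩ := f2 i _ (f1.app_mem hi)
      exact ((hst _).1 h4).mono (fun x hx => mem_sep.2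
        ⟨h4.1 hx, (h5 x hx).up, _, (Φ1 _).2 (f1.app_mem hi), hx⟩) sep_subset

end FC

end Pool.Agent.MP_ecfd11_lc

end

-- part MP_ecfd11_lc.Iff
section

/-!
Omega-strong measurability in HOD in `V = M[G]`, computed in `M`.
-/

set_option synthInstance.maxSize 4000

namespace Pool.Agent.MP_ecfd11_lc

universe u

open ZFSet Function Classical Cardinal

namespace FC

variable {M : Set ZFSet.{u}} {P le G : ZFSet.{u}} {val : ZFSet.{u} → ZFSet.{u}}
  (h : FC M P le G val)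
include h

theorem upCof : ∃ θ : ZFSet.{u}, θ.IsOrdinal ∧ ∀ l, θ ∈ l → Regular M l →
    Regular Set.univ l ∧ (CofSM Set.univ om l → ∀ g, Cof Set.univ om g → CofSM M g l) := by
  obtain ⟨X, r, hX, hr, H⟩ := h.exists_param
  obtain ⟨m, hm⟩ : ∃ m, m = max ℵ₀ (2 ^ card X) := ⟨_, rfl⟩
  obtain ⟨θ, hθ, h1⟩ := h.large (2 ^ Order.succ m)
  refine ⟨θ, hθ, fun l h2 hl => ?_⟩
  obtain ⟨hl', h3, hst⟩ := h1 l h2 hl
  refine ⟨hl', fun ⟨_, k, hk, hk', s1, s2⟩ g hg => ?_⟩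
  have hno := isOrdinal_toZFSet (Order.succ m).ord
  have hko := hl.1.mem hk
  have hnl : (Order.succ m).ord.toZFSet ∈ l :=
    hl'.mem_of_card_lt hno (by rw [card_ord']; exact (cantor _).trans h3)
  have s3 := no_inj_union hko hno s1 (by rwa [card_ord'])
  have hkn := union_mem hl.1 hk hnl
  obtain ⟨k', e⟩ : ∃ k', k' = k ∪ (Order.succ m).ord.toZFSet := ⟨_, rfl⟩
  have k1 : k ⊆ k' := fun x hx => e ▸ mem_union.2 (Or.inl hx)
  have k2 : (Order.succ m).ord.toZFSet ⊆ k' := fun x hx => e ▸ mem_union.2 (Or.inr hx)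
  rw [← e] at s3 hkn
  have k3 : ∀ n : ZFSet.{u}, n.IsOrdinal → card n ≤ 2 ^ card X → n ⊆ k' := fun n n1 n2 =>
    (subset_ord_succ n1 (n2.trans (hm ▸ le_max_right _ _))).trans k2
  have k4 : om ⊆ k' :=
    (subset_ord_succ (isOrdinal_toZFSet _) (card_om.le.trans (hm ▸ le_max_left _ _))).trans k2
  refine ⟨hl, k', hkn, fun e' => hk' (subset_antisymm (e' ▸ k1) (empty_subset _)), ?_, ?_⟩
  · rintro ⟨f, f0, f1, f2⟩
    obtain ⟨Φ, Φ0, Φ1⟩ := H f f0.self
    have := Df.two (C := Set.univ) (A := On) Φ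
    refine core_inj (C := Set.univ) (X := X) hl' hkn k3 k4 s3
      (fun b i x => ∃ S, Φ b (pair x S) ∧ i ∈ S) fun x hx y hy h4 => ?_
    have h5 : ∀ x ∈ l, ∀ i, (∃ S, Φ r (pair x S) ∧ i ∈ S) ↔ i ∈ app f x := fun x hx i =>
      ⟨fun ⟨S, h5, h6⟩ => f1.app_eq ((Φ1 _).1 h5) ▸ h6,
        fun h5 => ⟨_, (Φ1 _).2 (f1.app_mem hx), h5⟩⟩
    have h6 : ∀ x ∈ l, app f x ⊆ k' := fun x hx => mem_powerset.1 (f1.app_mem' hx)
    refine f2 x y _ (f1.app_mem hx) ((?_ : app f y = app f x) ▸ f1.app_mem hy)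
    ext i
    exact ⟨fun hi => (h5 x hx i).1 ((h4 i (h6 y hy hi) r hr).2 ((h5 y hy i).2 hi)),
      fun hi => (h5 y hy i).1 ((h4 i (h6 x hx hi) r hr).1 ((h5 x hx i).2 hi))⟩
  · rintro ⟨s, f0, f1, f2, f3, -⟩
    obtain ⟨Φ, Φ0, Φ1⟩ := H s f0.self
    have := Df.two (C := Set.univ) (A := On) Φ
    refine s2 (core_part (C := Set.univ) (X := X) hl' (fun _ => Iff.rfl) hkn k3 k4 s3 hko hk'
      subset_rfl (DInj.of_subset k1) ?_ (Cof Set.univ om)
      (fun b i x => ∃ S, Φ b (pair i S) ∧ x ∈ S) fun i hi => ⟨r, hr, ?_, ?_⟩)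
    · rw [← hm]
      exact (Order.lt_succ m).trans_le ((card_ord' _).symm.trans_le (card_mono k2))
    · rintro j - j' - x - ⟨S, h4, h5⟩ ⟨S', h6, h7⟩
      by_contra h8
      exact f3 j S j' S' ((Φ1 _).1 h4) ((Φ1 _).1 h6) h8 x h5 h7
    · obtain ⟨h4, h5⟩ := f2 i _ (f1.app_mem hi)
      exact ((hst _).1 h4).mono (fun x hx => mem_sep.2
        ⟨h4.1 hx, (h5 x hx).up h.im hg, _, (Φ1 _).2 (f1.app_mem hi), hx⟩) sep_subset

/-- Relations ordinal definable in `V` are computed in `M` from small parameters. -/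
theorem force_param : ∃ (X : ZFSet.{u}) (B : ZFSet.{u} → ZFSet.{u}), Tm M On (fun _ => X) ∧
    (∀ p ∈ G, B p ∈ X) ∧ ∀ Q : ZFSet.{u} → ZFSet.{u} → Prop,
      Df Set.univ On (fun v => Q (v 0) (v 1)) → ∃ φ : ZFSet.{u} → ZFSet.{u} → ZFSet.{u} → Prop,
        Df M On (fun v => φ (v 0) (v 1) (v 2)) ∧
          ∀ i ∈ M, ∀ x ∈ M, Q i x ↔ ∃ p ∈ G, φ (B p) i x := by
  have := h.im.ctxOn
  refine ⟨vC M (rank (img (fun p => pair P (pair le p)) G)).toZFSet,
    fun p => pair P (pair le p), inferInstance, fun p hp => (mem_vC h.im).2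
      ⟨h.im.pair_mem h.hP (h.im.pair_mem h.hle (h.im.trans _ h.hP _ (h.gen.sub hp))),
        rank_lt_of_mem (mem_img.2 ⟨p, hp, rfl⟩)⟩, fun Q hQ => ?_⟩
  obtain ⟨φ, w, hw, h1⟩ := hQ.ex
  refine ⟨fun b i x => Frc M (fst b) (fst (snd b)) φ (snd (snd b))
    fun n => chk (fst b) (mrg (cons i fun _ => x) w n), Df.frc φ _ _ _
      (fun n v => chk (fst (v 0)) (mrg (cons (v 1) fun _ => v 2) w n)) fun n => ?_,
    fun i hi x hx => ?_⟩
  · have : Tm M On (fun v => mrg (cons (v 1) fun _ => v 2) w n) := by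
      unfold mrg
      split_ifs
      · cases n / 2 with
        | zero => exact Tm.var 1
        | succ n => exact Tm.var 2
      · exact Tm.ofOrd (hw _)
    exact Tm.chk _ _
  · simp only [fst_pair, snd_pair]
    have hm : ∀ n, mrg (cons i fun _ => x) w n ∈ M :=
      mrg_mem (cons_mem hi fun _ => hx) fun n => h.im.ord _ (hw n)
    rw [← h.truth φ fun n => ?_]
    · simp only [h.val_chk]
      exact h1 (cons i fun _ => x) fun _ => trivial
    · have := h.ctx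
      have := h.tmP
      exact (Tm.chk (C := M) (A := M) (fun _ => P) fun v => v 0).mem (fun _ => _) fun _ => hm n

theorem downCof : ∃ θ : ZFSet.{u}, θ.IsOrdinal ∧ ∀ l, θ ∈ l → Regular M l →
    (∀ g, Cof Set.univ om g → CofSM M g l) → CofSM Set.univ om l := by
  have := h.im.ctxOn
  obtain ⟨X, B, hX, hB, H⟩ := h.force_param
  obtain ⟨k0, hk0, hPk⟩ : ∃ k, ℵ₀ ≤ k ∧ card P ≤ k := ⟨_, le_max_left _ _, le_max_right _ _⟩
  obtain ⟨m, hm⟩ : ∃ m, m = max (max ℵ₀ (2 ^ card X)) k0 := ⟨_, rfl⟩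
  have m1 : max ℵ₀ (2 ^ card X) ≤ m := hm ▸ le_max_left _ _
  have m2 : k0 ≤ m := hm ▸ le_max_right _ _
  obtain ⟨θ, hθ, h1⟩ := h.large (Order.succ m)
  refine ⟨θ, hθ, fun l h2 hl hall => ?_⟩
  obtain ⟨hl', h3, hst⟩ := h1 l h2 hl
  have hsl : ∀ k ∈ l, ¬ ∃ f, HOD M f ∧ IsInj l (powerset k) f := fun k hk => by
    obtain ⟨-, k', a1, a2, a3, a4⟩ := hall _ cof_om_om
    exact strong_limit hl' hst (Cof M om) (stat_cof_om h.im hl) a1 a2 a3 a4 hk
  obtain ⟨r, hr⟩ : ∃ r, r = (Order.succ m).ord.toZFSet := ⟨_, rfl⟩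
  have hro : r.IsOrdinal := hr ▸ isOrdinal_toZFSet _
  have hrc : card r = Order.succ m := hr ▸ card_ord' _
  have hrl : r ∈ l := hl'.mem_of_card_lt hro (hrc ▸ h3)
  have h4 : ∀ g, ∃ k ∈ l, Cof Set.univ om g →
      k ≠ ∅ ∧ ¬ ∃ s, HOD M s ∧ CofPartition M g l k s := fun g => by
    by_cases hg : Cof Set.univ om g
    · obtain ⟨-, k', a1, a2, -, a4⟩ := hall g hg
      exact ⟨k', a1, fun _ => ⟨a2, a4⟩⟩
    · exact ⟨∅, hl.empty_mem, fun h => absurd h hg⟩
  choose K K1 K2 using h4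
  obtain ⟨b0, hb0, K3⟩ := hl'.bddV (hrc ▸ h3) K fun g _ => K1 g
  obtain ⟨k, hk, k1, k2⟩ := exists_bound2 hl.1 hb0 hrl
  have hko := hl.1.mem hk
  have k3 : om ⊆ k := (hr ▸ subset_ord_succ (isOrdinal_toZFSet _)
    (card_om.le.trans ((le_max_left _ _).trans m1))).trans k2
  obtain ⟨a, ha, h4⟩ := exists_not_dInj hl.1 hko k3 (hsl k hk)
  have hao := hl.1.mem ha
  have k4 : k ⊆ a := (hko.subset_total hao).resolve_right fun h5 => h4 (DInj.of_subset h5)
  have a1 : ∀ n : ZFSet.{u}, n.IsOrdinal → card n ≤ 2 ^ card X → n ⊆ a := fun n n1 n2 =>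
    ((hr ▸ subset_ord_succ n1 (n2.trans ((le_max_right _ _).trans m1))).trans k2).trans k4
  refine ⟨hl', a, ha, fun e => notMem_empty _ (e ▸ k4 (k3 empty_mem_om)), ?_, ?_⟩
  · rintro ⟨f, f0, f1, f2⟩
    have : Tm Set.univ On (fun _ => f) := od_iff.1 f0.self
    obtain ⟨φ, φ0, φ1⟩ := H (fun i x => i ∈ app f x) inferInstance
    refine core_inj (C := M) (X := X) hl' ha a1 (k3.trans k4) (hsl a ha) φ
      fun x hx y hy h5 => ?_
    have h6 : ∀ x ∈ l, ∀ y ∈ l, (∀ i ∈ a, ∀ b ∈ X, φ b i x → φ b i y) →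
        app f x ⊆ app f y := fun x hx y hy h6 i hi => by
      have hia := mem_powerset.1 (f1.app_mem' hx) hi
      have hiM := h.im.ord _ (hao.mem hia)
      obtain ⟨p, hp, h7⟩ := (φ1 i hiM x (h.im.ord _ (hl.1.mem hx))).1 hi
      exact (φ1 i hiM y (h.im.ord _ (hl.1.mem hy))).2 ⟨p, hp, h6 i hia _ (hB p hp) h7⟩
    exact f2 x y _ (f1.app_mem hx) (subset_antisymm
      (h6 y hy x hx fun i hi b hb => (h5 i hi b hb).2)
      (h6 x hx y hy fun i hi b hb => (h5 i hi b hb).1) ▸ f1.app_mem hy)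
  · rintro ⟨s, f0, f1, f2, f3, -⟩
    have : Tm Set.univ On (fun _ => s) := od_iff.1 f0.self
    obtain ⟨φ, φ0, φ1⟩ := H (fun i x => x ∈ app s i) inferInstance
    have := Df.three' (C := M) φ
    have : Tm M On (fun _ => l) := Tm.ofOrd hl.1
    have : Tm M On (fun _ => a) := Tm.ofOrd hao
    have : Tm M On (fun _ => k) := Tm.ofOrd hko
    have : Tm M On (fun _ => r) := Tm.ofOrd hro
    let I : ZFSet.{u} → ZFSet.{u} := fun g => a.sep fun i => ∃ b, b ∈ X ∧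
      (∀ j, j ∈ a → ∀ j', j' ∈ a → ∀ x, x ∈ l → φ b j x → φ b j' x → j = j') ∧
      Stat M l (l.sep fun x => Cof M g x ∧ φ b i x)
    have : Tm M On (fun v => I (v 0)) := by simp only [I]; infer_instance
    have := Tm.one (C := M) (A := On) I
    have i1 : ∀ g, ∀ i ∈ I g, i.IsOrdinal := fun g i hi => hao.mem (mem_sep.1 hi).1
    have i2 : ∀ g ∈ r, Cof Set.univ om g → img (fun i => colIn (I g) i) (I g) ∈ k := by
      intro g hg hg'
      by_contra h5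
      rw [(img_colIn_ord (i1 g)).notMem_iff_subset hko] at h5
      have : Tm M On (fun _ => g) := Tm.ofOrd hg'.1
      have h6 : DInj M k (I g) := DInj.inv (fun i => colIn (I g) i)
        (fun x hx y hy => colIn_inj (i1 g) hx hy) fun y hy => mem_img.1 (h5 hy)
      exact (K2 g hg').2 (core_part (C := M) (X := X) (I := I g) hl' hst ha a1 (k3.trans k4)
        (hsl a ha) (hl.1.mem (K1 g)) (K2 g hg').1 sep_subset
        ((DInj.of_subset (((hl.1.mem hb0).subset_of_mem (K3 g hg)).trans k1)).trans h6)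
        (m1.trans_lt ((Order.lt_succ m).trans_le
          (hrc.symm.trans_le ((card_mono k2).trans h6.card_le))))
        (Cof M g) φ fun i hi => (mem_sep.1 hi).2)
    have i3 : ∀ i ∈ a, ∃ g ∈ r, i ∈ I g ∧ img (fun i => colIn (I g) i) (I g) ∈ k := by
      intro i hi
      have hiM := h.im.ord _ (hao.mem hi)
      obtain ⟨s1, s2⟩ := f2 i _ (f1.app_mem hi)
      obtain ⟨z, hz, h5⟩ := hl'.stat_union (x := prod r G) ((card_prod_le _ _).trans_lt (by
          refine lt_of_le_of_lt ?_ h3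
          rw [hrc]
          exact (mul_le_mul_right (((card_mono h.gen.sub).trans (hPk.trans m2)).trans
            (Order.le_succ m)) _).trans (mul_eq_self ((hk0.trans m2).trans (Order.le_succ m))).le))
        s1 (fun z => l.sep fun x => Cof Set.univ om (fst z) ∧ Cof M (fst z) x ∧ φ (B (snd z)) i x)
        (fun _ _ => sep_subset) fun x hx => by
          obtain ⟨g, g1, g2, g3⟩ := h.exists_cof hk0 hPk (s2 x hx)
          obtain ⟨p, hp, h5⟩ := (φ1 i hiM x (h.im.ord _ (s2 x hx).1)).1 hx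
          refine ⟨pair g p, pair_mem_prod.2 ⟨hr ▸ Ordinal.toZFSet_subset_toZFSet_iff.2
            (ord_le_ord.2 (Order.succ_le_succ m2)) g1, hp⟩, mem_sep.2 ⟨s1.1 hx, ?_⟩⟩
          simpa using ⟨g3, g2, h5⟩
      obtain ⟨g, hg, p, hp, rfl⟩ := mem_prod.1 hz
      simp only [fst_pair, snd_pair] at h5
      obtain ⟨x, hx⟩ := h5.nonempty innerModel_univ hl'
      refine ⟨g, hg, mem_sep.2 ⟨hi, B p, hB p hp, fun j hj j' hj' x hx h6 h7 => ?_,
        (hst _).2 (h5.mono (fun x hx => mem_sep.2 ⟨(mem_sep.1 hx).1, (mem_sep.1 hx).2.2⟩)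
          sep_subset)⟩, i2 g hg (mem_sep.1 hx).2.1⟩
      by_contra h8
      have hxM := h.im.ord _ (hl.1.mem hx)
      exact f3 j _ j' _ (f1.app_mem hj) (f1.app_mem hj') h8 x
        ((φ1 j (h.im.ord _ (hao.mem hj)) x hxM).2 ⟨p, hp, h6⟩)
        ((φ1 j' (h.im.ord _ (hao.mem hj')) x hxM).2 ⟨p, hp, h7⟩)
    let gg : ZFSet.{u} → ZFSet.{u} := fun i => leastBy r (fun x => x) fun g =>
      i ∈ I g ∧ img (fun i => colIn (I g) i) (I g) ∈ k
    have : Tm M On (fun v => gg (v 0)) := Tm.leastBy r (fun x => x) fun i g =>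
      i ∈ I g ∧ img (fun i => colIn (I g) i) (I g) ∈ k
    have := Tm.one (C := M) (A := On) gg
    have i4 : ∀ i ∈ a, gg i ∈ r ∧ i ∈ I (gg i) ∧
        img (fun j => colIn (I (gg i)) j) (I (gg i)) ∈ k := fun i hi => leastBy_id hro (i3 i hi)
    refine h4 (DInj.trans (b := prod k k) ⟨fun i => pair (gg i) (colIn (I (gg i)) i),
      inferInstance, fun i hi => pair_mem_prod.2 ⟨k2 (i4 i hi).1,
        hko.mem_trans (mem_img.2 ⟨i, (i4 i hi).2.1, rfl⟩) (i4 i hi).2.2⟩,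
      fun i hi j hj e => ?_⟩ (DInj.pairing hko k3))
    obtain ⟨e1, e2⟩ := pair_inj.1 e
    rw [← e1] at e2
    exact colIn_inj (i1 _) (i4 i hi).2.1 (e1 ▸ (i4 j hj).2.1) e2

end FC

end Pool.Agent.MP_ecfd11_lc

end
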